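import Mathlib

set_option autoImplicit false

/-!
# A 5-arc-strong tournament on 26 vertices with `β₅ > α₅`
-/

namespace Pool.Agent.X75.KArc

open Finset

/-! ### Cuts and flows -/

/-- In a list of arcs with `k` more arcs leaving `x` than entering it and conservation away from
`x` and `y`, every set containing `x` but not `y` is left by at least `k` arcs of the list. -/
lemma countP_cut {n : ℕ} (l : List (Fin n × Fin n)) (x y : Fin n) (k : ℕ)
    (hx : l.countP (fun e => decide (e.1 = x)) = l.countP (fun e => decide (e.2 = x)) + k)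
    (hc : ∀ w, w ≠ x → w ≠ y →
      l.countP (fun e => decide (e.1 = w)) = l.countP (fun e => decide (e.2 = w)))
    (S : Finset (Fin n)) (hxS : x ∈ S) (hyS : y ∉ S) :
    k ≤ l.countP (fun e => decide (e.1 ∈ S ∧ e.2 ∉ S)) := by
  have h1 : ∀ (l : List (Fin n × Fin n)), ∑ w ∈ S, l.countP (fun e => decide (e.1 = w))
      = l.countP (fun e => decide (e.1 ∈ S)) := by
    intro l
    induction l with
    | nil => simp
    | cons e l ih =>
      simp only [List.countP_cons, Finset.sum_add_distrib, ih]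
      congr 1
      simp
  have h2 : ∀ (l : List (Fin n × Fin n)), ∑ w ∈ S, l.countP (fun e => decide (e.2 = w))
      = l.countP (fun e => decide (e.2 ∈ S)) := by
    intro l
    induction l with
    | nil => simp
    | cons e l ih =>
      simp only [List.countP_cons, Finset.sum_add_distrib, ih]
      congr 1
      simp
  have h3 : ∀ (l : List (Fin n × Fin n)), l.countP (fun e => decide (e.1 ∈ S))
      ≤ l.countP (fun e => decide (e.2 ∈ S)) + l.countP (fun e => decide (e.1 ∈ S ∧ e.2 ∉ S)) := by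
    intro l
    induction l with
    | nil => simp
    | cons e l ih =>
      simp only [List.countP_cons]
      by_cases he1 : e.1 ∈ S <;> by_cases he2 : e.2 ∈ S <;>
        simp only [he1, he2, decide_true, decide_false, not_true_eq_false, not_false_eq_true,
          and_true, and_false, if_true, Bool.false_eq_true, if_false] <;> omega
  have h4 : ∑ w ∈ S, l.countP (fun e => decide (e.1 = w))
      = ∑ w ∈ S, l.countP (fun e => decide (e.2 = w)) + k := by
    rw [← Finset.add_sum_erase S _ hxS, ← Finset.add_sum_erase S _ hxS, hx]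
    have : ∑ w ∈ S.erase x, l.countP (fun e => decide (e.1 = w))
        = ∑ w ∈ S.erase x, l.countP (fun e => decide (e.2 = w)) := by
      apply Finset.sum_congr rfl
      intro w hw
      rw [Finset.mem_erase] at hw
      exact hc w hw.1 (fun h => hyS (h ▸ hw.2))
    rw [this]
    ring
  rw [h1, h2] at h4
  have := h3 l
  omega

lemma cut_of_flow {n : ℕ} (A : Finset (Fin n × Fin n)) (l : List (Fin n × Fin n)) (x y : Fin n)
    (k : ℕ) (hnd : l.Nodup) (hA : ∀ e ∈ l, e ∈ A)
    (hx : l.countP (fun e => decide (e.1 = x)) = l.countP (fun e => decide (e.2 = x)) + k)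
    (hc : ∀ w, w ≠ x → w ≠ y →
      l.countP (fun e => decide (e.1 = w)) = l.countP (fun e => decide (e.2 = w)))
    (S : Finset (Fin n)) (hxS : x ∈ S) (hyS : y ∉ S) :
    k ≤ (A.filter (fun e => e.1 ∈ S ∧ e.2 ∉ S)).card := by
  refine (countP_cut l x y k hx hc S hxS hyS).trans ?_
  rw [List.countP_eq_length_filter, ← List.toFinset_card_of_nodup (hnd.filter _)]
  apply Finset.card_le_card
  intro e he
  rw [List.mem_toFinset, List.mem_filter] at he
  rw [Finset.mem_filter]
  exact ⟨hA e he.1, by simpa using he.2⟩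

/-! ### The lower bound for strongly arc-connected subdigraphs -/

/-- A subdigraph with all semidegrees at least `k` containing an arc that neither starts in `P`
nor ends in `Q` has more than `k (|P| + |Q|) - e(P, Q)` arcs. -/
lemma card_bound {n : ℕ} (A C : Finset (Fin n × Fin n)) (hCA : C ⊆ A) (P Q : Finset (Fin n))
    (k : ℕ) (hdeg : ∀ v : Fin n, k ≤ (C.filter (fun e => e.1 = v)).card ∧
      k ≤ (C.filter (fun e => e.2 = v)).card)
    (e0 : Fin n × Fin n) (he0 : e0 ∈ C) (h1 : e0.1 ∉ P) (h2 : e0.2 ∉ Q) :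
    k * (P.card + Q.card) + 1 ≤ C.card + (A.filter (fun e => e.1 ∈ P ∧ e.2 ∈ Q)).card := by
  have hP : k * P.card ≤ (C.filter (fun e => e.1 ∈ P)).card := by
    have : (C.filter (fun e => e.1 ∈ P)).card
        = ∑ v ∈ P, ((C.filter (fun e => e.1 ∈ P)).filter (fun e => e.1 = v)).card :=
      Finset.card_eq_sum_card_fiberwise (fun e he => by simpa using (Finset.mem_filter.1 he).2)
    rw [this, mul_comm, ← smul_eq_mul, ← Finset.sum_const]
    apply Finset.sum_le_sum
    intro v hv
    refine (hdeg v).1.trans (Finset.card_le_card ?_)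
    intro e he
    rw [Finset.mem_filter] at he
    rw [Finset.mem_filter, Finset.mem_filter]
    exact ⟨⟨he.1, he.2 ▸ hv⟩, he.2⟩
  have hQ : k * Q.card ≤ (C.filter (fun e => e.2 ∈ Q)).card := by
    have : (C.filter (fun e => e.2 ∈ Q)).card
        = ∑ v ∈ Q, ((C.filter (fun e => e.2 ∈ Q)).filter (fun e => e.2 = v)).card :=
      Finset.card_eq_sum_card_fiberwise (fun e he => by simpa using (Finset.mem_filter.1 he).2)
    rw [this, mul_comm, ← smul_eq_mul, ← Finset.sum_const]
    apply Finset.sum_le_sum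
    intro v hv
    refine (hdeg v).2.trans (Finset.card_le_card ?_)
    intro e he
    rw [Finset.mem_filter] at he
    rw [Finset.mem_filter, Finset.mem_filter]
    exact ⟨⟨he.1, he.2 ▸ hv⟩, he.2⟩
  have hunion := Finset.card_union_add_card_inter (C.filter (fun e => e.1 ∈ P))
    (C.filter (fun e => e.2 ∈ Q))
  have hU : (C.filter (fun e => e.1 ∈ P) ∪ C.filter (fun e => e.2 ∈ Q)).card + 1 ≤ C.card := by
    rw [Nat.succ_le_iff]
    apply Finset.card_lt_card
    rw [Finset.ssubset_iff_of_subset]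
    · refine ⟨e0, he0, ?_⟩
      simp [h1, h2]
    · intro e he
      rw [Finset.mem_union, Finset.mem_filter, Finset.mem_filter] at he
      rcases he with he | he
      · exact he.1
      · exact he.1
  have hI : (C.filter (fun e => e.1 ∈ P) ∩ C.filter (fun e => e.2 ∈ Q)).card
      ≤ (A.filter (fun e => e.1 ∈ P ∧ e.2 ∈ Q)).card := by
    apply Finset.card_le_card
    intro e he
    rw [Finset.mem_inter, Finset.mem_filter, Finset.mem_filter] at he
    rw [Finset.mem_filter]
    exact ⟨hCA he.1.1, he.1.2, he.2.2⟩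
  rw [mul_add]
  omega

/-! ### The tournament -/

/-- out-neighbourhoods, as bit masks -/
def row : Fin 26 → ℕ := ![8658958, 8180, 8184, 8178, 481, 961, 10113, 3841, 7681, 7185, 6193, 4209, 8433, 66981822,
    49151, 81919, 32767, 4055039, 7987198, 15851519, 31580159, 63037439, 58974207, 50847742,
    34594815, 2088959]

/-- a spanning subdigraph with 135 arcs -/
def rowB : Fin 26 → ℕ := ![8650766, 244, 7688, 7426, 481, 961, 10112, 3841, 7681, 7185, 6193, 4209, 8432, 58327040,
    40974, 73742, 24590, 3997696, 7929856, 15794176, 31522816, 62930944, 58884096, 50774016,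
    34521088, 2015232]

/-- five arc-disjoint paths from `0` to `v` -/
def flowOut : Fin 26 → List (Fin 26 × Fin 26) := ![[],
    [(0, 1), (3, 1), (0, 3), (13, 1), (0, 13), (18, 1), (0, 18), (23, 1), (0, 23)],
    [(0, 2), (1, 2), (0, 1), (13, 2), (0, 13), (18, 2), (0, 18), (23, 2), (0, 23)],
    [(0, 3), (2, 3), (0, 2), (13, 3), (0, 13), (18, 3), (0, 18), (23, 3), (0, 23)],
    [(1, 4), (0, 1), (2, 4), (0, 2), (3, 4), (0, 3), (13, 4), (0, 13), (18, 4), (0, 18)],
    [(1, 5), (0, 1), (2, 5), (0, 2), (3, 5), (0, 3), (13, 5), (0, 13), (18, 5), (0, 18)],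
    [(1, 6), (0, 1), (2, 6), (0, 2), (3, 6), (0, 3), (18, 6), (0, 18), (23, 6), (0, 23)],
    [(1, 7), (0, 1), (2, 7), (0, 2), (3, 7), (0, 3), (13, 7), (0, 13), (18, 7), (0, 18)],
    [(1, 8), (0, 1), (2, 8), (0, 2), (3, 8), (0, 3), (13, 8), (0, 13), (18, 8), (0, 18)],
    [(1, 9), (0, 1), (2, 9), (0, 2), (3, 9), (0, 3), (13, 9), (0, 13), (18, 9), (0, 18)],
    [(1, 10), (0, 1), (2, 10), (0, 2), (3, 10), (0, 3), (13, 10), (0, 13), (18, 10), (0, 18)],
    [(1, 11), (0, 1), (2, 11), (0, 2), (3, 11), (0, 3), (13, 11), (0, 13), (18, 11), (0, 18)],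
    [(1, 12), (0, 1), (2, 12), (0, 2), (3, 12), (0, 3), (18, 12), (0, 18), (23, 12), (0, 23)],
    [(0, 13), (6, 13), (1, 6), (0, 1), (12, 13), (2, 12), (0, 2), (14, 13), (18, 14), (0, 18), (15,
    13), (23, 15), (0, 23)],
    [(18, 14), (0, 18), (23, 14), (0, 23), (17, 14), (13, 17), (0, 13), (19, 14), (13, 19), (6, 13),
    (1, 6), (0, 1), (20, 14), (13, 20), (12, 13), (2, 12), (0, 2)],
    [(18, 15), (0, 18), (23, 15), (0, 23), (17, 15), (13, 17), (0, 13), (19, 15), (13, 19), (6, 13),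
    (1, 6), (0, 1), (20, 15), (13, 20), (12, 13), (2, 12), (0, 2)],
    [(18, 16), (0, 18), (23, 16), (0, 23), (17, 16), (13, 17), (0, 13), (19, 16), (13, 19), (6, 13),
    (1, 6), (0, 1), (20, 16), (13, 20), (12, 13), (2, 12), (0, 2)],
    [(13, 17), (0, 13), (23, 17), (0, 23), (22, 17), (18, 22), (0, 18), (24, 17), (13, 24), (6, 13),
    (1, 6), (0, 1), (25, 17), (13, 25), (12, 13), (2, 12), (0, 2)],
    [(0, 18), (13, 18), (0, 13), (23, 18), (0, 23), (17, 18), (13, 17), (6, 13), (1, 6), (0, 1),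
    (24, 18), (13, 24), (12, 13), (2, 12), (0, 2)],
    [(13, 19), (0, 13), (18, 19), (0, 18), (17, 19), (23, 17), (0, 23), (24, 19), (13, 24), (6, 13),
    (1, 6), (0, 1), (25, 19), (13, 25), (12, 13), (2, 12), (0, 2)],
    [(13, 20), (0, 13), (18, 20), (0, 18), (17, 20), (23, 17), (0, 23), (19, 20), (13, 19), (6, 13),
    (1, 6), (0, 1), (25, 20), (13, 25), (12, 13), (2, 12), (0, 2)],
    [(13, 21), (0, 13), (18, 21), (0, 18), (17, 21), (23, 17), (0, 23), (19, 21), (13, 19), (6, 13),
    (1, 6), (0, 1), (20, 21), (13, 20), (12, 13), (2, 12), (0, 2)],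
    [(13, 22), (0, 13), (18, 22), (0, 18), (19, 22), (17, 19), (23, 17), (0, 23), (20, 22), (13,
    20), (6, 13), (1, 6), (0, 1), (21, 22), (13, 21), (12, 13), (2, 12), (0, 2)],
    [(0, 23), (13, 23), (0, 13), (19, 23), (18, 19), (0, 18), (20, 23), (13, 20), (6, 13), (1, 6),
    (0, 1), (21, 23), (13, 21), (12, 13), (2, 12), (0, 2)],
    [(13, 24), (0, 13), (23, 24), (0, 23), (20, 24), (18, 20), (0, 18), (21, 24), (13, 21), (6, 13),
    (1, 6), (0, 1), (22, 24), (13, 22), (12, 13), (2, 12), (0, 2)],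
    [(13, 25), (0, 13), (23, 25), (0, 23), (21, 25), (18, 21), (0, 18), (22, 25), (13, 22), (6, 13),
    (1, 6), (0, 1), (24, 25), (13, 24), (12, 13), (2, 12), (0, 2)]]

/-- five arc-disjoint paths from `v` to `0` -/
def flowIn : Fin 26 → List (Fin 26 × Fin 26) := ![[],
    [(4, 0), (1, 4), (5, 0), (1, 5), (6, 0), (1, 6), (7, 0), (1, 7), (8, 0), (1, 8)],
    [(4, 0), (2, 4), (5, 0), (2, 5), (6, 0), (2, 6), (7, 0), (2, 7), (8, 0), (2, 8)],
    [(4, 0), (3, 4), (5, 0), (3, 5), (6, 0), (3, 6), (7, 0), (3, 7), (8, 0), (3, 8)],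
    [(4, 0), (5, 0), (4, 5), (6, 0), (4, 6), (7, 0), (4, 7), (8, 0), (4, 8)],
    [(5, 0), (6, 0), (5, 6), (7, 0), (5, 7), (8, 0), (5, 8), (9, 0), (5, 9)],
    [(6, 0), (7, 0), (6, 7), (8, 0), (6, 8), (9, 0), (6, 9), (10, 0), (6, 10)],
    [(7, 0), (8, 0), (7, 8), (9, 0), (7, 9), (10, 0), (7, 10), (11, 0), (7, 11)],
    [(8, 0), (9, 0), (8, 9), (10, 0), (8, 10), (11, 0), (8, 11), (12, 0), (8, 12)],
    [(9, 0), (4, 0), (9, 4), (10, 0), (9, 10), (11, 0), (9, 11), (12, 0), (9, 12)],
    [(10, 0), (4, 0), (10, 4), (5, 0), (10, 5), (11, 0), (10, 11), (12, 0), (10, 12)],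
    [(11, 0), (4, 0), (11, 4), (5, 0), (11, 5), (6, 0), (11, 6), (12, 0), (11, 12)],
    [(12, 0), (4, 0), (12, 4), (5, 0), (12, 5), (6, 0), (12, 6), (7, 0), (12, 7)],
    [(4, 0), (13, 4), (5, 0), (13, 5), (7, 0), (13, 7), (8, 0), (13, 8), (9, 0), (13, 9)],
    [(14, 0), (4, 0), (14, 4), (5, 0), (14, 5), (6, 0), (14, 6), (7, 0), (14, 7)],
    [(15, 0), (4, 0), (15, 4), (5, 0), (15, 5), (6, 0), (15, 6), (7, 0), (15, 7)],
    [(16, 0), (4, 0), (16, 4), (5, 0), (16, 5), (6, 0), (16, 6), (7, 0), (16, 7)],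
    [(17, 0), (4, 0), (17, 4), (5, 0), (17, 5), (6, 0), (17, 6), (7, 0), (17, 7)],
    [(4, 0), (18, 4), (5, 0), (18, 5), (6, 0), (18, 6), (7, 0), (18, 7), (8, 0), (18, 8)],
    [(19, 0), (4, 0), (19, 4), (5, 0), (19, 5), (6, 0), (19, 6), (7, 0), (19, 7)],
    [(20, 0), (4, 0), (20, 4), (5, 0), (20, 5), (6, 0), (20, 6), (7, 0), (20, 7)],
    [(21, 0), (4, 0), (21, 4), (5, 0), (21, 5), (6, 0), (21, 6), (7, 0), (21, 7)],
    [(22, 0), (4, 0), (22, 4), (5, 0), (22, 5), (6, 0), (22, 6), (7, 0), (22, 7)],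
    [(4, 0), (23, 4), (5, 0), (23, 5), (6, 0), (23, 6), (7, 0), (23, 7), (8, 0), (23, 8)],
    [(24, 0), (4, 0), (24, 4), (5, 0), (24, 5), (6, 0), (24, 6), (7, 0), (24, 7)],
    [(25, 0), (4, 0), (25, 4), (5, 0), (25, 5), (6, 0), (25, 6), (7, 0), (25, 7)]]

/-- the arcs of the tournament -/
def arcs : Finset (Fin 26 × Fin 26) := univ.filter fun e => (row e.1).testBit e.2

/-- the arcs of the subdigraph with all semidegrees at least 5 -/
def arcsB : Finset (Fin 26 × Fin 26) := univ.filter fun e => (rowB e.1).testBit e.2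

lemma mem_arcs (u v : Fin 26) : (u, v) ∈ arcs ↔ (row u).testBit v = true := by
  simp [arcs]

lemma irrefl (u : Fin 26) : (u, u) ∉ arcs := by
  rw [mem_arcs]
  revert u
  decide +kernel

lemma tournament (u v : Fin 26) (h : u ≠ v) : (u, v) ∈ arcs ↔ (v, u) ∉ arcs := by
  rw [mem_arcs, mem_arcs]
  revert u v
  decide +kernel

lemma arcsB_subset : arcsB ⊆ arcs := by
  have : ∀ u v : Fin 26, (rowB u).testBit v = true → (row u).testBit v = true := by
    decide +kernel
  intro e he
  simp only [arcsB, Finset.mem_filter, Finset.mem_univ, true_and] at he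
  simp only [arcs, Finset.mem_filter, Finset.mem_univ, true_and]
  exact this _ _ he

lemma flowOut_nodup : ∀ v : Fin 26, (flowOut v).Nodup := by decide +kernel

lemma flowIn_nodup : ∀ v : Fin 26, (flowIn v).Nodup := by decide +kernel

lemma flowOut_mem : ∀ v : Fin 26, ∀ e ∈ flowOut v, (row e.1).testBit e.2 = true := by
  decide +kernel

lemma flowIn_mem : ∀ v : Fin 26, ∀ e ∈ flowIn v, (row e.1).testBit e.2 = true := by
  decide +kernel

lemma flowOut_src : ∀ v : Fin 26, v ≠ 0 →
    (flowOut v).countP (fun e => decide (e.1 = 0))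
      = (flowOut v).countP (fun e => decide (e.2 = 0)) + 5 := by
  decide +kernel

lemma flowIn_src : ∀ v : Fin 26, v ≠ 0 →
    (flowIn v).countP (fun e => decide (e.1 = v))
      = (flowIn v).countP (fun e => decide (e.2 = v)) + 5 := by
  decide +kernel

lemma flowOut_cons : ∀ v w : Fin 26, w ≠ 0 → w ≠ v →
    (flowOut v).countP (fun e => decide (e.1 = w))
      = (flowOut v).countP (fun e => decide (e.2 = w)) := by
  decide +kernel

lemma flowIn_cons : ∀ v w : Fin 26, w ≠ v → w ≠ 0 →
    (flowIn v).countP (fun e => decide (e.1 = w))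
      = (flowIn v).countP (fun e => decide (e.2 = w)) := by
  decide +kernel

lemma arc_strong (S : Finset (Fin 26)) (hne : S.Nonempty) (huniv : S ≠ Finset.univ) :
    5 ≤ (arcs.filter (fun e => e.1 ∈ S ∧ e.2 ∉ S)).card := by
  by_cases h0 : (0 : Fin 26) ∈ S
  · obtain ⟨v, hv⟩ : ∃ v, v ∉ S := by
      by_contra hcon
      push Not at hcon
      exact huniv (Finset.eq_univ_iff_forall.2 hcon)
    have hv0 : v ≠ 0 := fun h => hv (h ▸ h0)
    exact cut_of_flow arcs (flowOut v) 0 v 5 (flowOut_nodup v)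
      (fun e he => (mem_arcs e.1 e.2).2 (flowOut_mem v e he)) (flowOut_src v hv0)
      (fun w h1 h2 => flowOut_cons v w h1 h2) S h0 hv
  · obtain ⟨v, hv⟩ := hne
    have hv0 : v ≠ 0 := fun h => h0 (h ▸ hv)
    exact cut_of_flow arcs (flowIn v) v 0 5 (flowIn_nodup v)
      (fun e he => (mem_arcs e.1 e.2).2 (flowIn_mem v e he)) (flowIn_src v hv0)
      (fun w h1 h2 => flowIn_cons v w h1 h2) S hv h0

lemma arcsB_card : arcsB.card = 135 := by decide +kernel

lemma arcsB_deg : ∀ v : Fin 26, 5 ≤ (arcsB.filter (fun e => e.1 = v)).card ∧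
    5 ≤ (arcsB.filter (fun e => e.2 = v)).card := by decide +kernel

/-- the sets of the dual solution -/
def P : Finset (Fin 26) := {1, 2, 3, 4, 5, 6, 7, 8, 9, 10, 11, 12, 14, 15, 16}

/-- the sets of the dual solution -/
def Q : Finset (Fin 26) := {1, 2, 3, 14, 15, 16, 17, 18, 19, 20, 21, 22, 23, 24, 25}

/-- one side of the cut with five arcs -/
def S0 : Finset (Fin 26) := {0, 1, 2, 3, 4, 5, 6, 7, 8, 9, 10, 11, 12}

lemma P_card : P.card = 15 := by decide +kernel

lemma Q_card : Q.card = 15 := by decide +kernel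

lemma e_PQ : (arcs.filter (fun e => e.1 ∈ P ∧ e.2 ∈ Q)).card = 15 := by decide +kernel

lemma e_S0 : (arcs.filter (fun e => e.1 ∈ S0 ∧ e.2 ∉ S0)).card = 5 := by decide +kernel

lemma mem_cut : ((0, 13) : Fin 26 × Fin 26) ∈ arcs.filter (fun e => e.1 ∈ S0 ∧ e.2 ∉ S0) := by
  decide +kernel

/-- Every spanning 5-arc-strong subdigraph has at least 136 arcs. -/
lemma lower (C : Finset (Fin 26 × Fin 26)) (hCA : C ⊆ arcs)
    (hC : ∀ S : Finset (Fin 26), S.Nonempty → S ≠ Finset.univ →
      5 ≤ (C.filter (fun e => e.1 ∈ S ∧ e.2 ∉ S)).card) : 136 ≤ C.card := by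
  have hdeg : ∀ v : Fin 26, 5 ≤ (C.filter (fun e => e.1 = v)).card ∧
      5 ≤ (C.filter (fun e => e.2 = v)).card := by
    intro v
    constructor
    · refine (hC {v} (Finset.singleton_nonempty v) ?_).trans (Finset.card_le_card ?_)
      · intro h
        have := congrArg Finset.card h
        simp at this
      · intro e he
        rw [Finset.mem_filter] at he ⊢
        exact ⟨he.1, by simpa using he.2.1⟩
    · refine (hC ({v}ᶜ) ?_ ?_).trans (Finset.card_le_card ?_)
      · rw [← Finset.card_pos, Finset.card_compl]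
        simp
      · intro h
        have := congrArg Finset.card h
        rw [Finset.card_compl] at this
        simp at this
      · intro e he
        rw [Finset.mem_filter] at he ⊢
        refine ⟨he.1, ?_⟩
        have := he.2.2
        simpa using this
  have hcut : (0, 13) ∈ C := by
    have hsub : C.filter (fun e => e.1 ∈ S0 ∧ e.2 ∉ S0)
        ⊆ arcs.filter (fun e => e.1 ∈ S0 ∧ e.2 ∉ S0) := Finset.filter_subset_filter _ hCA
    have hS0 : S0 ≠ Finset.univ := by
      intro h
      have : (13 : Fin 26) ∈ S0 := h ▸ Finset.mem_univ _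
      revert this
      decide
    have h5 := hC S0 ⟨0, by decide⟩ hS0
    have heq := Finset.eq_of_subset_of_card_le hsub (by rw [e_S0]; exact h5)
    have := mem_cut
    rw [← heq, Finset.mem_filter] at this
    exact this.1
  have := card_bound arcs C hCA P Q 5 hdeg (0, 13) hcut (by decide) (by decide)
  rw [P_card, Q_card, e_PQ] at this
  omega

end Pool.Agent.X75.KArc
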