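import Mathlib

set_option autoImplicit false

namespace Pool.Agent.X75

open SimpleGraph

/-- In a tree, a family of connected node sets `N i` (one for each node `i`, with `i ∉ N i`)
cannot be pairwise intersecting. -/
theorem no_avoiding_family {n : ℕ} (T : SimpleGraph (Fin n)) (hT : T.IsTree)
    (N : Fin n → Set (Fin n)) (hmem : ∀ i, i ∉ N i)
    (hconn : ∀ i, ∀ a ∈ N i, ∀ b ∈ N i, ∃ w : T.Walk a b, ∀ x ∈ w.support, x ∈ N i)
    (hint : ∀ i j, (N i ∩ N j).Nonempty) : False := by
  classical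
  -- choose the first step towards `N i`
  have hstep : ∀ i : Fin n, ∃ j : Fin n, T.Adj i j ∧
      ∀ a ∈ N i, ∃ w : T.Walk j a, i ∉ w.support := by
    intro i
    obtain ⟨a, ha, -⟩ := hint i i
    obtain ⟨p⟩ := hT.1.preconnected i a
    have hia : i ≠ a := fun h => hmem i (h ▸ ha)
    obtain ⟨q, hq⟩ : ∃ q : T.Walk i a, q.IsPath := ⟨p.bypass, p.bypass_isPath⟩
    cases q with
    | nil => exact absurd rfl hia
    | @cons _ j _ hadj q =>
      refine ⟨j, hadj, ?_⟩
      intro b hb
      obtain ⟨w, hw⟩ := hconn i a ha b hb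
      refine ⟨q.append w, ?_⟩
      intro hmem'
      rw [Walk.mem_support_append_iff] at hmem'
      rcases hmem' with h | h
      · rw [Walk.cons_isPath_iff] at hq
        exact hq.2 h
      · exact hmem i (hw i h)
  choose g hg1 hg2 using hstep
  -- no two-cycles
  have hno2 : ∀ i, g (g i) ≠ i := by
    intro i h
    obtain ⟨k, hk1, hk2⟩ := hint i (g i)
    obtain ⟨w1, hw1⟩ := hg2 i k hk1
    obtain ⟨w2, hw2⟩ := hg2 (g i) k hk2
    have hbr := (isAcyclic_iff_forall_adj_isBridge.mp hT.2) (hg1 i)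
    rw [isBridge_iff] at hbr
    apply hbr
    -- walk from i to g i avoiding the edge
    have e1 : s(i, g i) ∉ w1.edges := by
      intro he
      exact hw1 (Walk.fst_mem_support_of_mem_edges w1 he)
    have e2 : s(i, g i) ∉ w2.edges := by
      intro he
      exact hw2 (Walk.snd_mem_support_of_mem_edges w2 he)
    have r1 : (T.deleteEdges {s(i, g i)}).Reachable (g i) k := by
      refine ⟨w1.toDeleteEdges _ ?_⟩
      intro e he h1
      rw [Set.mem_singleton_iff] at h1
      exact e1 (h1 ▸ he)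
    have r2 : (T.deleteEdges {s(i, g i)}).Reachable (g (g i)) k := by
      refine ⟨w2.toDeleteEdges _ ?_⟩
      intro e he h1
      rw [Set.mem_singleton_iff] at h1
      exact e2 (h1 ▸ he)
    rw [h] at r2
    exact r2.trans r1.symm
  -- the map i ↦ {i, g i} is injective into the edge set
  have hinj : Function.Injective (fun i : Fin n => (⟨s(i, g i), by
      rw [mem_edgeFinset, mem_edgeSet]; exact hg1 i⟩ : T.edgeFinset)) := by
    intro i j hij
    simp only [Subtype.mk.injEq] at hij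
    rw [Sym2.eq_iff] at hij
    rcases hij with ⟨h, -⟩ | ⟨h1, h2⟩
    · exact h
    · exfalso
      apply hno2 i
      rw [h2, ← h1]
  have hcard := Fintype.card_le_of_injective _ hinj
  have h2 := hT.card_edgeFinset
  rw [Fintype.card_coe] at hcard
  omega

/-- Bramble lemma: if the vertex sets `X j` are connected in `G`, nonempty and pairwise touching,
then some bag of any tree decomposition meets all of them. -/
theorem bag_meets_bramble {V : Type} [DecidableEq V] (G : SimpleGraph V) {n : ℕ}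
    (T : SimpleGraph (Fin n)) (B : Fin n → Finset V) (hT : T.IsTree)
    (hedge : ∀ u v : V, G.Adj u v → ∃ i, u ∈ B i ∧ v ∈ B i)
    (hvert : ∀ v : V, (T.induce {i : Fin n | v ∈ B i}).Connected)
    {J : Type} (X : J → Set V)
    (hX : ∀ j, ∀ a ∈ X j, ∀ b ∈ X j, ∃ w : G.Walk a b, ∀ x ∈ w.support, x ∈ X j)
    (htouch : ∀ j k, ∃ a ∈ X j, ∃ b ∈ X k, a = b ∨ G.Adj a b) :
    ∃ i, ∀ j, ∃ v ∈ B i, v ∈ X j := by
  classical
  by_contra hcon
  push Not at hcon
  choose f hf using hcon
  -- node set of `X`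
  let M : J → Set (Fin n) := fun j => {i | ∃ v ∈ B i, v ∈ X j}
  -- walks inside the node set of a single vertex
  have hv : ∀ v : V, ∀ i k : Fin n, v ∈ B i → v ∈ B k →
      ∃ w : T.Walk i k, ∀ x ∈ w.support, v ∈ B x := by
    intro v i k hi hk
    obtain ⟨w⟩ := (hvert v).preconnected ⟨i, hi⟩ ⟨k, hk⟩
    have key : ∀ (p q : {i : Fin n | v ∈ B i}) (w : (T.induce {i : Fin n | v ∈ B i}).Walk p q),
        ∃ w : T.Walk p.1 q.1, ∀ x ∈ w.support, v ∈ B x := by
      intro p q w
      induction w with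
      | @nil p => exact ⟨Walk.nil, fun x hx => by
          rw [Walk.support_nil, List.mem_singleton] at hx; rw [hx]; exact p.2⟩
      | @cons p r q hadj w ih =>
        obtain ⟨w', hw'⟩ := ih
        have hadj' : T.Adj p.1 r.1 := hadj
        refine ⟨Walk.cons hadj' w', ?_⟩
        intro x hx
        rw [Walk.support_cons, List.mem_cons] at hx
        rcases hx with rfl | hx
        · exact p.2
        · exact hw' x hx
    exact key _ _ w
  have hM : ∀ j, ∀ (a b : V) (w : G.Walk a b), (∀ x ∈ w.support, x ∈ X j) →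
      ∀ i k : Fin n, a ∈ B i → b ∈ B k → ∃ w : T.Walk i k, ∀ x ∈ w.support, x ∈ M j := by
    intro j a b w
    induction w with
    | nil =>
      intro hw i k hi hk
      obtain ⟨w', hw'⟩ := hv _ i k hi hk
      exact ⟨w', fun x hx => ⟨_, hw' x hx, hw _ (by simp)⟩⟩
    | @cons a c b hadj p ih =>
      intro hw i k hi hk
      obtain ⟨l, hl1, hl2⟩ := hedge a c hadj
      obtain ⟨w1, hw1⟩ := hv a i l hi hl1
      obtain ⟨w2, hw2⟩ := ih (fun x hx => hw x (by simp [hx])) l k hl2 hk
      refine ⟨w1.append w2, ?_⟩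
      intro x hx
      rw [Walk.mem_support_append_iff] at hx
      rcases hx with h | h
      · exact ⟨a, hw1 x h, hw a (by simp)⟩
      · exact hw2 x h
  refine no_avoiding_family T hT (fun i => M (f i)) ?_ ?_ ?_
  · rintro i ⟨v, hv1, hv2⟩
    exact hf i v hv1 hv2
  · rintro i a ⟨u, hu1, hu2⟩ b ⟨v, hv1, hv2⟩
    obtain ⟨w, hw⟩ := hX (f i) u hu2 v hv2
    exact hM (f i) u v w hw a b hu1 hv1
  · intro i j
    obtain ⟨a, ha, b, hb, hab⟩ := htouch (f i) (f j)
    rcases hab with rfl | hab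
    · obtain ⟨⟨k, hk⟩⟩ := (hvert a).nonempty
      exact ⟨k, ⟨a, hk, ha⟩, ⟨a, hk, hb⟩⟩
    · obtain ⟨k, hk1, hk2⟩ := hedge a b hab
      exact ⟨k, ⟨a, hk1, ha⟩, ⟨b, hk2, hb⟩⟩

end Pool.Agent.X75
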