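import Mathlib

/-!
Chromatic symmetric functions of trees given by a parent function: elimination of leaves.
-/

set_option autoImplicit false

namespace Pool.Agent.X75.CSF

open Polynomial

variable {U : Type*} [CommRing U]

/-- replace the powers of the variable by power sums -/
noncomputable def SU (P : ℕ → U) (h : U[X]) : U := h.sum fun j c => c * P j

theorem SU_map {U' : Type*} [CommRing U'] (f : U →+* U') (P : ℕ → U) (h : U[X]) :
    f (SU P h) = SU (fun j => f (P j)) (h.map f) := by
  unfold SU
  rw [Polynomial.sum_def, map_sum]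
  rw [Polynomial.sum_eq_of_subset (s := h.support) (fun j c => c * f (P j)) (by simp)
    (support_map_subset f h)]
  apply Finset.sum_congr rfl
  intro j _
  rw [map_mul, coeff_map]

/-- elimination of the vertices `k, k - 1, …, 1` -/
noncomputable def run (P : ℕ → U) (par : ℕ → ℕ) : ℕ → (ℕ → U[X]) → U
  | 0, h => SU P (h 0)
  | k + 1, h => run P par k (Function.update h (par (k + 1))
      (h (par (k + 1)) * (C (SU P (h (k + 1))) - h (k + 1))))

theorem run_congr (P : ℕ → U) (par : ℕ → ℕ) (hpar : ∀ i, par (i + 1) ≤ i) (k : ℕ) (h h' : ℕ → U[X])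
    (hh : ∀ i ≤ k, h i = h' i) : run P par k h = run P par k h' := by
  induction k generalizing h h' with
  | zero => unfold run; rw [hh 0 le_rfl]
  | succ k ih =>
    unfold run
    apply ih
    intro i hi
    have h1 := hh (par (k + 1)) ((hpar k).trans (by omega))
    have h2 := hh (k + 1) le_rfl
    by_cases hip : i = par (k + 1)
    · subst hip
      simp [h1, h2]
    · simp only [Function.update_of_ne hip]
      exact hh i (by omega)

theorem run_map {U' : Type*} [CommRing U'] (f : U →+* U') (P : ℕ → U) (par : ℕ → ℕ) (k : ℕ)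
    (h : ℕ → U[X]) :
    f (run P par k h) = run (fun j => f (P j)) par k (fun i => (h i).map f) := by
  induction k generalizing h with
  | zero => unfold run; exact SU_map f P (h 0)
  | succ k ih =>
    unfold run
    rw [ih]
    congr 1
    funext i
    by_cases hip : i = par (k + 1)
    · subst hip
      simp only [Function.update_self, Polynomial.map_mul, Polynomial.map_sub, Polynomial.map_C]
      rw [SU_map]
    · simp [Function.update_of_ne hip]

variable {K : Type*} [CommRing K]

/-- the sum over the colourings of the vertices `0, …, k` -/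
noncomputable def Z (f : U →+* K) {N : ℕ} (x : Fin N → K) (par : ℕ → ℕ)
    (hpar : ∀ i, par (i + 1) ≤ i) (k : ℕ) (h : ℕ → U[X]) : K :=
  ∑ κ : Fin (k + 1) → Fin N, (∏ i : Fin (k + 1), (h i).eval₂ f (x (κ i))) *
    ∏ i : Fin k, if κ i.succ = κ ⟨par (i + 1), lt_of_le_of_lt (hpar i) (by omega)⟩ then 0 else 1

theorem eval_SU (f : U →+* K) {N : ℕ} (x : Fin N → K) (P : ℕ → U)
    (hP : ∀ j, 1 ≤ j → f (P j) = ∑ a, x a ^ j) (h : U[X]) (h0 : h.coeff 0 = 0) :
    f (SU P h) = ∑ a, h.eval₂ f (x a) := by
  unfold SU
  rw [Polynomial.sum_def, map_sum]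
  have h1 : ∀ a, h.eval₂ f (x a) = ∑ j ∈ h.support, f (h.coeff j) * x a ^ j := by
    intro a
    rw [eval₂_eq_sum, Polynomial.sum_def]
  simp only [h1]
  rw [Finset.sum_comm]
  apply Finset.sum_congr rfl
  intro j hj
  rw [map_mul, ← Finset.mul_sum, hP]
  by_contra hcon
  have : j = 0 := by omega
  subst this
  exact (mem_support_iff.1 hj) h0

theorem run_eq (f : U →+* K) {N : ℕ} (x : Fin N → K) (P : ℕ → U)
    (hP : ∀ j, 1 ≤ j → f (P j) = ∑ a, x a ^ j) (par : ℕ → ℕ) (hpar : ∀ i, par (i + 1) ≤ i)
    (k : ℕ) (h : ℕ → U[X]) (h0 : ∀ i, (h i).coeff 0 = 0) :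
    f (run P par k h) = Z f x par hpar k h := by
  induction k generalizing h with
  | zero =>
    unfold run Z
    rw [eval_SU f x P hP (h 0) (h0 0)]
    simp only [Finset.univ_eq_empty, Finset.prod_empty, mul_one]
    rw [Fintype.sum_equiv (Equiv.funUnique (Fin 1) (Fin N))
      (fun κ : Fin (0 + 1) → Fin N => ∏ i : Fin (0 + 1), (h i).eval₂ f (x (κ i)))
      (fun a => (h 0).eval₂ f (x a))]
    intro κ
    simp
  | succ k ih =>
    unfold run
    rw [ih]
    swap
    · intro i
      by_cases hip : i = par (k + 1)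
      · subst hip
        simp [mul_coeff_zero, h0]
      · simp [Function.update_of_ne hip, h0]
    unfold Z
    -- split off the last colour
    rw [← (Fin.snocEquiv (fun _ : Fin (k + 2) => Fin N)).sum_comp]
    rw [Fintype.sum_prod_type, Finset.sum_comm]
    apply Finset.sum_congr rfl
    intro κ _
    -- the parent of the last vertex
    set b : Fin N := κ ⟨par (k + 1), lt_of_le_of_lt (hpar k) (by omega)⟩ with hb
    have e1 : ∀ a : Fin N, (∏ i : Fin (k + 2), (h i).eval₂ f (x
        ((Fin.snocEquiv (fun _ : Fin (k + 2) => Fin N)) (a, κ) i))) =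
        (∏ i : Fin (k + 1), (h i).eval₂ f (x (κ i))) * (h (k + 1)).eval₂ f (x a) := by
      intro a
      rw [Fin.prod_univ_castSucc]
      congr 1
      · apply Finset.prod_congr rfl
        intro i _
        simp [Fin.snocEquiv]
      · simp [Fin.snocEquiv]
    have e2 : ∀ a : Fin N, (∏ i : Fin (k + 1), if
        (Fin.snocEquiv (fun _ : Fin (k + 2) => Fin N)) (a, κ) i.succ =
        (Fin.snocEquiv (fun _ : Fin (k + 2) => Fin N)) (a, κ)
          ⟨par (i + 1), lt_of_le_of_lt (hpar i) (by omega)⟩ then (0 : K) else 1) =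
        (∏ i : Fin k, if κ i.succ = κ ⟨par (i + 1), lt_of_le_of_lt (hpar i) (by omega)⟩
          then (0 : K) else 1) * (if a = b then 0 else 1) := by
      intro a
      rw [Fin.prod_univ_castSucc]
      congr 1
      · apply Finset.prod_congr rfl
        intro i _
        have h1 : (Fin.snocEquiv (fun _ : Fin (k + 2) => Fin N)) (a, κ) (Fin.castSucc i).succ =
            κ i.succ := by
          rw [Fin.succ_castSucc]
          simp only [Fin.snocEquiv, Equiv.coe_fn_mk, Fin.snoc_castSucc]
        have h2 : (Fin.snocEquiv (fun _ : Fin (k + 2) => Fin N)) (a, κ)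
            ⟨par (((Fin.castSucc i : Fin (k + 1)) : ℕ) + 1),
              lt_of_le_of_lt (hpar _) (by omega)⟩ =
            κ ⟨par (i + 1), lt_of_le_of_lt (hpar i) (by omega)⟩ := by
          have : (⟨par (((Fin.castSucc i : Fin (k + 1)) : ℕ) + 1),
              lt_of_le_of_lt (hpar _) (by omega)⟩ : Fin (k + 2)) =
              Fin.castSucc ⟨par (i + 1), lt_of_le_of_lt (hpar i) (by omega)⟩ := by
            apply Fin.ext
            simp
          rw [this]
          simp only [Fin.snocEquiv, Equiv.coe_fn_mk, Fin.snoc_castSucc]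
        rw [h1, h2]
      · have h1 : (Fin.snocEquiv (fun _ : Fin (k + 2) => Fin N)) (a, κ) (Fin.last k).succ = a := by
          rw [Fin.succ_last]
          simp only [Fin.snocEquiv, Equiv.coe_fn_mk, Fin.snoc_last]
        have h2 : (Fin.snocEquiv (fun _ : Fin (k + 2) => Fin N)) (a, κ)
            ⟨par (((Fin.last k : Fin (k + 1)) : ℕ) + 1),
              lt_of_le_of_lt (hpar _) (by omega)⟩ = b := by
          have : (⟨par (((Fin.last k : Fin (k + 1)) : ℕ) + 1),
              lt_of_le_of_lt (hpar _) (by omega)⟩ : Fin (k + 2)) =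
              Fin.castSucc ⟨par (k + 1), lt_of_le_of_lt (hpar k) (by omega)⟩ := by
            apply Fin.ext
            simp
          rw [this, hb]
          simp only [Fin.snocEquiv, Equiv.coe_fn_mk, Fin.snoc_castSucc]
        rw [h1, h2]
    simp only [e1, e2]
    have e3 : (∏ i : Fin (k + 1), (Function.update h (par (k + 1))
        (h (par (k + 1)) * (C (SU P (h (k + 1))) - h (k + 1))) i).eval₂ f (x (κ i))) =
        (∏ i : Fin (k + 1), (h i).eval₂ f (x (κ i))) *
          (C (SU P (h (k + 1))) - h (k + 1)).eval₂ f (x b) := by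
      set p : Fin (k + 1) := ⟨par (k + 1), lt_of_le_of_lt (hpar k) (by omega)⟩ with hp
      rw [← Finset.mul_prod_erase _ _ (Finset.mem_univ p),
        ← Finset.mul_prod_erase (Finset.univ) (fun i : Fin (k + 1) => (h i).eval₂ f (x (κ i)))
          (Finset.mem_univ p)]
      have hpv : (p : ℕ) = par (k + 1) := rfl
      rw [hpv, Function.update_self, eval₂_mul]
      have : ∀ i ∈ Finset.univ.erase p, (Function.update h (par (k + 1))
          (h (par (k + 1)) * (C (SU P (h (k + 1))) - h (k + 1))) (i : ℕ)).eval₂ f (x (κ i)) =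
          (h i).eval₂ f (x (κ i)) := by
        intro i hi
        rw [Function.update_of_ne]
        intro h
        exact (Finset.mem_erase.1 hi).1 (Fin.ext h)
      rw [Finset.prod_congr rfl this, ← hb]
      ring
    rw [e3]
    have e4 : (C (SU P (h (k + 1))) - h (k + 1)).eval₂ f (x b) =
        ∑ a, (h (k + 1)).eval₂ f (x a) * (if a = b then 0 else 1) := by
      rw [eval₂_sub, eval₂_C, eval_SU f x P hP _ (h0 _)]
      have : ∀ a, (h (k + 1)).eval₂ f (x a) * (if a = b then (0 : K) else 1) =
          (h (k + 1)).eval₂ f (x a) - (if a = b then (h (k + 1)).eval₂ f (x a) else 0) := by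
        intro a
        by_cases hab : a = b <;> simp [hab]
      simp only [this]
      rw [Finset.sum_sub_distrib, Finset.sum_ite_eq' Finset.univ b]
      simp
    rw [e4, Finset.mul_sum, Finset.sum_mul]
    apply Finset.sum_congr rfl
    intro a _
    ring

end Pool.Agent.X75.CSF
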