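import Pool.Agent.X75.CSF

/-!
The elementary expansion of the chromatic symmetric function of a tree given by a parent function,
and the extraction of one coefficient by means of dual numbers.
-/

set_option autoImplicit false

namespace Pool.Agent.X75.CSF

open MvPolynomial

/-- the ring of polynomials in `e 1, e 2, …` -/
abbrev UU : Type := MvPolynomial ℕ ℚ

/-- `e k` -/
noncomputable def E : ℕ → UU
  | 0 => 1
  | i + 1 => X i

/-- the power sums as polynomials in the `e k` (Newton's identities) -/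
noncomputable def PU (k : ℕ) : UU :=
  (-1) ^ (k + 1) * k * E k -
    ∑ i : Fin (k - 1), (-1) ^ ((i : ℕ) + 1) * E (i + 1) * PU (k - 1 - i)
termination_by k
decreasing_by omega

/-- evaluation at the elementary symmetric polynomials in `N` variables -/
noncomputable def ev (N : ℕ) : UU →ₐ[ℚ] MvPolynomial (Fin N) ℚ :=
  aeval fun i => esymm (Fin N) ℚ (i + 1)

theorem ev_E (N k : ℕ) : ev N (E k) = esymm (Fin N) ℚ k := by
  cases k with
  | zero => simp [E]
  | succ k => simp [E, ev]

/-- Newton's identities with a sum over a range -/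
theorem newton {S : Type*} [CommRing S] (e p : ℕ → S) (k : ℕ) (hk : 0 < k) :
    (∑ a ∈ (Finset.HasAntidiagonal.antidiagonal k).filter (fun a : ℕ × ℕ => a.1 ∈ Set.Ioo 0 k),
      (-1) ^ a.1 * e a.1 * p a.2) =
      ∑ i : Fin (k - 1), (-1) ^ ((i : ℕ) + 1) * e (i + 1) * p (k - 1 - i) := by
  rw [Finset.sum_filter]
  rw [Finset.Nat.sum_antidiagonal_eq_sum_range_succ
    (fun i j => if (i, j).1 ∈ Set.Ioo 0 k then (-1) ^ (i, j).1 * e (i, j).1 * p (i, j).2 else 0) k]
  obtain ⟨m, rfl⟩ : ∃ m, k = m + 1 := ⟨k - 1, by omega⟩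
  rw [Finset.sum_range_succ, Finset.sum_range_succ']
  simp only [Set.mem_Ioo, lt_self_iff_false, and_false, false_and, if_false, add_zero]
  rw [Finset.sum_fin_eq_sum_range]
  simp only [Nat.add_sub_cancel]
  apply Finset.sum_congr rfl
  intro i hi
  have hi' := Finset.mem_range.1 hi
  rw [if_pos ⟨by omega, by omega⟩, dif_pos hi']
  congr 2
  omega

theorem ev_PU (N k : ℕ) (hk : 1 ≤ k) : ev N (PU k) = psum (Fin N) ℚ k := by
  induction k using Nat.strong_induction_on with
  | _ k ih =>
    rw [psum_eq_mul_esymm_sub_sum (Fin N) ℚ k hk,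
      newton (fun i => esymm (Fin N) ℚ i) (fun i => psum (Fin N) ℚ i) k hk, PU]
    rw [map_sub, map_mul, map_mul, ev_E, map_sum]
    congr 1
    · simp
    · apply Finset.sum_congr rfl
      intro i _
      rw [map_mul, map_mul, ev_E, ih _ (by omega) (by omega)]
      simp

/-- `i` and `j` are joined when one of them is the parent of the other -/
def treeOf (par : ℕ → ℕ) (n : ℕ) : SimpleGraph (Fin n) where
  Adj i j := i ≠ j ∧ ((1 ≤ (j : ℕ) ∧ (i : ℕ) = par j) ∨ (1 ≤ (i : ℕ) ∧ (j : ℕ) = par i))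
  symm := ⟨fun _ _ h => ⟨h.1.symm, h.2.symm⟩⟩
  loopless := ⟨fun _ h => h.1 rfl⟩

open Classical in
/-- the chromatic symmetric function in `N` variables -/
noncomputable def chromSym {V : Type} [Fintype V] (G : SimpleGraph V) (N : ℕ) :
    MvPolynomial (Fin N) ℚ :=
  ∑ κ ∈ (Finset.univ : Finset (V → Fin N)).filter (fun κ => ∀ u v, G.Adj u v → κ u ≠ κ v),
    ∏ v, X (κ v)

theorem chromSym_eq (par : ℕ → ℕ) (hpar : ∀ i, par (i + 1) ≤ i) (k N : ℕ) :
    chromSym (treeOf par (k + 1)) N =
      ev N (run PU par k (fun _ => Polynomial.X)) := by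
  classical
  have h1 := run_eq ((ev N : UU →ₐ[ℚ] MvPolynomial (Fin N) ℚ) : UU →+* MvPolynomial (Fin N) ℚ)
    (fun a : Fin N => (X a : MvPolynomial (Fin N) ℚ)) PU (fun j hj => by
      have := ev_PU N j hj
      rw [psum] at this
      exact this) par hpar k (fun _ => Polynomial.X) (fun i => by simp)
  have h2 : ev N (run PU par k (fun _ => Polynomial.X)) =
      ((ev N : UU →ₐ[ℚ] MvPolynomial (Fin N) ℚ) : UU →+* MvPolynomial (Fin N) ℚ)
        (run PU par k (fun _ => Polynomial.X)) := rfl
  rw [h2, h1]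
  unfold chromSym Z
  rw [Finset.sum_filter]
  refine Finset.sum_congr (by ext; simp) ?_
  intro κ _
  simp only [Polynomial.eval₂_X]
  by_cases hκ : ∀ u v, (treeOf par (k + 1)).Adj u v → κ u ≠ κ v
  · have hone : (∏ i : Fin k, if κ i.succ = κ ⟨par (i + 1), lt_of_le_of_lt (hpar i) (by omega)⟩
        then (0 : MvPolynomial (Fin N) ℚ) else 1) = 1 := by
      apply Finset.prod_eq_one
      intro i _
      rw [if_neg]
      refine hκ _ _ ⟨?_, Or.inr ⟨by simp, by simp⟩⟩
      intro h
      have := congrArg Fin.val h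
      simp only [Fin.val_succ] at this
      have := hpar i
      omega
    rw [if_pos hκ, hone, mul_one]
  · rw [if_neg hκ]
    push Not at hκ
    obtain ⟨u, v, ⟨hne, huv⟩, heq⟩ := hκ
    -- an edge with equal colours
    have key : ∀ i : Fin (k + 1), ∀ j : Fin (k + 1), 1 ≤ (i : ℕ) → (j : ℕ) = par i → κ i = κ j →
        (∏ i : Fin k, if κ i.succ = κ ⟨par (i + 1), lt_of_le_of_lt (hpar i) (by omega)⟩
          then (0 : MvPolynomial (Fin N) ℚ) else 1) = 0 := by
      intro i j hi hj hij
      have hik : (i : ℕ) - 1 < k := by omega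
      apply Finset.prod_eq_zero (Finset.mem_univ (⟨(i : ℕ) - 1, hik⟩ : Fin k))
      rw [if_pos]
      have e1 : (⟨(i : ℕ) - 1, hik⟩ : Fin k).succ = i := by
        apply Fin.ext
        simp only [Fin.val_succ]
        omega
      have e2 : (⟨par ((⟨(i : ℕ) - 1, hik⟩ : Fin k) + 1),
          lt_of_le_of_lt (hpar _) (by omega)⟩ : Fin (k + 1)) = j := by
        apply Fin.ext
        simp only
        rw [hj]
        congr 1
        omega
      rw [e1, e2, hij]
    rcases huv with ⟨h1, h2⟩ | ⟨h1, h2⟩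
    · rw [key v u h1 h2 heq.symm, mul_zero]
    · rw [key u v h1 h2 heq, mul_zero]

end Pool.Agent.X75.CSF
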