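import Pool.Agent.X75.CSF2

/-!
Extraction of the coefficient of `e 3 * e 2 ^ a` by means of dual numbers.
-/

set_option autoImplicit false

namespace Pool.Agent.X75.CSF

open MvPolynomial

/-- `e 2 ↦ 1`, `e 3 ↦ ε`, all other `e k ↦ 0` -/
noncomputable def val (i : ℕ) : DualNumber ℚ := if i = 1 then 1 else if i = 2 then DualNumber.eps else 0

/-- the specialization of the universal ring -/
noncomputable def phi : UU →ₐ[ℚ] DualNumber ℚ := aeval val

/-- the universal ring maps to the symmetric polynomials -/
noncomputable def gS (N : ℕ) : UU →ₐ[ℚ] symmetricSubalgebra (Fin N) ℚ :=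
  aeval fun i => ⟨esymm (Fin N) ℚ (i + 1), esymm_isSymmetric _ _ _⟩

theorem gS_val (N : ℕ) (q : UU) : ((gS N q : symmetricSubalgebra (Fin N) ℚ) :
    MvPolynomial (Fin N) ℚ) = ev N q := by
  have : (symmetricSubalgebra (Fin N) ℚ).val.comp (gS N) = ev N := by
    apply MvPolynomial.algHom_ext
    intro i
    simp [gS, ev]
  exact DFunLike.congr_fun this q

/-- the specialization of the symmetric polynomials -/
noncomputable def theta (N : ℕ) : symmetricSubalgebra (Fin N) ℚ →ₐ[ℚ] DualNumber ℚ :=
  (aeval fun i : Fin N => val i).comp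
    ((esymmAlgEquiv (Fin N) ℚ (Fintype.card_fin N)).symm : _ →ₐ[ℚ] MvPolynomial (Fin N) ℚ)

theorem theta_gS (N : ℕ) (hN : 3 ≤ N) (q : UU) : theta N (gS N q) = phi q := by
  have : (theta N).comp (gS N) = phi := by
    apply MvPolynomial.algHom_ext
    intro i
    by_cases hi : i < N
    · have h1 : gS N (X i) = ⟨esymm (Fin N) ℚ (((⟨i, hi⟩ : Fin N) : ℕ) + 1),
          esymm_isSymmetric _ _ _⟩ := by
        simp [gS]
      rw [AlgHom.comp_apply, h1]
      have h2 := esymmAlgEquiv_symm_apply (σ := Fin N) (R := ℚ) (Fintype.card_fin N) ⟨i, hi⟩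
      unfold theta
      rw [AlgHom.comp_apply]
      have h3 : ((esymmAlgEquiv (Fin N) ℚ (Fintype.card_fin N)).symm :
          symmetricSubalgebra (Fin N) ℚ →ₐ[ℚ] MvPolynomial (Fin N) ℚ)
          (⟨esymm (Fin N) ℚ (((⟨i, hi⟩ : Fin N) : ℕ) + 1),
          esymm_isSymmetric _ _ _⟩ : symmetricSubalgebra (Fin N) ℚ) = X ⟨i, hi⟩ := h2
      rw [h3]
      simp [phi]
    · have h1 : gS N (X i) = 0 := by
        apply Subtype.ext
        rw [gS_val]
        simp only [ev, aeval_X, ZeroMemClass.coe_zero]
        unfold esymm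
        rw [Finset.powersetCard_eq_empty.2, Finset.sum_empty]
        rw [Finset.card_univ, Fintype.card_fin]
        omega
      rw [AlgHom.comp_apply, h1, map_zero]
      simp only [phi, aeval_X, val]
      rw [if_neg (by omega), if_neg (by omega)]
  exact DFunLike.congr_fun this q

/-- monomials of partitions in the universal ring -/
noncomputable def mono {n : ℕ} (μ : n.Partition) : UU := (μ.parts.map E).prod

theorem ev_mono {n : ℕ} (μ : n.Partition) (N : ℕ) : ev N (mono μ) = esymmPart (Fin N) ℚ μ := by
  unfold mono esymmPart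
  rw [map_multiset_prod, Multiset.map_map]
  congr 1
  apply Multiset.map_congr rfl
  intro k _
  exact ev_E N k

theorem phi_E (k : ℕ) : phi (E k) = if k = 0 then 1 else if k = 2 then 1 else if k = 3 then
    DualNumber.eps else 0 := by
  cases k with
  | zero => simp [E]
  | succ k =>
    simp only [E, phi, aeval_X, val]
    rcases k with _ | _ | _ | k <;> simp

/-- the value of a coefficient from an expansion -/
theorem coeff_of_expansion {n : ℕ} (Q : UU) (c : n.Partition → ℚ) (N : ℕ) (hN : 3 ≤ N)
    (h : ev N Q = ∑ μ, c μ • esymmPart (Fin N) ℚ μ) :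
    phi Q = ∑ μ, c μ • (μ.parts.map fun k => phi (E k)).prod := by
  have h1 : gS N Q = gS N (∑ μ, c μ • mono μ) := by
    apply Subtype.ext
    rw [gS_val, gS_val, h, map_sum]
    apply Finset.sum_congr rfl
    intro μ _
    rw [map_smul, ev_mono]
  have h2 := congrArg (theta N) h1
  rw [theta_gS N hN, theta_gS N hN] at h2
  rw [h2, map_sum]
  apply Finset.sum_congr rfl
  intro μ _
  rw [map_smul]
  congr 1
  unfold mono
  rw [map_multiset_prod, Multiset.map_map]
  rfl

/-! ### Existence of the expansion -/

theorem esymm_hom (N k : ℕ) : (esymm (Fin N) ℚ k).IsHomogeneous k := by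
  unfold esymm
  apply IsHomogeneous.sum
  intro t ht
  have h := IsHomogeneous.prod t (fun i : Fin N => (X i : MvPolynomial (Fin N) ℚ)) (fun _ => 1)
    (fun i _ => isHomogeneous_X ℚ i)
  rw [Finset.sum_const, smul_eq_mul, mul_one, (Finset.mem_powersetCard.1 ht).2] at h
  exact h

theorem prod_hom (N : ℕ) (s : Multiset ℕ) :
    ((s.map fun i => esymm (Fin N) ℚ (i + 1)).prod).IsHomogeneous (s.map (· + 1)).sum := by
  induction s using Multiset.induction_on with
  | empty => simpa using isHomogeneous_one (Fin N) ℚ
  | cons a s ih =>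
    rw [Multiset.map_cons, Multiset.prod_cons, Multiset.map_cons, Multiset.sum_cons]
    exact (esymm_hom N (a + 1)).mul ih

theorem monomial_multiset (s : Multiset ℕ) :
    (monomial (Multiset.toFinsupp s) (1 : ℚ) : UU) = (s.map X).prod := by
  induction s using Multiset.induction_on with
  | empty => simp
  | cons a s ih =>
    rw [Multiset.map_cons, Multiset.prod_cons, ← ih, ← Multiset.singleton_add,
      Multiset.toFinsupp_add, Multiset.toFinsupp_singleton, X, monomial_mul, one_mul]

/-- the indices of the variables of a partition -/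
def idx {n : ℕ} (μ : n.Partition) : Multiset ℕ := μ.parts.map fun k => k - 1

theorem idx_succ {n : ℕ} (μ : n.Partition) : (idx μ).map (· + 1) = μ.parts := by
  unfold idx
  rw [Multiset.map_map]
  conv_rhs => rw [← Multiset.map_id μ.parts]
  apply Multiset.map_congr rfl
  intro k hk
  have := μ.parts_pos hk
  simp only [Function.comp_apply, id]
  omega

theorem mono_eq {n : ℕ} (μ : n.Partition) :
    mono μ = monomial (Multiset.toFinsupp (idx μ)) (1 : ℚ) := by
  rw [monomial_multiset]
  unfold mono
  rw [← idx_succ μ, Multiset.map_map]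
  rfl

open Classical in
/-- A polynomial in the `e k` whose values in all numbers of variables are homogeneous of degree `n`
gives an expansion. -/
theorem expansion_exists (n : ℕ) (Q : UU) :
    ∃ c : n.Partition → ℚ, ∀ N, (ev N Q).IsHomogeneous n →
      ev N Q = ∑ μ, c μ • esymmPart (Fin N) ℚ μ := by
  refine ⟨fun μ => coeff (Multiset.toFinsupp (idx μ)) Q, ?_⟩
  intro N hN
  -- expansion into monomials
  have h1 : ev N Q = ∑ m ∈ Q.support, coeff m Q •
      ((Finsupp.toMultiset m).map fun i => esymm (Fin N) ℚ (i + 1)).prod := by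
    conv_lhs => rw [Q.as_sum, map_sum]
    apply Finset.sum_congr rfl
    intro m _
    have h2 : (monomial m (coeff m Q) : UU) = coeff m Q • monomial m 1 := by
      rw [smul_monomial, smul_eq_mul, mul_one]
    rw [h2, map_smul]
    congr 1
    have h3 := monomial_multiset (Finsupp.toMultiset m)
    rw [Finsupp.toMultiset_toFinsupp] at h3
    rw [h3, map_multiset_prod, Multiset.map_map]
    congr 1
    apply Multiset.map_congr rfl
    intro i _
    simp [ev]
  -- homogeneous component
  have h2 : ev N Q = ∑ m ∈ Q.support.filter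
      (fun m => ((Finsupp.toMultiset m).map (· + 1)).sum = n), coeff m Q •
      ((Finsupp.toMultiset m).map fun i => esymm (Fin N) ℚ (i + 1)).prod := by
    have h3 := homogeneousComponent_of_mem (m := n) hN
    rw [if_pos rfl] at h3
    rw [← h3, h1, map_sum, Finset.sum_filter]
    apply Finset.sum_congr rfl
    intro m _
    rw [map_smul, homogeneousComponent_of_mem (m := n) (prod_hom N (Finsupp.toMultiset m))]
    by_cases hm : ((Finsupp.toMultiset m).map (· + 1)).sum = n
    · rw [if_pos hm.symm, if_pos hm]
    · rw [if_neg (fun h => hm h.symm), if_neg hm, smul_zero]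
  rw [h2]
  have hinj : Function.Injective (fun μ : n.Partition => Multiset.toFinsupp (idx μ)) := by
    intro μ ν h
    have h4 : idx μ = idx ν := Multiset.toFinsupp.injective h
    apply Nat.Partition.ext
    rw [← idx_succ μ, ← idx_succ ν, h4]
  have h5 : ∑ μ : n.Partition, coeff (Multiset.toFinsupp (idx μ)) Q • esymmPart (Fin N) ℚ μ =
      ∑ m ∈ (Finset.univ : Finset n.Partition).image (fun μ => Multiset.toFinsupp (idx μ)),
        coeff m Q • ((Finsupp.toMultiset m).map fun i => esymm (Fin N) ℚ (i + 1)).prod := by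
    rw [Finset.sum_image (fun μ _ ν _ h => hinj h)]
    apply Finset.sum_congr rfl
    intro μ _
    congr 1
    rw [Multiset.toFinsupp_toMultiset]
    unfold esymmPart
    conv_lhs => rw [← idx_succ μ, Multiset.map_map]
    rfl
  rw [h5]
  apply Finset.sum_subset
  · intro m hm
    obtain ⟨_, hm2⟩ := Finset.mem_filter.1 hm
    rw [Finset.mem_image]
    refine ⟨⟨(Finsupp.toMultiset m).map (· + 1), ?_, hm2⟩, Finset.mem_univ _, ?_⟩
    · intro i hi
      obtain ⟨j, _, rfl⟩ := Multiset.mem_map.1 hi
      omega
    · have : idx (⟨(Finsupp.toMultiset m).map (· + 1), by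
          intro i hi
          obtain ⟨j, _, rfl⟩ := Multiset.mem_map.1 hi
          omega, hm2⟩ : n.Partition) = Finsupp.toMultiset m := by
        unfold idx
        simp
      rw [this, Finsupp.toMultiset_toFinsupp]
  · intro m hm hm'
    by_cases hs : m ∈ Q.support
    · exfalso
      apply hm'
      rw [Finset.mem_filter]
      refine ⟨hs, ?_⟩
      obtain ⟨μ, _, rfl⟩ := Finset.mem_image.1 hm
      rw [Multiset.toFinsupp_toMultiset, idx_succ, μ.parts_sum]
    · rw [notMem_support_iff.1 hs, zero_smul]

theorem chromSym_hom {V : Type} [Fintype V] (G : SimpleGraph V) (N : ℕ) :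
    (chromSym G N).IsHomogeneous (Fintype.card V) := by
  unfold chromSym
  apply IsHomogeneous.sum
  intro κ _
  have h := IsHomogeneous.prod Finset.univ (fun v : V => (X (κ v) : MvPolynomial (Fin N) ℚ))
    (fun _ => 1) (fun v _ => isHomogeneous_X ℚ (κ v))
  rw [Finset.sum_const, smul_eq_mul, mul_one, Finset.card_univ] at h
  exact h

end Pool.Agent.X75.CSF
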