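import Pool.Agent.X75.CSF3

/-!
Evaluation of the elimination recursion in dual numbers by a list computation.
-/

set_option autoImplicit false

namespace Pool.Agent.X75.CSF

open Polynomial

/-! ### Computable dual numbers and polynomials -/

/-- product of dual numbers -/
def dm (x y : ℤ × ℤ) : ℤ × ℤ := (x.1 * y.1, x.1 * y.2 + x.2 * y.1)

/-- sum of dual numbers -/
def da (x y : ℤ × ℤ) : ℤ × ℤ := (x.1 + y.1, x.2 + y.2)

/-- the dual number of a pair -/
noncomputable def toD (x : ℤ × ℤ) : DualNumber ℚ :=
  TrivSqZeroExt.inl (x.1 : ℚ) + TrivSqZeroExt.inr (x.2 : ℚ)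

theorem toD_dm (x y : ℤ × ℤ) : toD (dm x y) = toD x * toD y := by
  unfold toD dm
  ext
  · simp
  · simp

theorem toD_da (x y : ℤ × ℤ) : toD (da x y) = toD x + toD y := by
  unfold toD da
  ext
  · simp
  · simp

/-- the power sums -/
def pv : ℕ → ℤ × ℤ
  | 0 => (0, 0)
  | 1 => (0, 0)
  | 2 => (-2, 0)
  | 3 => (0, 3)
  | k + 4 => da (dm (-1, 0) (pv (k + 2))) (dm (0, 1) (pv (k + 1)))

theorem toD_one : toD (1, 0) = 1 := by
  unfold toD
  ext <;> simp

theorem toD_eps : toD (0, 1) = DualNumber.eps := by
  unfold toD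
  ext <;> simp

theorem phi_PU (k : ℕ) : phi (PU k) = toD (pv k) := by
  induction k using Nat.strong_induction_on with
  | _ k ih =>
    rw [PU, map_sub, map_sum, map_mul, map_mul, phi_E]
    rcases k with _ | _ | _ | _ | k
    · simp [pv, toD]
    · simp [pv, toD]
    · have h1 : phi (PU 1) = 0 := by
        rw [ih 1 (by omega)]
        simp [pv, toD]
      have h2 : phi (2 : UU) = TrivSqZeroExt.inl 2 := by
        rw [map_ofNat phi 2]
        rfl
      simp [pv, phi_E, Fin.sum_univ_succ, h1, h2]
      rw [toD]
      ext <;> norm_num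
    · have h1 : phi (PU 1) = 0 := by
        rw [ih 1 (by omega)]
        simp [pv, toD]
      have h2 : phi (3 : UU) = TrivSqZeroExt.inl 3 := by
        rw [map_ofNat phi 3]
        rfl
      simp [pv, phi_E, Fin.sum_univ_succ, h1, h2]
      rw [toD]
      ext <;> norm_num
    · have h1 : ∀ i : Fin (k + 4 - 1), phi ((-1) ^ ((i : ℕ) + 1) * E ((i : ℕ) + 1) *
          PU (k + 4 - 1 - i)) = (-1) ^ ((i : ℕ) + 1) * phi (E ((i : ℕ) + 1)) *
          phi (PU (k + 4 - 1 - i)) := by
        intro i
        simp
      rw [if_neg (by omega), if_neg (by omega), if_neg (by omega), mul_zero, zero_sub]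
      simp only [h1, phi_E]
      have h2 : (∑ i : Fin (k + 4 - 1), (-1) ^ ((i : ℕ) + 1) *
          (if (i : ℕ) + 1 = 0 then (1 : DualNumber ℚ) else if (i : ℕ) + 1 = 2 then 1 else
            if (i : ℕ) + 1 = 3 then DualNumber.eps else 0) * phi (PU (k + 4 - 1 - i))) =
          phi (PU (k + 2)) - DualNumber.eps * phi (PU (k + 1)) := by
        have h3 : k + 4 - 1 = k + 3 := by omega
        rw [Finset.sum_fin_eq_sum_range]
        rw [h3, Finset.sum_range_succ', Finset.sum_range_succ', Finset.sum_range_succ']
        rw [Finset.sum_eq_zero]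
        · simp
          ring
        · intro i hi
          have := Finset.mem_range.1 hi
          rw [dif_pos (by omega)]
          simp
      rw [h2, ih (k + 2) (by omega), ih (k + 1) (by omega), pv, toD_da, toD_dm, toD_dm, toD_eps]
      have h4 : toD (-1, 0) = -1 := by
        unfold toD
        ext <;> simp
      rw [h4]
      ring

/-- sums of lists -/
def ladd : List (ℤ × ℤ) → List (ℤ × ℤ) → List (ℤ × ℤ)
  | [], m => m
  | l, [] => l
  | a :: l, b :: m => da a b :: ladd l m

/-- products of lists -/
def lmul : List (ℤ × ℤ) → List (ℤ × ℤ) → List (ℤ × ℤ)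
  | [], _ => []
  | a :: l, m => ladd (m.map (dm a)) ((0, 0) :: lmul l m)

/-- the polynomial of a list -/
noncomputable def toP : List (ℤ × ℤ) → (DualNumber ℚ)[X]
  | [] => 0
  | a :: l => C (toD a) + X * toP l

theorem toP_ladd (l m : List (ℤ × ℤ)) : toP (ladd l m) = toP l + toP m := by
  induction l generalizing m with
  | nil => simp [ladd, toP]
  | cons a l ih =>
    cases m with
    | nil => simp [ladd, toP]
    | cons b m =>
      simp only [ladd, toP, ih, toD_da, C_add]
      ring

theorem toP_scale (a : ℤ × ℤ) (m : List (ℤ × ℤ)) : toP (m.map (dm a)) = C (toD a) * toP m := by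
  induction m with
  | nil => simp [toP]
  | cons b m ih =>
    simp only [List.map_cons, toP, ih, toD_dm, C_mul]
    ring

theorem toP_lmul (l m : List (ℤ × ℤ)) : toP (lmul l m) = toP l * toP m := by
  induction l with
  | nil => simp [lmul, toP]
  | cons a l ih =>
    have h0 : toD (0, 0) = 0 := by
      unfold toD
      ext <;> simp
    simp only [lmul, toP_ladd, toP_scale, toP, ih, h0, C_0]
    ring

/-- replace powers by power sums -/
def sl : ℕ → List (ℤ × ℤ) → ℤ × ℤ
  | _, [] => (0, 0)
  | j, a :: l => da (dm a (pv j)) (sl (j + 1) l)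

variable {U : Type*} [CommRing U]

theorem SU_add (P : ℕ → U) (g h : U[X]) : SU P (g + h) = SU P g + SU P h := by
  unfold SU
  exact Polynomial.sum_add_index g h _ (by simp) (by intros; ring)

theorem SU_monomial (P : ℕ → U) (j : ℕ) (c : U) : SU P (monomial j c) = c * P j := by
  unfold SU
  exact Polynomial.sum_monomial_index c _ (by simp)

theorem SU_X_mul (P : ℕ → U) (h : U[X]) : SU P (X * h) = SU (fun j => P (j + 1)) h := by
  induction h using Polynomial.induction_on' with
  | add p q hp hq => rw [mul_add, SU_add, SU_add, hp, hq]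
  | monomial n a => rw [X_mul_monomial, SU_monomial, SU_monomial]

theorem SU_C (P : ℕ → U) (c : U) : SU P (C c) = c * P 0 := SU_monomial P 0 c

theorem SU_toP (j : ℕ) (l : List (ℤ × ℤ)) :
    SU (fun i => toD (pv (i + j))) (toP l) = toD (sl j l) := by
  induction l generalizing j with
  | nil =>
    simp only [toP, sl]
    have h0 : toD (0, 0) = 0 := by
      unfold toD
      ext <;> simp
    rw [h0]
    unfold SU
    exact Polynomial.sum_zero_index _
  | cons a l ih =>
    simp only [toP, sl]
    rw [SU_add, SU_C, SU_X_mul, toD_da, toD_dm]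
    congr 1
    · simp
    · rw [← ih (j + 1)]
      congr 1
      funext i
      congr 2
      omega

/-- the factor that is passed to the parent -/
def fac (l : List (ℤ × ℤ)) : List (ℤ × ℤ) := ladd [sl 0 l] (l.map (dm (-1, 0)))

theorem toP_fac (l : List (ℤ × ℤ)) :
    toP (fac l) = C (SU (fun i => toD (pv i)) (toP l)) - toP l := by
  unfold fac
  rw [toP_ladd, toP_scale]
  have h1 := SU_toP 0 l
  simp only [Nat.add_zero] at h1
  have h2 : toD (-1, 0) = -1 := by
    unfold toD
    ext <;> simp
  rw [h1, h2]
  simp [toP]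
  ring

/-- the elimination recursion with lists -/
def runL (par : ℕ → ℕ) : ℕ → (ℕ → List (ℤ × ℤ)) → ℤ × ℤ
  | 0, h => sl 0 (h 0)
  | k + 1, h => runL par k (Function.update h (par (k + 1))
      (lmul (h (par (k + 1))) (fac (h (k + 1)))))

theorem run_toP (par : ℕ → ℕ) (k : ℕ) (h : ℕ → List (ℤ × ℤ)) :
    run (fun i => toD (pv i)) par k (fun i => toP (h i)) = toD (runL par k h) := by
  induction k generalizing h with
  | zero =>
    unfold run runL
    have h1 := SU_toP 0 (h 0)
    simpa using h1
  | succ k ih =>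
    unfold run runL
    rw [← ih]
    congr 1
    funext i
    by_cases hip : i = par (k + 1)
    · subst hip
      rw [Function.update_self, Function.update_self, toP_lmul, toP_fac]
    · rw [Function.update_of_ne hip, Function.update_of_ne hip]

theorem phi_run (par : ℕ → ℕ) (k : ℕ) :
    phi (run PU par k (fun _ => X)) = toD (runL par k (fun _ => [(0, 0), (1, 0)])) := by
  rw [← run_toP]
  have h1 := run_map ((phi : UU →ₐ[ℚ] DualNumber ℚ) : UU →+* DualNumber ℚ) PU par k (fun _ => X)
  have h2 : phi (run PU par k (fun _ => X)) =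
      ((phi : UU →ₐ[ℚ] DualNumber ℚ) : UU →+* DualNumber ℚ) (run PU par k (fun _ => X)) := rfl
  rw [h2, h1]
  congr 1
  · funext j
    exact phi_PU j
  · funext i
    have h0 : toD (0, 0) = 0 := by
      unfold toD
      ext <;> simp
    simp [toP, h0, toD_one]

end Pool.Agent.X75.CSF
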