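import Pool.Agent.X75.CSF2

/-!
Connected partitions of a tree given by a parent function.
-/

set_option autoImplicit false

namespace Pool.Agent.X75.CSF

/-- the root of the component of `i` when the edges above the marked vertices are removed -/
def rt (par : ℕ → ℕ) (b : ℕ → Bool) (i : ℕ) : ℕ :=
  if _h : i = 0 ∨ b i = true ∨ i ≤ par i then i else rt par b (par i)
termination_by i
decreasing_by omega

section

variable {par : ℕ → ℕ} (hpar : ∀ i, par (i + 1) ≤ i) {b : ℕ → Bool}

theorem rt_zero : rt par b 0 = 0 := by
  rw [rt]
  simp

theorem rt_of_b {i : ℕ} (h : b i = true) : rt par b i = i := by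
  rw [rt]
  simp [h]

include hpar in
theorem rt_of_not {i : ℕ} (h : b (i + 1) = false) : rt par b (i + 1) = rt par b (par (i + 1)) := by
  have := hpar i
  rw [rt, dif_neg]
  simp [h]
  omega

theorem rt_le (i : ℕ) : rt par b i ≤ i := by
  induction i using Nat.strong_induction_on with
  | _ i ih =>
    rw [rt]
    split_ifs with h
    · exact le_rfl
    · push Not at h
      exact (ih _ h.2.2).trans h.2.2.le

theorem rt_rt (i : ℕ) : rt par b (rt par b i) = rt par b i := by
  induction i using Nat.strong_induction_on with
  | _ i ih =>
    by_cases h : i = 0 ∨ b i = true ∨ i ≤ par i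
    · have h1 : rt par b i = i := by
        rw [rt, dif_pos h]
      rw [h1, h1]
    · have h1 : rt par b i = rt par b (par i) := by
        conv_lhs => rw [rt, dif_neg h]
      push Not at h
      rw [h1, ih _ h.2.2]

/-- the sizes of the components -/
def outL (par : ℕ → ℕ) (b : ℕ → Bool) : ℕ → (ℕ → ℕ) → List ℕ
  | 0, w => [w 0]
  | k + 1, w => if b (k + 1) then w (k + 1) :: outL par b k w else
      outL par b k (Function.update w (par (k + 1)) (w (par (k + 1)) + w (k + 1)))

include hpar in
theorem outL_eq (k : ℕ) (w : ℕ → ℕ) :
    (outL par b k w : Multiset ℕ) =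
      ((Finset.range (k + 1)).filter (fun r => rt par b r = r)).val.map
        (fun r => ∑ i ∈ (Finset.range (k + 1)).filter (fun i => rt par b i = r), w i) := by
  induction k generalizing w with
  | zero =>
    have h1 : (Finset.range (0 + 1)).filter (fun r => rt par b r = r) = {0} := by
      ext r
      simp only [Finset.mem_filter, Finset.mem_range, Finset.mem_singleton]
      constructor
      · intro h
        omega
      · intro h
        subst h
        exact ⟨by omega, rt_zero⟩
    have h2 : (Finset.range (0 + 1)).filter (fun r => rt par b r = 0) = {0} := by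
      ext r
      simp only [Finset.mem_filter, Finset.mem_range, Finset.mem_singleton]
      constructor
      · intro h
        omega
      · intro h
        subst h
        exact ⟨by omega, rt_zero⟩
    rw [h1, Finset.singleton_val, Multiset.map_singleton, h2, Finset.sum_singleton]
    rfl
  | succ k ih =>
    rw [outL]
    by_cases hb : b (k + 1) = true
    · rw [if_pos hb]
      have h1 : (Finset.range (k + 1 + 1)).filter (fun r => rt par b r = r) =
          insert (k + 1) ((Finset.range (k + 1)).filter (fun r => rt par b r = r)) := by
        rw [Finset.range_add_one (n := k + 1), Finset.filter_insert, if_pos (rt_of_b hb)]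
      have hnot : k + 1 ∉ (Finset.range (k + 1)).filter (fun r => rt par b r = r) := by
        simp
      rw [h1, Finset.insert_val_of_notMem hnot, Multiset.map_cons, ← Multiset.cons_coe, ih]
      congr 1
      · have h2 : (Finset.range (k + 1 + 1)).filter (fun r => rt par b r = k + 1) = {k + 1} := by
          ext r
          simp only [Finset.mem_filter, Finset.mem_range, Finset.mem_singleton]
          constructor
          · intro h
            have := rt_le (par := par) (b := b) r
            omega
          · intro h
            subst h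
            exact ⟨by omega, rt_of_b hb⟩
        rw [h2, Finset.sum_singleton]
      · apply Multiset.map_congr rfl
        intro r hr
        have hr' : r < k + 1 := by
          have hr1 : r ∈ (Finset.range (k + 1)).filter (fun r => rt par b r = r) := hr
          exact Finset.mem_range.1 (Finset.mem_filter.1 hr1).1
        rw [Finset.range_add_one (n := k + 1), Finset.filter_insert, if_neg]
        rw [rt_of_b hb]
        omega
    · rw [if_neg hb]
      have hb' : b (k + 1) = false := by simpa using hb
      have h0 := rt_of_not hpar hb'
      have hp := hpar k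
      have h3 := rt_le (par := par) (b := b) (par (k + 1))
      have h1 : (Finset.range (k + 1 + 1)).filter (fun r => rt par b r = r) =
          (Finset.range (k + 1)).filter (fun r => rt par b r = r) := by
        rw [Finset.range_add_one (n := k + 1), Finset.filter_insert, if_neg]
        rw [h0]
        omega
      rw [h1, ih]
      apply Multiset.map_congr rfl
      intro r hr
      have h4 : ∀ i, Function.update w (par (k + 1)) (w (par (k + 1)) + w (k + 1)) i =
          w i + if i = par (k + 1) then w (k + 1) else 0 := by
        intro i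
        by_cases hi : i = par (k + 1)
        · rw [hi, Function.update_self, if_pos rfl]
        · rw [Function.update_of_ne hi, if_neg hi, Nat.add_zero]
      simp only [h4]
      rw [Finset.sum_add_distrib, Finset.range_add_one (n := k + 1), Finset.filter_insert]
      by_cases hr2 : rt par b (k + 1) = r
      · rw [if_pos hr2, Finset.sum_insert (by simp), add_comm]
        congr 1
        rw [Finset.sum_ite_eq', if_pos]
        rw [Finset.mem_filter, Finset.mem_range]
        exact ⟨by omega, by rw [← h0, hr2]⟩
      · rw [if_neg hr2, Finset.sum_ite_eq', if_neg, Nat.add_zero]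
        rw [Finset.mem_filter, not_and]
        intro _ h5
        exact hr2 (by rw [h0, h5])

end

/-! ### The partition -/

/-- vertices are equivalent when they have the same root -/
def rel (par : ℕ → ℕ) (b : ℕ → Bool) (n : ℕ) : Setoid (Fin n) :=
  Setoid.ker fun i : Fin n => rt par b i

instance (par : ℕ → ℕ) (b : ℕ → Bool) (n : ℕ) : DecidableRel (rel par b n).r := by
  intro i j
  unfold rel Setoid.ker
  exact inferInstanceAs (Decidable (rt par b i = rt par b j))

/-- the class of a root -/
def cls (par : ℕ → ℕ) (b : ℕ → Bool) (n : ℕ) (r : Fin n) : Finset (Fin n) :=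
  Finset.univ.filter fun i : Fin n => rt par b i = rt par b r

/-- the partition into components -/
def part (par : ℕ → ℕ) (b : ℕ → Bool) (n : ℕ) : Finpartition (Finset.univ : Finset (Fin n)) :=
  Finpartition.ofSetoid (rel par b n)

theorem part_parts (par : ℕ → ℕ) (b : ℕ → Bool) (n : ℕ) :
    (part par b n).parts = Finset.univ.image (cls par b n) := by
  ext s
  simp only [part, Finpartition.ofSetoid, Finpartition.ofSetSetoid, Finset.mem_image,
    Finset.mem_univ, true_and]
  constructor
  · rintro ⟨a, ha⟩
    refine ⟨a, ?_⟩
    rw [← ha]
    ext i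
    simp only [cls, Finset.mem_filter, Finset.mem_univ, true_and]
    exact eq_comm
  · rintro ⟨a, ha⟩
    refine ⟨a, ?_⟩
    rw [← ha]
    ext i
    simp only [cls, Finset.mem_filter, Finset.mem_univ, true_and]
    exact eq_comm

section

variable {par : ℕ → ℕ} (hpar : ∀ i, par (i + 1) ≤ i) {b : ℕ → Bool}

include hpar in
theorem part_sizes (k : ℕ) :
    (part par b (k + 1)).parts.val.map Finset.card = (outL par b k (fun _ => 1) : Multiset ℕ) := by
  rw [part_parts, outL_eq hpar]
  set R : Finset (Fin (k + 1)) := Finset.univ.filter fun r : Fin (k + 1) => rt par b r = r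
    with hR
  have h1 : Finset.univ.image (cls par b (k + 1)) = R.image (cls par b (k + 1)) := by
    ext s
    simp only [Finset.mem_image, Finset.mem_univ, true_and, hR, Finset.mem_filter]
    constructor
    · rintro ⟨a, ha⟩
      refine ⟨⟨rt par b a, lt_of_le_of_lt (rt_le _) a.2⟩, rt_rt _, ?_⟩
      rw [← ha]
      unfold cls
      simp only [rt_rt]
    · rintro ⟨a, _, ha⟩
      exact ⟨a, ha⟩
  have hinj : Set.InjOn (cls par b (k + 1)) R := by
    intro r hr s hs hrs
    have hr' : rt par b r = r := (Finset.mem_filter.1 hr).2
    have hs' : rt par b s = s := (Finset.mem_filter.1 hs).2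
    have h2 : r ∈ cls par b (k + 1) s := by
      rw [← hrs]
      simp [cls]
    have h3 : rt par b r = rt par b s := (Finset.mem_filter.1 h2).2
    apply Fin.ext
    rw [← hr', ← hs', h3]
  rw [h1, Finset.image_val_of_injOn hinj, Multiset.map_map]
  have h4 : ((Finset.range (k + 1)).filter (fun r => rt par b r = r)) =
      R.map Fin.valEmbedding := by
    ext r
    simp only [Finset.mem_filter, Finset.mem_range, Finset.mem_map, hR, Finset.mem_univ, true_and,
      Fin.valEmbedding_apply]
    constructor
    · rintro ⟨h5, h6⟩
      exact ⟨⟨r, h5⟩, h6, rfl⟩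
    · rintro ⟨a, h5, rfl⟩
      exact ⟨a.2, h5⟩
  rw [h4, Finset.map_val, Multiset.map_map]
  apply Multiset.map_congr rfl
  intro r hr
  have hr' : rt par b r = r := (Finset.mem_filter.1 (show r ∈ R from hr)).2
  simp only [Function.comp_apply, Fin.valEmbedding_apply, Finset.sum_const, smul_eq_mul, mul_one]
  have h5 : (Finset.range (k + 1)).filter (fun i => rt par b i = r) =
      (cls par b (k + 1) r).map Fin.valEmbedding := by
    ext i
    simp only [Finset.mem_filter, Finset.mem_range, Finset.mem_map, cls, Finset.mem_univ, true_and,
      Fin.valEmbedding_apply]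
    constructor
    · rintro ⟨h5, h6⟩
      exact ⟨⟨i, h5⟩, by rw [hr']; exact h6, rfl⟩
    · rintro ⟨a, h5, rfl⟩
      exact ⟨a.2, by rw [h5, hr']⟩
  rw [h5, Finset.card_map]

include hpar in
theorem part_connected (k : ℕ) (s : Finset (Fin (k + 1))) (hs : s ∈ (part par b (k + 1)).parts) :
    ((treeOf par (k + 1)).induce (s : Set (Fin (k + 1)))).Connected := by
  rw [part_parts, Finset.mem_image] at hs
  obtain ⟨a, _, rfl⟩ := hs
  -- the root
  have hroot : (⟨rt par b a, lt_of_le_of_lt (rt_le _) a.2⟩ : Fin (k + 1)) ∈
      cls par b (k + 1) a := by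
    simp [cls, rt_rt]
  rw [SimpleGraph.connected_iff_exists_forall_reachable]
  refine ⟨⟨_, hroot⟩, ?_⟩
  rintro ⟨i, hi⟩
  have hi' : i ∈ cls par b (k + 1) a := hi
  obtain ⟨i, hik⟩ := i
  induction i using Nat.strong_induction_on with
  | _ i ih =>
    have h1 : rt par b i = rt par b a := (Finset.mem_filter.1 hi').2
    by_cases h : i = 0 ∨ b i = true ∨ i ≤ par i
    · have h2 : rt par b i = i := by
        rw [rt, dif_pos h]
      have h3 : (⟨⟨rt par b a, lt_of_le_of_lt (rt_le _) a.2⟩, hroot⟩ :
          ((cls par b (k + 1) a : Finset (Fin (k + 1))) : Set (Fin (k + 1)))) =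
          ⟨⟨i, hik⟩, hi⟩ := by
        apply Subtype.ext
        apply Fin.ext
        simp only
        rw [← h1, h2]
      rw [h3]
    · push Not at h
      have h2 : rt par b i = rt par b (par i) := by
        conv_lhs => rw [rt, dif_neg (by push Not; exact h)]
      have h3 : (⟨par i, by omega⟩ : Fin (k + 1)) ∈ cls par b (k + 1) a := by
        simp only [cls, Finset.mem_filter, Finset.mem_univ, true_and]
        rw [← h2, h1]
      refine (ih (par i) h.2.2 (by omega) h3 h3).trans ?_
      apply SimpleGraph.Adj.reachable
      rw [SimpleGraph.induce_adj]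
      refine ⟨?_, Or.inl ⟨?_, rfl⟩⟩
      · intro h4
        have := congrArg Fin.val h4
        simp only at this
        omega
      · simp only
        omega

include hpar in
theorem treeOf_connected (k : ℕ) : (treeOf par (k + 1)).Connected := by
  rw [SimpleGraph.connected_iff_exists_forall_reachable]
  refine ⟨⟨0, by omega⟩, ?_⟩
  rintro ⟨i, hik⟩
  induction i using Nat.strong_induction_on with
  | _ i ih =>
    rcases i with _ | i
    · exact SimpleGraph.Reachable.refl _
    · have := hpar i
      refine (ih (par (i + 1)) (by omega) (by omega)).trans ?_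
      apply SimpleGraph.Adj.reachable
      refine ⟨?_, Or.inl ⟨?_, rfl⟩⟩
      · intro h4
        have := congrArg Fin.val h4
        simp only at this
        omega
      · simp only
        omega

end

instance (par : ℕ → ℕ) (n : ℕ) : DecidableRel (treeOf par n).Adj := fun i j =>
  inferInstanceAs (Decidable (i ≠ j ∧ ((1 ≤ (j : ℕ) ∧ (i : ℕ) = par j) ∨
    (1 ≤ (i : ℕ) ∧ (j : ℕ) = par i))))

/-! ### Enumeration of the partitions -/

/-- the partitions of `n` into parts of size at most `m`, for `m` at least one -/
def allP : ℕ → ℕ → List (List ℕ)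
  | 0, n => [List.replicate n 1]
  | m + 1, n => (List.range (n / (m + 2) + 1)).flatMap fun c =>
      (allP m (n - c * (m + 2))).map fun l => List.replicate c (m + 2) ++ l

theorem allP_complete (m n : ℕ) (s : Multiset ℕ) (hs : ∀ x ∈ s, 1 ≤ x ∧ x ≤ m + 1)
    (hsum : s.sum = n) : ∃ l ∈ allP m n, (l : Multiset ℕ) = s := by
  induction m generalizing n s with
  | zero =>
    have h1 : s = Multiset.replicate s.card 1 := by
      rw [Multiset.eq_replicate]
      refine ⟨rfl, ?_⟩
      intro x hx
      have := hs x hx
      omega
    have h2 : s.card = n := by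
      rw [← hsum]
      conv_rhs => rw [h1, Multiset.sum_replicate]
      simp
    refine ⟨List.replicate n 1, by simp [allP], ?_⟩
    rw [h1, h2, Multiset.coe_replicate]
  | succ m ih =>
    have h1 : s = Multiset.replicate (s.count (m + 2)) (m + 2) + s.filter (fun x => ¬ x = m + 2) := by
      conv_lhs => rw [← Multiset.filter_add_not (fun x => x = m + 2) s]
      rw [Multiset.filter_eq']
    set c := s.count (m + 2) with hc
    set s' := s.filter (fun x => ¬ x = m + 2) with hs'
    have h2 : n = c * (m + 2) + s'.sum := by
      rw [← hsum]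
      conv_lhs => rw [h1, Multiset.sum_add, Multiset.sum_replicate]
      simp
    obtain ⟨l, hl, hls⟩ := ih (n - c * (m + 2)) s' (by
      intro x hx
      rw [hs', Multiset.mem_filter] at hx
      have := hs x hx.1
      omega) (by omega)
    refine ⟨List.replicate c (m + 2) ++ l, ?_, ?_⟩
    · rw [allP, List.mem_flatMap]
      refine ⟨c, ?_, List.mem_map.2 ⟨l, hl, rfl⟩⟩
      rw [List.mem_range]
      have : c ≤ n / (m + 2) := by
        rw [Nat.le_div_iff_mul_le (by omega)]
        omega
      omega
    · rw [h1, ← Multiset.coe_add, hls, Multiset.coe_replicate]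

/-- the check of a list of masks -/
def chk (par : ℕ → ℕ) (k : ℕ) : List (List ℕ) → List ℕ → Bool
  | [], _ => true
  | _ :: _, [] => false
  | l :: ls, m :: ms => l.isPerm (outL par (fun i => m.testBit (i - 1)) k (fun _ => 1)) &&
      chk par k ls ms

theorem chk_sound (par : ℕ → ℕ) (k : ℕ) (ls : List (List ℕ)) (ms : List ℕ)
    (h : chk par k ls ms = true) (l : List ℕ) (hl : l ∈ ls) :
    ∃ b : ℕ → Bool, l.Perm (outL par b k (fun _ => 1)) := by
  induction ls generalizing ms with
  | nil => simp at hl
  | cons l' ls ih =>
    cases ms with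
    | nil => simp [chk] at h
    | cons m ms =>
      rw [chk, Bool.and_eq_true] at h
      rcases List.mem_cons.1 hl with rfl | hl'
      · exact ⟨_, List.isPerm_iff.1 h.1⟩
      · exact ih ms h.2 hl'

/-- all types occur -/
theorem cpet_of_chk (par : ℕ → ℕ) (hpar : ∀ i, par (i + 1) ≤ i) (k : ℕ) (ms : List ℕ)
    (h : chk par k (allP k (k + 1)) ms = true) (μ : (k + 1).Partition) :
    ∃ P : Finpartition (Finset.univ : Finset (Fin (k + 1))),
      (∀ B ∈ P.parts, ((treeOf par (k + 1)).induce (B : Set (Fin (k + 1)))).Connected) ∧
      P.parts.val.map Finset.card = μ.parts := by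
  obtain ⟨l, hl, hl2⟩ := allP_complete k (k + 1) μ.parts (by
    intro x hx
    refine ⟨μ.parts_pos hx, ?_⟩
    have := Multiset.le_sum_of_mem hx
    rw [μ.parts_sum] at this
    exact this) μ.parts_sum
  obtain ⟨b, hb⟩ := chk_sound par k _ ms h l hl
  refine ⟨part par b (k + 1), part_connected hpar k, ?_⟩
  rw [part_sizes hpar, ← hl2]
  exact (Multiset.coe_eq_coe.2 hb).symm

end Pool.Agent.X75.CSF
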