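import Pool.Agent.X75.CSF6

/-!
The coefficient of `e_(3, 2^10)`.
-/

set_option autoImplicit false

namespace Pool.Agent.X75.CSF

open MvPolynomial

/-- the partition `(3, 2, …, 2)` of 23 -/
def lam23 : Nat.Partition 23 where
  parts := 3 ::ₘ Multiset.replicate 10 2
  parts_pos := by
    intro i hi
    rw [Multiset.mem_cons, Multiset.mem_replicate] at hi
    omega
  parts_sum := by simp

theorem eps_sq : (DualNumber.eps : DualNumber ℚ) * DualNumber.eps = 0 := by
  exact DualNumber.eps_mul_eps

theorem snd_prod (μ : Nat.Partition 23) :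
    ((μ.parts.map fun k => phi (E k)).prod).snd = if μ = lam23 then 1 else 0 := by
  by_cases h : ∀ x ∈ μ.parts, x = 2 ∨ x = 3
  · have h1 : μ.parts = Multiset.replicate (μ.parts.count 2) 2 +
        Multiset.replicate (μ.parts.count 3) 3 := by
      conv_lhs => rw [← Multiset.filter_add_not (fun x => x = 2) μ.parts]
      rw [Multiset.filter_eq']
      congr 1
      rw [← Multiset.filter_eq']
      apply Multiset.filter_congr
      intro x hx
      have := h x hx
      omega
    set a := μ.parts.count 2
    set c := μ.parts.count 3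
    have h2 : a * 2 + c * 3 = 23 := by
      have := μ.parts_sum
      rw [h1] at this
      simpa using this
    have h3 : (μ.parts.map fun k => phi (E k)).prod = DualNumber.eps ^ c := by
      rw [h1]
      simp [phi_E]
    rw [h3]
    rcases Nat.lt_or_ge c 2 with hc | hc
    · have hc1 : c = 1 := by omega
      have ha : a = 10 := by omega
      rw [hc1, pow_one, if_pos]
      · simp
      · apply Nat.Partition.ext
        rw [h1, hc1, ha]
        unfold lam23
        simp only [Multiset.replicate_one]
        rw [add_comm, Multiset.singleton_add]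
    · obtain ⟨d, hd⟩ := Nat.exists_eq_add_of_le hc
      have h4 : (DualNumber.eps : DualNumber ℚ) ^ c = 0 := by
        rw [hd, pow_add, pow_two, eps_sq, zero_mul]
      rw [h4, if_neg]
      · simp
      · intro h5
        have h6 : c = 1 := by
          change μ.parts.count 3 = 1
          rw [h5]
          decide
        omega
  · push Not at h
    obtain ⟨x, hx, hx2, hx3⟩ := h
    have h1 : (μ.parts.map fun k => phi (E k)).prod = 0 := by
      apply Multiset.prod_eq_zero
      rw [Multiset.mem_map]
      refine ⟨x, hx, ?_⟩
      have := μ.parts_pos hx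
      rw [phi_E, if_neg (by omega), if_neg hx2, if_neg hx3]
    rw [h1, if_neg]
    · simp
    · rintro rfl
      have : x ∈ (3 ::ₘ Multiset.replicate 10 2 : Multiset ℕ) := hx
      rw [Multiset.mem_cons, Multiset.mem_replicate] at this
      omega

/-- the tree -/
abbrev T23 : SimpleGraph (Fin 23) := treeOf par23 23

theorem coefficient (c : Nat.Partition 23 → ℚ) (N : ℕ) (hN : 3 ≤ N)
    (h : chromSym T23 N = ∑ μ, c μ • esymmPart (Fin N) ℚ μ) : c lam23 = 5 := by
  rw [T23, chromSym_eq par23 par23_le 22 N] at h
  have h1 := coeff_of_expansion _ c N hN h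
  rw [phi_run, run23] at h1
  have h2 := congrArg TrivSqZeroExt.snd h1
  rw [TrivSqZeroExt.snd_sum] at h2
  simp only [TrivSqZeroExt.snd_smul, snd_prod] at h2
  rw [Finset.sum_eq_single lam23] at h2
  · simp [toD] at h2
    exact h2.symm
  · intro b _ hb
    rw [if_neg hb, smul_zero]
  · intro h
    exact absurd (Finset.mem_univ _) h

theorem expansion : ∃ c : Nat.Partition 23 → ℚ, ∀ N,
    chromSym T23 N = ∑ μ, c μ • esymmPart (Fin N) ℚ μ := by
  obtain ⟨c, hc⟩ := expansion_exists 23 (run PU par23 22 (fun _ => Polynomial.X))
  refine ⟨c, ?_⟩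
  intro N
  rw [T23, chromSym_eq par23 par23_le 22 N]
  apply hc
  rw [← chromSym_eq par23 par23_le 22 N]
  have := chromSym_hom (treeOf par23 23) N
  simpa using this

theorem cpet23 (μ : Nat.Partition 23) :
    ∃ P : Finpartition (Finset.univ : Finset (Fin 23)),
      (∀ B ∈ P.parts, (T23.induce (B : Set (Fin 23))).Connected) ∧
      P.parts.val.map Finset.card = μ.parts :=
  cpet_of_chk par23 par23_le 22 masks chk23 μ

set_option maxRecDepth 1000000 in
theorem degrees : ∀ v, T23.degree v ≤ 4 := by
  decide +kernel

set_option maxRecDepth 1000000 in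
theorem degree0 : T23.degree 11 = 4 := by
  decide +kernel

set_option maxRecDepth 1000000 in
theorem degree_sum : ∑ v, T23.degree v = 44 := by
  decide +kernel

theorem maxDegree23 : T23.maxDegree = 4 := by
  apply le_antisymm
  · exact T23.maxDegree_le_of_forall_degree_le 4 degrees
  · rw [← degree0]
    exact T23.degree_le_maxDegree 11

theorem isTree23 : T23.IsTree := by
  rw [SimpleGraph.isTree_iff_connected_and_card]
  refine ⟨treeOf_connected par23_le 22, ?_⟩
  have h1 := T23.sum_degrees_eq_twice_card_edges
  rw [degree_sum] at h1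
  rw [Nat.card_eq_fintype_card, Nat.card_eq_fintype_card, Fintype.card_fin,
    ← SimpleGraph.edgeFinset_card]
  omega

end Pool.Agent.X75.CSF
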