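import Mathlib
set_option autoImplicit false
open Finset PowerSeries
namespace Pool.Agent.X75.ChromH

/-- number of sequences -/
noncomputable def W (m : ℕ) (ρ : Fin m → ℕ) (n : ℕ) : Finset (Fin m → ℕ) := by
  classical
  exact (Fintype.piFinset (fun _ : Fin m => Finset.range n)).filter
    (fun x => StrictMono (fun i => (toLex (x i, OrderDual.toDual (ρ i)) : ℕ ×ₗ ℕᵒᵈ)))

lemma mem_W {m : ℕ} {ρ : Fin m → ℕ} {n : ℕ} {x : Fin m → ℕ} :
    x ∈ W m ρ n ↔ (∀ i, x i < n) ∧
      StrictMono (fun i => (toLex (x i, OrderDual.toDual (ρ i)) : ℕ ×ₗ ℕᵒᵈ)) := by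
  classical
  simp [W, Fintype.mem_piFinset]

/-- the strictness indicator at the last position -/
def dl : (m : ℕ) → (Fin (m+1) → ℕ) → ℕ
  | 0, _ => 1
  | (m+1), ρ => if ρ (Fin.castSucc (Fin.last m)) < ρ (Fin.last (m+1)) then 1 else 0

lemma dl_le (m : ℕ) (ρ : Fin (m+1) → ℕ) : dl m ρ ≤ 1 := by
  cases m with
  | zero => simp [dl]
  | succ m => simp only [dl]; split_ifs <;> simp

lemma key_lt {a b : ℕ} {r s : ℕ} :
    ((toLex (a, OrderDual.toDual r) : ℕ ×ₗ ℕᵒᵈ) < toLex (b, OrderDual.toDual s)) ↔
      a < b ∨ (a = b ∧ s < r) := by
  simp [Prod.Lex.lt_iff]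

lemma card_W_succ (m : ℕ) (ρ : Fin (m+1) → ℕ) (hρ : Function.Injective ρ) (n : ℕ) :
    (W (m+1) ρ (n+1)).card = (W (m+1) ρ n).card +
      (W m (fun i => ρ i.castSucc) (n+1 - dl m ρ)).card := by
  classical
  have h1 : (W (m+1) ρ (n+1)).card =
      ((W (m+1) ρ (n+1)).filter (fun x => x (Fin.last m) < n)).card +
      ((W (m+1) ρ (n+1)).filter (fun x => ¬ x (Fin.last m) < n)).card := by
    rw [Finset.card_filter_add_card_filter_not]
  rw [h1]
  congr 1
  · congr 1
    ext x
    simp only [Finset.mem_filter, mem_W]
    constructor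
    · rintro ⟨⟨hx, hs⟩, hl⟩
      refine ⟨fun i => ?_, hs⟩
      rcases lt_or_eq_of_le (Fin.le_last i) with h | h
      · have := hs h
        rw [key_lt] at this
        omega
      · rw [h]; exact hl
    · rintro ⟨hx, hs⟩
      exact ⟨⟨fun i => (hx i).trans (Nat.lt_succ_self n), hs⟩, hx _⟩
  · apply Finset.card_bij' (fun x _ => fun i : Fin m => x i.castSucc)
      (fun x _ => (Fin.snoc x n : Fin (m+1) → ℕ))
    · intro x hx
      simp only [Finset.mem_filter, mem_W] at hx
      obtain ⟨⟨hx, hs⟩, hl⟩ := hx
      have hxn : x (Fin.last m) = n := by have := hx (Fin.last m); omega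
      rw [mem_W]
      refine ⟨?_, ?_⟩
      · intro i
        cases m with
        | zero => exact i.elim0
        | succ m =>
          have h1 : ∀ j : Fin (m+1), x j.castSucc < n ∨ (x j.castSucc = n ∧ ρ (Fin.last (m+1)) < ρ j.castSucc) := by
            intro j
            have := hs (Fin.castSucc_lt_last j)
            rw [key_lt] at this
            rw [hxn] at this
            exact this
          have h2 := h1 (Fin.last m)
          simp only [dl]
          split_ifs with hd
          · have h3 : x (Fin.last m).castSucc < n := by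
              rcases h2 with h | ⟨_, h⟩
              · exact h
              · omega
            rcases lt_or_eq_of_le (Fin.le_last i) with h | h
            · have := hs (Fin.castSucc_lt_castSucc_iff.mpr h)
              rw [key_lt] at this
              omega
            · rw [h]; omega
          · have := h1 i
            omega
      · intro i j hij
        exact hs (Fin.castSucc_lt_castSucc_iff.mpr hij)
    · intro x hx
      rw [mem_W] at hx
      obtain ⟨hx, hs⟩ := hx
      simp only [Finset.mem_filter, mem_W]
      refine ⟨⟨?_, ?_⟩, ?_⟩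
      · intro i
        refine Fin.lastCases ?_ (fun j => ?_) i
        · simp
        · simp only [Fin.snoc_castSucc]
          have := hx j
          omega
      · rw [Fin.strictMono_iff_lt_succ]
        intro i
        cases m with
        | zero => exact i.elim0
        | succ m =>
          refine Fin.lastCases ?_ (fun j => ?_) i
          · rw [key_lt]
            simp only [Fin.snoc_castSucc, Fin.succ_last, Fin.snoc_last]
            have hb := hx (Fin.last m)
            simp only [dl] at hb
            split_ifs at hb with hd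
            · left; omega
            · rcases Nat.lt_or_ge (x (Fin.last m)) n with h | h
              · exact Or.inl h
              · right
                refine ⟨by omega, ?_⟩
                have hne : ρ (Fin.last m).castSucc ≠ ρ (Fin.last (m+1)) := by
                  intro h
                  have := hρ h
                  exact (Fin.castSucc_lt_last (Fin.last m)).ne this
                simp only [Nat.succ_eq_add_one]
                omega
          · have := hs (Fin.castSucc_lt_succ (i := j))
            rw [key_lt] at this ⊢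
            have e1 : (Fin.castSucc j).succ = (j.succ).castSucc := by
              ext; simp
            rw [e1]
            simp only [Fin.snoc_castSucc]
            exact this
      · simp
    · intro x hx
      simp only [Finset.mem_filter, mem_W] at hx
      obtain ⟨⟨hx, hs⟩, hl⟩ := hx
      have hxn : x (Fin.last m) = n := by have := hx (Fin.last m); omega
      funext i
      refine Fin.lastCases ?_ (fun j => ?_) i
      · simp [hxn]
      · simp
    · intro x hx
      funext i
      simp

lemma card_W_zero (m : ℕ) (ρ : Fin (m+1) → ℕ) : (W (m+1) ρ 0).card = 0 := by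
  rw [Finset.card_eq_zero, Finset.eq_empty_iff_forall_notMem]
  intro x hx
  rw [mem_W] at hx
  exact absurd (hx.1 0) (Nat.not_lt_zero _)

lemma card_W_empty (ρ : Fin 0 → ℕ) (n : ℕ) : (W 0 ρ n).card = 1 := by
  rw [Finset.card_eq_one]
  refine ⟨fun i => i.elim0, ?_⟩
  ext x
  rw [mem_W, Finset.mem_singleton]
  constructor
  · intro _; funext i; exact i.elim0
  · intro _; exact ⟨fun i => i.elim0, fun i => i.elim0⟩

/-- total number of strict positions -/
def ks : (m : ℕ) → (Fin m → ℕ) → ℕ
  | 0, _ => 0
  | (m+1), ρ => ks m (fun i => ρ i.castSucc) + dl m ρ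

lemma ks_le : ∀ (m : ℕ) (ρ : Fin m → ℕ), ks m ρ ≤ m
  | 0, _ => le_rfl
  | (m+1), ρ => by
      have h1 := ks_le m (fun i => ρ i.castSucc)
      have h2 := dl_le m ρ
      simp only [ks]; omega

theorem gf_W : ∀ (m : ℕ) (ρ : Fin m → ℕ) (_ : Function.Injective ρ),
    (1 - X : ℤ⟦X⟧) ^ (m+1) * PowerSeries.mk (fun n => ((W m ρ n).card : ℤ)) = X ^ (ks m ρ)
  | 0, ρ, _ => by
      have : PowerSeries.mk (fun n => ((W 0 ρ n).card : ℤ)) = PowerSeries.mk 1 := by
        ext n; simp [card_W_empty]
      rw [this]
      simp only [ks, zero_add, pow_one, pow_zero]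
      rw [mul_comm]
      exact PowerSeries.mk_one_mul_one_sub_eq_one ℤ
  | (m+1), ρ, hρ => by
      have ih := gf_W m (fun i => ρ i.castSucc) (fun a b h => by
        have := hρ h
        exact Fin.castSucc_injective _ this)
      have key : (1 - X : ℤ⟦X⟧) * PowerSeries.mk (fun n => ((W (m+1) ρ n).card : ℤ)) =
          X ^ (dl m ρ) * PowerSeries.mk (fun n => ((W m (fun i => ρ i.castSucc) n).card : ℤ)) := by
        ext n
        rw [sub_mul, one_mul, map_sub]
        cases n with
        | zero =>
          rw [PowerSeries.coeff_mk, card_W_zero]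
          have h0 : (coeff 0) (X * PowerSeries.mk fun n => ((W (m+1) ρ n).card : ℤ)) = 0 := by
            simp
          rw [h0]
          cases m with
          | zero =>
            simp [dl]
          | succ m =>
            simp only [dl]
            split_ifs
            · simp
            · simp [card_W_zero]
        | succ n =>
          rw [PowerSeries.coeff_mk, PowerSeries.coeff_succ_X_mul, PowerSeries.coeff_mk,
            card_W_succ m ρ hρ n]
          have hd := dl_le m ρ
          rcases Nat.le_one_iff_eq_zero_or_eq_one.mp hd with h | h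
          · rw [h]; simp
          · rw [h, pow_one, PowerSeries.coeff_succ_X_mul, PowerSeries.coeff_mk]; simp
      calc (1 - X : ℤ⟦X⟧) ^ (m+1+1) * PowerSeries.mk (fun n => ((W (m+1) ρ n).card : ℤ))
          = (1 - X) ^ (m+1) * ((1 - X : ℤ⟦X⟧) * PowerSeries.mk (fun n => ((W (m+1) ρ n).card : ℤ))) := by ring
        _ = (1 - X) ^ (m+1) * (X ^ (dl m ρ) * PowerSeries.mk (fun n => ((W m (fun i => ρ i.castSucc) n).card : ℤ))) := by rw [key]
        _ = X ^ (dl m ρ) * ((1 - X) ^ (m+1) * PowerSeries.mk (fun n => ((W m (fun i => ρ i.castSucc) n).card : ℤ))) := by ring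
        _ = X ^ (ks (m+1) ρ) := by rw [ih]; simp only [ks]; ring
end Pool.Agent.X75.ChromH
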