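import Pool.Agent.X75.ChromH1
set_option autoImplicit false
open Finset PowerSeries
namespace Pool.Agent.X75.ChromH

variable {V : Type*} [Fintype V]

/-- Proper colourings with colours in `range n`. -/
noncomputable def Cn (G : SimpleGraph V) (n : ℕ) : Finset (V → ℕ) := by
  classical
  exact (Fintype.piFinset (fun _ : V => Finset.range n)).filter
    (fun c => ∀ u v, G.Adj u v → c u ≠ c v)

lemma mem_Cn {G : SimpleGraph V} {n : ℕ} {c : V → ℕ} :
    c ∈ Cn G n ↔ (∀ v, c v < n) ∧ ∀ u v, G.Adj u v → c u ≠ c v := by
  classical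
  simp [Cn, Fintype.mem_piFinset]

lemma card_Cn (G : SimpleGraph V) (n : ℕ) : (Cn G n).card = Nat.card (G.Coloring (Fin n)) := by
  classical
  rw [← Nat.card_eq_finsetCard]
  apply Nat.card_congr
  refine
    { toFun := fun c => SimpleGraph.Coloring.mk
        (fun v => (⟨c.1 v, (mem_Cn.mp c.2).1 v⟩ : Fin n)) ?_
      invFun := fun c => ⟨fun v => (c v : ℕ), ?_⟩
      left_inv := ?_
      right_inv := ?_ }
  · intro u v huv h
    have h2 := congrArg Fin.val h
    exact (mem_Cn.mp c.2).2 u v huv h2
  · rw [mem_Cn]
    refine ⟨fun v => (c v).2, fun u v huv h => ?_⟩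
    exact c.valid huv (Fin.ext h)
  · intro c
    rfl
  · intro c
    apply DFunLike.ext
    intro v
    rfl

/-- Orientation induced by an ordering of the vertices -/
def Or (G : SimpleGraph V) (e : Fin (Fintype.card V) ≃ V) : Set (V × V) :=
  {p | G.Adj p.1 p.2 ∧ e.symm p.1 < e.symm p.2}

open Classical in
/-- a canonical ordering for each orientation -/
noncomputable def rep (G : SimpleGraph V) (S : Set (V × V)) : Fin (Fintype.card V) ≃ V :=
  if h : ∃ e, Or G e = S then Classical.choose h else (Fintype.equivFin V).symm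

lemma rep_spec (G : SimpleGraph V) (e : Fin (Fintype.card V) ≃ V) :
    Or G (rep G (Or G e)) = Or G e := by
  have h : ∃ e', Or G e' = Or G e := ⟨e, rfl⟩
  unfold rep
  rw [dif_pos h]
  exact Classical.choose_spec h

/-- labelling -/
noncomputable def L (G : SimpleGraph V) (S : Set (V × V)) (u : V) : ℕ := ((rep G S).symm u : ℕ)

lemma L_inj (G : SimpleGraph V) (S : Set (V × V)) : Function.Injective (L G S) := by
  intro a b h
  exact (rep G S).symm.injective (Fin.ext h)

noncomputable def rho (G : SimpleGraph V) (e : Fin (Fintype.card V) ≃ V) :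
    Fin (Fintype.card V) → ℕ := fun i => L G (Or G e) (e i)

lemma rho_inj (G : SimpleGraph V) (e : Fin (Fintype.card V) ≃ V) :
    Function.Injective (rho G e) := fun _ _ h => e.injective (L_inj _ _ h)

lemma L_lt (G : SimpleGraph V) (e : Fin (Fintype.card V) ≃ V) {u v : V}
    (h : (u, v) ∈ Or G e) : L G (Or G e) u < L G (Or G e) v := by
  rw [← rep_spec G e] at h
  have := h.2
  exact this

noncomputable def Bn (G : SimpleGraph V) (e : Fin (Fintype.card V) ≃ V) (n : ℕ) :
    Finset (V → ℕ) := by
  classical
  exact (W (Fintype.card V) (rho G e) n).image (fun x => x ∘ e.symm)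

lemma mem_Bn {G : SimpleGraph V} {e : Fin (Fintype.card V) ≃ V} {n : ℕ} {c : V → ℕ} :
    c ∈ Bn G e n ↔ (c ∘ e) ∈ W (Fintype.card V) (rho G e) n := by
  classical
  unfold Bn
  rw [Finset.mem_image]
  constructor
  · rintro ⟨x, hx, rfl⟩
    have : (x ∘ e.symm) ∘ e = x := by funext i; simp
    rw [this]; exact hx
  · intro h
    refine ⟨_, h, ?_⟩
    funext i; simp

lemma card_Bn (G : SimpleGraph V) (e : Fin (Fintype.card V) ≃ V) (n : ℕ) :
    (Bn G e n).card = (W (Fintype.card V) (rho G e) n).card := by
  classical
  unfold Bn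
  apply Finset.card_image_of_injective
  intro x y h
  funext i
  have := congrFun h (e i)
  simpa using this

/-- the orientation induced by a colouring -/
def OrC (G : SimpleGraph V) (c : V → ℕ) : Set (V × V) := {p | G.Adj p.1 p.2 ∧ c p.1 < c p.2}

/-- the key of a vertex -/
noncomputable def key (G : SimpleGraph V) (c : V → ℕ) (S : Set (V × V)) (v : V) : ℕ ×ₗ ℕᵒᵈ :=
  toLex (c v, OrderDual.toDual (L G S v))

lemma key_inj (G : SimpleGraph V) (c : V → ℕ) (S : Set (V × V)) :
    Function.Injective (key G c S) := by
  intro a b h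
  unfold key at h
  have h2 := congrArg ofLex h
  simp only [ofLex_toLex, Prod.mk.injEq] at h2
  exact L_inj G S (by simpa using h2.2)

lemma mem_Bn' {G : SimpleGraph V} {e : Fin (Fintype.card V) ≃ V} {n : ℕ} {c : V → ℕ} :
    c ∈ Bn G e n ↔ (∀ v, c v < n) ∧ StrictMono (key G c (Or G e) ∘ e) := by
  rw [mem_Bn, mem_W]
  constructor
  · rintro ⟨h1, h2⟩
    refine ⟨fun v => ?_, h2⟩
    have := h1 (e.symm v)
    simpa using this
  · rintro ⟨h1, h2⟩
    exact ⟨fun i => h1 _, h2⟩

lemma adj_lt {G : SimpleGraph V} {e : Fin (Fintype.card V) ≃ V} {n : ℕ} {c : V → ℕ}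
    (hc : c ∈ Bn G e n) {u v : V} (huv : G.Adj u v) (h : e.symm u < e.symm v) : c u < c v := by
  rw [mem_Bn'] at hc
  have h2 := hc.2 h
  simp only [Function.comp, Equiv.apply_symm_apply] at h2
  unfold key at h2
  rw [key_lt] at h2
  have h3 := L_lt G e (u := u) (v := v) ⟨huv, h⟩
  omega

lemma Bn_or {G : SimpleGraph V} {e : Fin (Fintype.card V) ≃ V} {n : ℕ} {c : V → ℕ}
    (hc : c ∈ Bn G e n) : Or G e = OrC G c := by
  ext ⟨u, v⟩
  constructor
  · rintro ⟨h1, h2⟩
    exact ⟨h1, adj_lt hc h1 h2⟩
  · rintro ⟨h1, h2⟩
    refine ⟨h1, ?_⟩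
    by_contra h3
    push Not at h3
    rcases lt_or_eq_of_le h3 with h4 | h4
    · have := adj_lt hc h1.symm h4
      change c u < c v at h2
      change c v < c u at this
      omega
    · have := e.symm.injective h4
      exact h1.ne this.symm

/-- existence of a sorting enumeration for an injective key -/
lemma exists_sort {α : Type*} [LinearOrder α] (f : V → α) (hf : Function.Injective f) :
    ∃ e : Fin (Fintype.card V) ≃ V, StrictMono (f ∘ e) := by
  classical
  let _ : LinearOrder V := LinearOrder.lift' f hf
  let o := Fintype.orderIsoFinOfCardEq V rfl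
  refine ⟨o.toEquiv, ?_⟩
  intro i j hij
  have : o i < o j := o.strictMono hij
  exact this

lemma sort_unique {α : Type*} [LinearOrder α] (f : V → α)
    (e e' : Fin (Fintype.card V) ≃ V) (h : StrictMono (f ∘ e)) (h' : StrictMono (f ∘ e')) :
    e = e' := by
  have hr : Set.range (f ∘ e) = Set.range (f ∘ e') := by
    rw [Set.range_comp, Set.range_comp, e.range_eq_univ, e'.range_eq_univ]
  have h3 : f ∘ e = f ∘ e' := (StrictMono.range_inj h h').mp hr
  have hf : Function.Injective f := by
    have := h.injective
    intro a b hab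
    have h4 : (f ∘ e) (e.symm a) = (f ∘ e) (e.symm b) := by simpa using hab
    have := this h4
    exact e.symm.injective this
  ext i
  exact hf (congrFun h3 i)

open Classical in
theorem Cn_eq (G : SimpleGraph V) (n : ℕ) :
    (Cn G n).card = ∑ e : Fin (Fintype.card V) ≃ V, (W (Fintype.card V) (rho G e) n).card := by
  classical
  have h : Cn G n = (Finset.univ : Finset (Fin (Fintype.card V) ≃ V)).biUnion (fun e => Bn G e n) := by
    ext c
    rw [Finset.mem_biUnion, mem_Cn]
    constructor
    · rintro ⟨h1, h2⟩
      -- first an arbitrary sort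
      obtain ⟨e0, he0⟩ := exists_sort (V := V)
        (fun v => (toLex (c v, (Fintype.equivFin V) v) : ℕ ×ₗ Fin (Fintype.card V))) (by
          intro a b hab
          have h3 := congrArg ofLex hab
          simp only [ofLex_toLex, Prod.mk.injEq] at h3
          exact (Fintype.equivFin V).injective h3.2)
      have ho : Or G e0 = OrC G c := by
        ext ⟨u, v⟩
        constructor
        · rintro ⟨h3, h4⟩
          refine ⟨h3, ?_⟩
          have := he0 h4
          simp only [Function.comp, Equiv.apply_symm_apply, Prod.Lex.lt_iff, ofLex_toLex] at this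
          have h5 := h2 u v h3
          rcases this with h | h
          · exact h
          · exact absurd h.1 h5
        · rintro ⟨h3, h4⟩
          refine ⟨h3, ?_⟩
          by_contra h5
          push Not at h5
          rcases lt_or_eq_of_le h5 with h6 | h6
          · have := he0 h6
            simp only [Function.comp, Equiv.apply_symm_apply, Prod.Lex.lt_iff, ofLex_toLex] at this
            simp only at h4
            omega
          · have := e0.symm.injective h6
            exact h3.ne this.symm
      obtain ⟨e, he⟩ := exists_sort (key G c (OrC G c)) (key_inj G c _)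
      refine ⟨e, Finset.mem_univ _, ?_⟩
      have hL : ∀ u v, G.Adj u v → c u < c v → e.symm u < e.symm v := by
        intro u v huv hc
        by_contra h5
        push Not at h5
        rcases lt_or_eq_of_le h5 with h6 | h6
        · have := he h6
          simp only [Function.comp, Equiv.apply_symm_apply] at this
          unfold key at this
          rw [key_lt] at this
          omega
        · have := e.symm.injective h6
          exact huv.ne this.symm
      have ho2 : Or G e = OrC G c := by
        ext ⟨u, v⟩
        constructor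
        · rintro ⟨h3, h4⟩
          refine ⟨h3, ?_⟩
          rcases lt_trichotomy (c u) (c v) with h | h | h
          · exact h
          · exact absurd h (h2 u v h3)
          · have := hL v u h3.symm h
            exact absurd h4 (not_lt.mpr this.le)
        · rintro ⟨h3, h4⟩
          exact ⟨h3, hL u v h3 h4⟩
      rw [mem_Bn', ho2]
      exact ⟨h1, he⟩
    · rintro ⟨e, -, he⟩
      refine ⟨(mem_Bn'.mp he).1, ?_⟩
      intro u v huv
      rcases lt_trichotomy (e.symm u) (e.symm v) with h | h | h
      · exact (adj_lt he huv h).ne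
      · exact absurd (e.symm.injective h) huv.ne
      · exact (adj_lt he huv.symm h).ne'
  rw [h, Finset.card_biUnion]
  · apply Finset.sum_congr rfl
    intro e _
    exact card_Bn G e n
  · intro e _ e' _ hne
    change Disjoint (Bn G e n) (Bn G e' n)
    rw [Finset.disjoint_left]
    intro c hc hc'
    apply hne
    have h1 := Bn_or hc
    have h2 := Bn_or hc'
    rw [mem_Bn'] at hc hc'
    rw [h1] at hc
    rw [h2] at hc'
    exact sort_unique _ e e' hc.2 hc'.2

/-- chromatic generating series -/
noncomputable def F (G : SimpleGraph V) : ℤ⟦X⟧ := PowerSeries.mk (fun n => ((Cn G n).card : ℤ))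

open Classical in
theorem gf_F (G : SimpleGraph V) :
    (1 - X : ℤ⟦X⟧) ^ (Fintype.card V + 1) * F G =
      ∑ e : Fin (Fintype.card V) ≃ V, X ^ (ks (Fintype.card V) (rho G e)) := by
  classical
  have h : F G = ∑ e : Fin (Fintype.card V) ≃ V,
      PowerSeries.mk (fun n => ((W (Fintype.card V) (rho G e) n).card : ℤ)) := by
    ext n
    rw [map_sum]
    simp only [F, PowerSeries.coeff_mk]
    rw [Cn_eq]
    push_cast
    rfl
  rw [h, Finset.mul_sum]
  apply Finset.sum_congr rfl
  intro e _
  exact gf_W _ _ (rho_inj G e)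

open Classical in
/-- The polynomial numerator. -/
theorem exists_poly (G : SimpleGraph V) :
    ∃ h : Polynomial ℤ, (h : ℤ⟦X⟧) = (1 - X : ℤ⟦X⟧) ^ (Fintype.card V + 1) * F G ∧
      (∀ i, 0 ≤ h.coeff i) ∧ h.natDegree ≤ Fintype.card V := by
  classical
  refine ⟨∑ e : Fin (Fintype.card V) ≃ V, Polynomial.X ^ (ks (Fintype.card V) (rho G e)), ?_, ?_, ?_⟩
  · rw [gf_F]
    rw [← Polynomial.coeToPowerSeries.ringHom_apply, map_sum]
    apply Finset.sum_congr rfl
    intro e _
    rw [Polynomial.coeToPowerSeries.ringHom_apply, Polynomial.coe_pow, Polynomial.coe_X]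
  · intro i
    rw [Polynomial.finsetSum_coeff]
    apply Finset.sum_nonneg
    intro e _
    rw [Polynomial.coeff_X_pow]
    split_ifs <;> simp
  · apply Polynomial.natDegree_sum_le_of_forall_le
    intro e _
    refine (Polynomial.natDegree_X_pow_le _).trans (ks_le _ _)
end Pool.Agent.X75.ChromH
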