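import Pool.Agent.X75.ChromH2
set_option autoImplicit false
open Finset PowerSeries
namespace Pool.Agent.X75.ChromH

variable {V : Type*} [Fintype V] [DecidableEq V]

/-- the map identifying `v` with `u` -/
def fold (u v : V) (huv : u ≠ v) : V → {w : V // w ≠ v} :=
  fun w => if h : w = v then ⟨u, huv⟩ else ⟨w, h⟩

omit [Fintype V] in
lemma fold_v (u v : V) (huv : u ≠ v) : fold u v huv v = ⟨u, huv⟩ := by
  classical
  simp [fold]

omit [Fintype V] in
lemma fold_ne (u v : V) (huv : u ≠ v) {w : V} (h : w ≠ v) : fold u v huv w = ⟨w, h⟩ := by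
  classical
  simp [fold, h]

/-- contraction -/
def contr (G : SimpleGraph V) (u v : V) (huv : u ≠ v) : SimpleGraph {w : V // w ≠ v} :=
  SimpleGraph.fromRel (fun a b => ∃ x y, G.Adj x y ∧ fold u v huv x = a ∧ fold u v huv y = b)

lemma card_del (G : SimpleGraph V) (u v : V) (huv : G.Adj u v) (n : ℕ) :
    (Cn (G.deleteEdges {s(u,v)}) n).card = (Cn G n).card + (Cn (contr G u v huv.ne) n).card := by
  classical
  have h1 : (Cn (G.deleteEdges {s(u,v)}) n).card =
      ((Cn (G.deleteEdges {s(u,v)}) n).filter (fun c => c u ≠ c v)).card +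
      ((Cn (G.deleteEdges {s(u,v)}) n).filter (fun c => ¬ c u ≠ c v)).card := by
    rw [Finset.card_filter_add_card_filter_not]
  rw [h1]
  congr 1
  · congr 1
    ext c
    rw [Finset.mem_filter, mem_Cn, mem_Cn]
    constructor
    · rintro ⟨⟨h2, h3⟩, h4⟩
      refine ⟨h2, fun x y hxy => ?_⟩
      by_cases he : s(x,y) = s(u,v)
      · rw [Sym2.eq_iff] at he
        rcases he with ⟨rfl, rfl⟩ | ⟨rfl, rfl⟩
        · exact h4
        · exact h4.symm
      · exact h3 x y (by rw [SimpleGraph.deleteEdges_adj]; exact ⟨hxy, by simpa using he⟩)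
    · rintro ⟨h2, h3⟩
      refine ⟨⟨h2, fun x y hxy => ?_⟩, h3 u v huv⟩
      rw [SimpleGraph.deleteEdges_adj] at hxy
      exact h3 x y hxy.1
  · apply Finset.card_bij' (fun c _ => fun w : {w : V // w ≠ v} => c w.1)
      (fun c _ => c ∘ fold u v huv.ne)
    · intro c hc
      rw [Finset.mem_filter, mem_Cn] at hc
      obtain ⟨⟨h2, h3⟩, h4⟩ := hc
      push Not at h4
      rw [mem_Cn]
      refine ⟨fun w => h2 _, ?_⟩
      have hf : ∀ x, c (fold u v huv.ne x).1 = c x := by
        intro x
        by_cases hx : x = v
        · subst hx; rw [fold_v]; exact h4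
        · rw [fold_ne u v huv.ne hx]
      have key : ∀ x y, G.Adj x y → fold u v huv.ne x ≠ fold u v huv.ne y →
          c (fold u v huv.ne x).1 ≠ c (fold u v huv.ne y).1 := by
        intro x y hxy hne
        rw [hf, hf]
        apply h3
        rw [SimpleGraph.deleteEdges_adj]
        refine ⟨hxy, ?_⟩
        intro he
        simp only [Set.mem_singleton_iff, Sym2.eq_iff] at he
        rcases he with ⟨rfl, rfl⟩ | ⟨rfl, rfl⟩
        · apply hne; rw [fold_v, fold_ne x y huv.ne huv.ne]
        · apply hne; rw [fold_v, fold_ne y x huv.ne huv.ne]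
      intro a b hab
      unfold contr at hab
      rw [SimpleGraph.fromRel_adj] at hab
      obtain ⟨hne, h | h⟩ := hab
      · obtain ⟨x, y, hxy, rfl, rfl⟩ := h
        exact key x y hxy hne
      · obtain ⟨x, y, hxy, rfl, rfl⟩ := h
        exact (key x y hxy hne.symm).symm
    · intro c hc
      rw [mem_Cn] at hc
      obtain ⟨h2, h3⟩ := hc
      rw [Finset.mem_filter, mem_Cn]
      refine ⟨⟨fun w => h2 _, ?_⟩, ?_⟩
      · intro x y hxy
        rw [SimpleGraph.deleteEdges_adj] at hxy
        apply h3
        unfold contr
        rw [SimpleGraph.fromRel_adj]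
        refine ⟨?_, Or.inl ⟨x, y, hxy.1, rfl, rfl⟩⟩
        intro he
        have hxy2 := hxy.1.ne
        by_cases hx : x = v
        · subst hx
          rw [fold_v, fold_ne u x huv.ne hxy2.symm] at he
          have := congrArg Subtype.val he
          simp only at this
          subst this
          apply hxy.2
          simp [Sym2.eq_swap]
        · by_cases hy : y = v
          · subst hy
            rw [fold_v, fold_ne u y huv.ne hx] at he
            have := congrArg Subtype.val he
            simp only at this
            subst this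
            apply hxy.2
            simp
          · rw [fold_ne u v huv.ne hx, fold_ne u v huv.ne hy] at he
            have := congrArg Subtype.val he
            exact hxy2 this
      · push Not
        simp only [Function.comp]
        rw [fold_v, fold_ne u v huv.ne huv.ne]
    · intro c hc
      rw [Finset.mem_filter] at hc
      have h4 := hc.2
      push Not at h4
      funext x
      simp only [Function.comp]
      by_cases hx : x = v
      · subst hx; rw [fold_v]; exact h4
      · rw [fold_ne u v huv.ne hx]
    · intro c hc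
      funext w
      simp only [Function.comp]
      rw [fold_ne u v huv.ne w.2]

lemma F_del (G : SimpleGraph V) (u v : V) (huv : G.Adj u v) :
    F (G.deleteEdges {s(u,v)}) = F G + F (contr G u v huv.ne) := by
  classical
  ext n
  rw [map_add]
  simp only [F, PowerSeries.coeff_mk]
  have := card_del G u v huv n
  push_cast [this]
  rfl

/-- Existence of the nonnegative polynomial `H`. -/
theorem exists_H : ∀ (k : ℕ) (G : SimpleGraph V), G.edgeSet.ncard = k → 
    ∃ H : Polynomial ℤ, (H : ℤ⟦X⟧) = (1 - X : ℤ⟦X⟧) ^ (Fintype.card V) * (F (⊥ : SimpleGraph V) - F G) ∧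
      (∀ i, 0 ≤ H.coeff i) ∧ (H = 0 ∨ H.natDegree < Fintype.card V) := by
  classical
  intro k
  induction k with
  | zero =>
    intro G hG
    rw [Set.ncard_eq_zero (Set.toFinite _), SimpleGraph.edgeSet_eq_empty] at hG
    subst hG
    exact ⟨0, by simp, by simp, Or.inl rfl⟩
  | succ k ih =>
    intro G hG
    have hne : G.edgeSet.Nonempty := by
      rw [← Set.ncard_pos (Set.toFinite _)]; omega
    obtain ⟨e, he⟩ := hne
    induction e using Sym2.ind with
    | _ u v =>
    rw [SimpleGraph.mem_edgeSet] at he
    have hcard : (G.deleteEdges {s(u,v)}).edgeSet.ncard = k := by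
      rw [SimpleGraph.edgeSet_deleteEdges, Set.ncard_sdiff_singleton_of_mem (by simpa using he), hG]
      omega
    obtain ⟨H1, h1, h2, h3⟩ := ih _ hcard
    obtain ⟨h, h4, h5, h6⟩ := exists_poly (contr G u v he.ne)
    have hc : Fintype.card {w : V // w ≠ v} + 1 = Fintype.card V := by
      rw [Fintype.card_subtype_compl]
      simp only [Fintype.card_subtype_eq]
      have : 0 < Fintype.card V := Fintype.card_pos_iff.mpr ⟨v⟩
      omega
    refine ⟨H1 + h, ?_, ?_, ?_⟩
    · rw [Polynomial.coe_add, h1, h4, hc, F_del G u v he]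
      ring
    · intro i
      rw [Polynomial.coeff_add]
      exact add_nonneg (h2 i) (h5 i)
    · right
      have hh : h.natDegree < Fintype.card V := by omega
      rcases h3 with rfl | h3
      · simpa using hh
      · exact lt_of_le_of_lt (Polynomial.natDegree_add_le _ _) (max_lt h3 hh)
end Pool.Agent.X75.ChromH
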