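import Pool.Agent.X75.ChromH3
set_option autoImplicit false
open Finset
namespace Pool.Agent.X75.ChromH

/-- Numerator of the series of `n ^ d`. -/
noncomputable def E : ℕ → Polynomial ℤ
  | 0 => 1
  | (d+1) => Polynomial.X * ((1 - Polynomial.X) * Polynomial.derivative (E d) +
      Polynomial.C (d+1 : ℤ) * E d)

lemma coe_E (d : ℕ) : ((E d : Polynomial ℤ) : PowerSeries ℤ) =
    (1 - PowerSeries.X) ^ (d+1) * PowerSeries.mk (fun n => (n : ℤ) ^ d) := by
  induction d with
  | zero =>
    have : PowerSeries.mk (fun n : ℕ => (n : ℤ) ^ 0) = PowerSeries.mk 1 := by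
      ext n; simp
    rw [this]
    simp only [E, zero_add, pow_one, Polynomial.coe_one]
    rw [mul_comm]
    exact (PowerSeries.mk_one_mul_one_sub_eq_one ℤ).symm
  | succ d ih =>
    set M : PowerSeries ℤ := PowerSeries.mk (fun n => (n : ℤ) ^ d) with hM
    have h1 : PowerSeries.mk (fun n => (n : ℤ) ^ (d+1)) =
        PowerSeries.X * PowerSeries.derivative ℤ M := by
      ext n
      cases n with
      | zero => simp
      | succ n =>
        rw [PowerSeries.coeff_mk, PowerSeries.coeff_succ_X_mul,
          PowerSeries.coeff_derivative, hM, PowerSeries.coeff_mk]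
        push_cast
        ring
    have h2 : PowerSeries.derivative ℤ ((E d : Polynomial ℤ) : PowerSeries ℤ) =
        -((PowerSeries.C (d+1 : ℤ)) * ((1 - PowerSeries.X) ^ d * M)) +
          (1 - PowerSeries.X) ^ (d+1) * PowerSeries.derivative ℤ M := by
      rw [ih, Derivation.leibniz, PowerSeries.derivative_pow, map_sub,
        PowerSeries.derivative_one, PowerSeries.derivative_X]
      simp only [smul_eq_mul, Nat.add_sub_cancel, map_add, map_one, map_natCast]
      push_cast
      ring
    simp only [E]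
    rw [Polynomial.coe_mul, Polynomial.coe_add, Polynomial.coe_mul, Polynomial.coe_mul, Polynomial.coe_X,
      Polynomial.coe_sub, Polynomial.coe_one, Polynomial.coe_X, Polynomial.coe_C]
    rw [← PowerSeries.derivative_coe, h2, ih, h1]
    ring

lemma coeff_E_zero (d : ℕ) : (E (d+1)).coeff 0 = 0 := by
  simp [E]

lemma coeff_E_succ (d i : ℕ) : (E (d+1)).coeff (i+1) =
    (i+1) * (E d).coeff (i+1) + (d + 1 - i) * (E d).coeff i := by
  simp only [E]
  rw [Polynomial.coeff_X_mul, Polynomial.coeff_add, Polynomial.coeff_C_mul, sub_mul, one_mul,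
    Polynomial.coeff_sub, Polynomial.coeff_derivative]
  cases i with
  | zero =>
    simp only [Polynomial.coeff_X_mul_zero, zero_add]
    push_cast
    ring
  | succ i =>
    rw [Polynomial.coeff_X_mul, Polynomial.coeff_derivative]
    push_cast
    ring

lemma coeff_E_large : ∀ (d i : ℕ), d < i → (E d).coeff i = 0
  | 0, i, h => by
      simp only [E]
      rw [Polynomial.coeff_one]
      simp; omega
  | (d+1), 0, h => by omega
  | (d+1), (i+1), h => by
      rw [coeff_E_succ, coeff_E_large d (i+1) (by omega), coeff_E_large d i (by omega)]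
      simp

lemma coeff_E_nonneg : ∀ (d i : ℕ), 0 ≤ (E d).coeff i
  | 0, i => by
      simp only [E]
      rw [Polynomial.coeff_one]
      split_ifs <;> simp
  | (d+1), 0 => by rw [coeff_E_zero]
  | (d+1), (i+1) => by
      rw [coeff_E_succ]
      rcases Nat.lt_or_ge d i with h | h
      · rw [coeff_E_large d i h, coeff_E_large d (i+1) (by omega)]; simp
      · have h1 := coeff_E_nonneg d (i+1)
        have h2 := coeff_E_nonneg d i
        have h3 : (0 : ℤ) ≤ (d : ℤ) + 1 - i := by omega
        positivity

lemma coeff_E_symm : ∀ (d i j : ℕ), i + j = d + 2 → (E (d+1)).coeff i = (E (d+1)).coeff j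
  | 0, i, j, h => by
      have h1 : E 1 = Polynomial.X := by simp [E]
      rw [zero_add, h1, Polynomial.coeff_X, Polynomial.coeff_X]
      have : (1 = i) ↔ (1 = j) := by omega
      simp [this]
  | (d+1), 0, j, h => by
      rw [coeff_E_zero, coeff_E_large _ j (by omega)]
  | (d+1), (i+1), 0, h => by
      rw [coeff_E_zero, coeff_E_large _ (i+1) (by omega)]
  | (d+1), (i+1), (j+1), h => by
      rw [coeff_E_succ (d+1) i, coeff_E_succ (d+1) j]
      rw [coeff_E_symm d (i+1) j (by omega), coeff_E_symm d i (j+1) (by omega)]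
      have h1 : ((i : ℤ)) = (d : ℤ) + 1 + 2 - 1 - 1 - j := by omega
      rw [h1]
      push_cast
      ring

variable {V : Type*} [Fintype V]

lemma F_bot : F (⊥ : SimpleGraph V) = PowerSeries.mk (fun n => (n : ℤ) ^ (Fintype.card V)) := by
  classical
  ext n
  simp only [F, PowerSeries.coeff_mk]
  have : Cn (⊥ : SimpleGraph V) n = Fintype.piFinset (fun _ : V => Finset.range n) := by
    ext c
    rw [mem_Cn]
    simp [Fintype.mem_piFinset]
  rw [this, Fintype.card_piFinset]
  simp

lemma F_eq (G : SimpleGraph V) :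
    F G = PowerSeries.mk (fun n => (Nat.card (G.Coloring (Fin n)) : ℤ)) := by
  ext n
  simp only [F, PowerSeries.coeff_mk, card_Cn]

/-- `p` is `m`-symmetric: degree at most `m` and `p i = p (m - i)`. -/
def Symm (m : ℕ) (p : Polynomial ℤ) : Prop :=
  p.natDegree ≤ m ∧ ∀ i, i ≤ m → p.coeff i = p.coeff (m - i)

theorem main [Nonempty V] (G : SimpleGraph V) :
    ∃ h a b : Polynomial ℤ,
      (h : PowerSeries ℤ) = (1 - PowerSeries.X) ^ (Fintype.card V + 1) *
        PowerSeries.mk (fun n => (Nat.card (G.Coloring (Fin n)) : ℤ)) ∧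
      h.natDegree ≤ Fintype.card V ∧
      h = a + Polynomial.X * b ∧
      Symm (Fintype.card V) a ∧ Symm (Fintype.card V - 1) b ∧
      (∀ i, a.coeff i ≤ 0) ∧ (∀ i, 0 ≤ b.coeff i) := by
  classical
  obtain ⟨H, hH1, hH2, hH3⟩ := exists_H (V := V) _ G rfl
  obtain ⟨d, hd⟩ : ∃ d, Fintype.card V = d + 1 := ⟨Fintype.card V - 1, by
    have : 0 < Fintype.card V := Fintype.card_pos
    omega⟩
  have hHlarge : ∀ i, d < i → H.coeff i = 0 := by
    intro i hi
    rcases hH3 with h | h
    · rw [h]; simp
    · exact Polynomial.coeff_eq_zero_of_natDegree_lt (by omega)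
  rw [hd] at hH1
  -- polynomials
  let a : Polynomial ℤ := - ∑ i ∈ Finset.range (d+2), Polynomial.monomial i (H.coeff i + H.coeff (d+1-i))
  let b : Polynomial ℤ := ∑ i ∈ Finset.range (d+1),
    Polynomial.monomial i ((E (d+1)).coeff (i+1) + H.coeff i + H.coeff (d-i))
  have ha : ∀ i, a.coeff i = if i < d+2 then -(H.coeff i + H.coeff (d+1-i)) else 0 := by
    intro i
    simp only [a, Polynomial.coeff_neg, Polynomial.finsetSum_coeff, Polynomial.coeff_monomial]
    rw [Finset.sum_ite_eq' (Finset.range (d+2)) i]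
    simp only [Finset.mem_range]
    split_ifs <;> simp
  have hb : ∀ i, b.coeff i = if i < d+1 then ((E (d+1)).coeff (i+1) + H.coeff i + H.coeff (d-i)) else 0 := by
    intro i
    simp only [b, Polynomial.finsetSum_coeff, Polynomial.coeff_monomial]
    rw [Finset.sum_ite_eq' (Finset.range (d+1)) i]
    simp only [Finset.mem_range]
  have hab : E (d+1) - (1 - Polynomial.X) * H = a + Polynomial.X * b := by
    ext i
    rw [Polynomial.coeff_sub, sub_mul, one_mul, Polynomial.coeff_sub, Polynomial.coeff_add, ha]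
    cases i with
    | zero =>
      simp only [Polynomial.coeff_X_mul_zero, coeff_E_zero]
      have := hHlarge (d+1) (by omega)
      simp [this]
    | succ i =>
      rw [Polynomial.coeff_X_mul, Polynomial.coeff_X_mul, hb]
      by_cases h1 : i < d + 1
      · rw [if_pos (by omega), if_pos h1]
        have h2 : d + 1 - (i+1) = d - i := by omega
        rw [h2]
        ring
      · rw [if_neg (by omega), if_neg h1, hHlarge (i+1) (by omega), hHlarge i (by omega),
          coeff_E_large _ _ (by omega)]
        simp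
  refine ⟨E (d+1) - (1 - Polynomial.X) * H, a, b, ?_, ?_, hab, ⟨?_, ?_⟩, ⟨?_, ?_⟩, ?_, ?_⟩
  · rw [Polynomial.coe_sub, Polynomial.coe_mul, Polynomial.coe_sub, Polynomial.coe_one,
      Polynomial.coe_X, hH1, coe_E, ← F_eq, F_bot, hd]
    ring
  · rw [hd, Polynomial.natDegree_le_iff_coeff_eq_zero]
    intro i hi
    rw [Polynomial.coeff_sub, sub_mul, one_mul, Polynomial.coeff_sub]
    obtain ⟨j, rfl⟩ : ∃ j, i = j + 1 := ⟨i - 1, by omega⟩
    rw [Polynomial.coeff_X_mul, coeff_E_large _ _ hi, hHlarge _ (by omega), hHlarge _ (by omega)]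
    simp
  · rw [hd, Polynomial.natDegree_le_iff_coeff_eq_zero]
    intro i hi
    rw [ha, if_neg (by omega)]
  · intro i hi
    rw [hd] at hi ⊢
    rw [ha, ha, if_pos (by omega), if_pos (by omega)]
    have : d + 1 - (d + 1 - i) = i := by omega
    rw [this]
    ring
  · rw [hd, Polynomial.natDegree_le_iff_coeff_eq_zero]
    intro i hi
    rw [hb, if_neg (by omega)]
  · intro i hi
    rw [hd] at hi ⊢
    simp only [Nat.add_sub_cancel] at hi ⊢
    rw [hb, hb, if_pos (by omega), if_pos (by omega)]
    have : d - (d - i) = i := by omega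
    rw [this, coeff_E_symm d (i+1) (d - i + 1) (by omega)]
    ring
  · intro i
    rw [ha]
    split_ifs
    · have h1 := hH2 i
      have h2 := hH2 (d+1-i)
      omega
    · exact le_rfl
  · intro i
    rw [hb]
    split_ifs
    · have h1 := hH2 i
      have h2 := hH2 (d-i)
      have h3 := coeff_E_nonneg (d+1) (i+1)
      omega
    · exact le_rfl

end Pool.Agent.X75.ChromH
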