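import Mathlib
set_option autoImplicit false
open Finset
namespace Pool.Agent.X75.Fano

/-- A simplicial complex on the vertex set `Fin ℓ`, all of whose vertices are faces. -/
structure SimplicialComplex (ℓ : ℕ) where
  /-- the faces -/
  faces : Finset (Finset (Fin ℓ))
  /-- closed under taking subsets -/
  down_closed : ∀ s ∈ faces, ∀ t ⊆ s, t ∈ faces
  /-- every singleton is a face -/
  singleton_mem : ∀ i : Fin ℓ, {i} ∈ faces

section
variable {ℓ : ℕ} (F : Type) [Field F]

/-- The subspace `{x | ∑_{i ∈ s} a_i x_i = 0}` of `F ^ ℓ`. -/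
def hyperplane {F : Type} [Field F] (s : Finset (Fin ℓ)) (a : Fin ℓ → F) :
    Submodule F (Fin ℓ → F) :=
  LinearMap.ker (∑ i ∈ s, a i • (LinearMap.proj i : (Fin ℓ → F) →ₗ[F] F))

/-- The generalized `q`-deformation of `Δ` over the field `F`. -/
def deformation (Δ : SimplicialComplex ℓ) : Set (Submodule F (Fin ℓ → F)) :=
  {H | ∃ s ∈ Δ.faces, s.Nonempty ∧ ∃ a : Fin ℓ → F, (∀ i ∈ s, a i ≠ 0) ∧ H = hyperplane s a}

instance [Finite F] : Finite (Submodule F (Fin ℓ → F)) :=
  Finite.of_injective (fun W => (W : Set (Fin ℓ → F))) SetLike.coe_injective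

open Classical in
/-- The characteristic polynomial `∑_{I ⊆ A} (-1)^|I| t^(dim ⋂ I)` of a central arrangement. -/
noncomputable def charPoly [Finite F] (A : Set (Submodule F (Fin ℓ → F))) : Polynomial ℤ :=
  ∑ I ∈ (Set.toFinite A).toFinset.powerset,
    (-1) ^ I.card * Polynomial.X ^ (Module.finrank F (sInf (I : Set (Submodule F (Fin ℓ → F))) : Submodule F (Fin ℓ → F)))

end

section
variable {ℓ : ℕ} {F : Type} [Field F]

lemma mem_hyperplane (s : Finset (Fin ℓ)) (a : Fin ℓ → F) (x : Fin ℓ → F) :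
    x ∈ hyperplane s a ↔ ∑ i ∈ s, a i * x i = 0 := by
  simp [hyperplane, LinearMap.mem_ker]

open Classical in
/-- The finite field method. -/
theorem charPoly_eval [Fintype F] (A : Set (Submodule F (Fin ℓ → F))) (k : ℕ) :
    (charPoly F A).eval ((Fintype.card F : ℤ) ^ k) =
      ((Finset.univ.filter (fun v : Fin k → Fin ℓ → F => ∀ H ∈ A, ∃ j, v j ∉ H)).card : ℤ) := by
  have h1 : ∀ I : Finset (Submodule F (Fin ℓ → F)),
      ((Fintype.card F : ℤ) ^ k) ^ (Module.finrank F (sInf (I : Set (Submodule F (Fin ℓ → F))) : Submodule F (Fin ℓ → F)))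
      = ∑ v : Fin k → Fin ℓ → F, if (∀ H ∈ I, ∀ j, v j ∈ H) then (1 : ℤ) else 0 := by
    intro I
    rw [Finset.sum_boole]
    set W : Submodule F (Fin ℓ → F) := sInf (I : Set (Submodule F (Fin ℓ → F))) with hW
    have hWm : ∀ x, x ∈ W ↔ ∀ H ∈ I, x ∈ H := by
      intro x
      rw [hW, Submodule.mem_sInf]
      simp
    have hc : Fintype.card W = Fintype.card F ^ Module.finrank F W := Module.card_eq_pow_finrank
    have h2 : (Finset.univ.filter (fun v : Fin k → Fin ℓ → F => ∀ H ∈ I, ∀ j, v j ∈ H)).card =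
        Fintype.card (Fin k → W) := by
      rw [← Fintype.card_coe]
      apply Fintype.card_congr
      refine
        { toFun := fun v j => ⟨v.1 j, ?_⟩
          invFun := fun v => ⟨fun j => (v j : Fin ℓ → F), ?_⟩
          left_inv := ?_
          right_inv := ?_ }
      · rw [hWm]
        intro H hH
        have := (Finset.mem_filter.mp v.2).2
        exact this H hH j
      · rw [Finset.mem_filter]
        refine ⟨Finset.mem_univ _, fun H hH j => ?_⟩
        exact (hWm _).mp (v j).2 H hH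
      · intro v; rfl
      · intro v; rfl
    rw [h2, Fintype.card_fun, hc, Fintype.card_fin]
    push_cast
    rw [← pow_mul, ← pow_mul, mul_comm]
  unfold charPoly
  rw [Polynomial.eval_finsetSum]
  simp only [Polynomial.eval_mul, Polynomial.eval_pow, Polynomial.eval_neg, Polynomial.eval_one,
    Polynomial.eval_X]
  simp_rw [h1, Finset.mul_sum]
  rw [Finset.sum_comm]
  have h3 : ∀ v : Fin k → Fin ℓ → F,
      ∑ I ∈ (Set.toFinite A).toFinset.powerset,
        (-1 : ℤ) ^ I.card * (if (∀ H ∈ I, ∀ j, v j ∈ H) then (1 : ℤ) else 0) =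
      if (∀ H ∈ A, ∃ j, v j ∉ H) then 1 else 0 := by
    intro v
    let B := (Set.toFinite A).toFinset.filter (fun H => ∀ j, v j ∈ H)
    have hB : (Set.toFinite A).toFinset.powerset.filter (fun I => ∀ H ∈ I, ∀ j, v j ∈ H) =
        B.powerset := by
      ext I
      simp only [Finset.mem_filter, Finset.mem_powerset, B]
      constructor
      · rintro ⟨h4, h5⟩ H hH
        exact Finset.mem_filter.mpr ⟨h4 hH, h5 H hH⟩
      · intro h4
        exact ⟨fun H hH => (Finset.mem_filter.mp (h4 hH)).1, fun H hH => (Finset.mem_filter.mp (h4 hH)).2⟩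
    have h6 : ∑ I ∈ (Set.toFinite A).toFinset.powerset,
        (-1 : ℤ) ^ I.card * (if (∀ H ∈ I, ∀ j, v j ∈ H) then (1 : ℤ) else 0) =
        ∑ I ∈ B.powerset, (-1 : ℤ) ^ I.card := by
      rw [← hB, Finset.sum_filter]
      apply Finset.sum_congr rfl
      intro I _
      split_ifs <;> simp
    have h7 : B = ∅ ↔ ∀ H ∈ A, ∃ j, v j ∉ H := by
      constructor
      · intro h H hH
        by_contra hcon
        push Not at hcon
        have : H ∈ B := Finset.mem_filter.mpr ⟨(Set.toFinite A).mem_toFinset.mpr hH, hcon⟩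
        rw [h] at this
        simp at this
      · intro h
        rw [Finset.eq_empty_iff_forall_notMem]
        intro H hH
        have h8 := Finset.mem_filter.mp hH
        obtain ⟨j, hj⟩ := h H ((Set.toFinite A).mem_toFinset.mp h8.1)
        exact hj (h8.2 j)
    rw [h6, Finset.sum_powerset_neg_one_pow_card]
    exact if_congr h7 rfl rfl
  rw [Finset.sum_congr rfl (fun v _ => h3 v), Finset.sum_boole]

/-- the dependency relation -/
def Dep {k : ℕ} (v : Fin k → Fin ℓ → F) (s : Finset (Fin ℓ)) : Prop :=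
  ∃ a : Fin ℓ → F, (∀ i ∈ s, a i ≠ 0) ∧ ∀ j, ∑ i ∈ s, a i * v j i = 0

lemma good_iff (Δ : SimplicialComplex ℓ) {k : ℕ} (v : Fin k → Fin ℓ → F) :
    (∀ H ∈ deformation F Δ, ∃ j, v j ∉ H) ↔ ∀ s ∈ Δ.faces, s.Nonempty → ¬ Dep v s := by
  constructor
  · intro h s hs hne hd
    obtain ⟨a, ha, hj⟩ := hd
    obtain ⟨j, hj'⟩ := h (hyperplane s a) ⟨s, hs, hne, a, ha, rfl⟩
    exact hj' ((mem_hyperplane s a _).mpr (hj j))
  · rintro h H ⟨s, hs, hne, a, ha, rfl⟩
    by_contra hcon
    push Not at hcon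
    exact h s hs hne ⟨a, ha, fun j => (mem_hyperplane s a _).mp (hcon j)⟩

/-- independence from non-dependency of all subsets -/
lemma indep {k : ℕ} (v : Fin k → Fin ℓ → F) (t : Finset (Fin ℓ))
    (h : ∀ s ⊆ t, s.Nonempty → ¬ Dep v s) (a : Fin ℓ → F) (ha : ∀ j, ∑ i ∈ t, a i * v j i = 0) :
    ∀ i ∈ t, a i = 0 := by
  classical
  by_contra hcon
  push Not at hcon
  obtain ⟨i, hi, hai⟩ := hcon
  apply h (t.filter (fun i => a i ≠ 0)) (Finset.filter_subset _ _)
    ⟨i, Finset.mem_filter.mpr ⟨hi, hai⟩⟩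
  refine ⟨a, fun i hi => (Finset.mem_filter.mp hi).2, fun j => ?_⟩
  have h5 : ∑ i ∈ t.filter (fun i => a i ≠ 0), a i * v j i = ∑ i ∈ t, a i * v j i := by
    apply Finset.sum_filter_of_ne
    intro i _ hne h0
    rw [h0] at hne
    simp at hne
  rw [h5, ha j]

end

/-- the lines of the Fano plane -/
def lines : Finset (Finset (Fin 7)) :=
  {{0,1,2},{0,3,4},{1,3,5},{0,5,6},{1,4,6},{2,3,6},{2,4,5}}

/-- The complexes: complete graph on seven vertices, all triples which are not lines, and the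
lines in `L`. -/
def cplx (L : Finset (Finset (Fin 7))) : SimplicialComplex 7 where
  faces := Finset.univ.filter (fun s => s.card ≤ 2 ∨ (s.card = 3 ∧ (s ∉ lines ∨ s ∈ L)))
  down_closed := by
    intro s hs t hts
    rw [Finset.mem_filter] at hs ⊢
    refine ⟨Finset.mem_univ _, ?_⟩
    have hc := Finset.card_le_card hts
    rcases hs.2 with h | ⟨h, h'⟩
    · left; omega
    · rcases Nat.lt_or_ge t.card 3 with h3 | h3
      · left; omega
      · have : t = s := Finset.eq_of_subset_of_card_le hts (by omega)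
        rw [this]; right; exact ⟨h, h'⟩
  singleton_mem := by
    intro i
    rw [Finset.mem_filter]
    exact ⟨Finset.mem_univ _, Or.inl (by simp)⟩

section
variable {F : Type} [Field F]

/-- base condition -/
def Base (v : Fin 3 → Fin 7 → F) : Prop :=
  ∀ s : Finset (Fin 7), (s.card ≤ 2 ∨ (s.card = 3 ∧ s ∉ lines)) → s.Nonempty → ¬ Dep v s

lemma lines_card : ∀ s ∈ lines, s.card = 3 := by
  intro s hs
  simp only [lines, Finset.mem_insert, Finset.mem_singleton] at hs
  rcases hs with rfl | rfl | rfl | rfl | rfl | rfl | rfl <;> rfl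

lemma good_cplx (L : Finset (Finset (Fin 7))) (hL : L ⊆ lines) (v : Fin 3 → Fin 7 → F) :
    (∀ H ∈ deformation F (cplx L), ∃ j, v j ∉ H) ↔ Base v ∧ ∀ s ∈ L, ¬ Dep v s := by
  rw [good_iff]
  constructor
  · intro h
    refine ⟨fun s hs hne => h s ?_ hne, fun s hs => h s ?_ ?_⟩
    · simp only [cplx, Finset.mem_filter]
      refine ⟨Finset.mem_univ _, ?_⟩
      rcases hs with h | h
      · exact Or.inl h
      · exact Or.inr ⟨h.1, Or.inl h.2⟩
    · simp only [cplx, Finset.mem_filter]
      exact ⟨Finset.mem_univ _, Or.inr ⟨lines_card s (hL hs), Or.inr hs⟩⟩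
    · rw [← Finset.card_pos, lines_card s (hL hs)]; norm_num
  · rintro ⟨h1, h2⟩ s hs hne
    simp only [cplx, Finset.mem_filter] at hs
    rcases hs.2 with h | ⟨h, h' | h'⟩
    · exact h1 s (Or.inl h) hne
    · exact h1 s (Or.inr ⟨h, h'⟩) hne
    · exact h2 s h'

/-- the number of Fano representations -/
noncomputable def fanoCount (F : Type) [Field F] : ℕ :=
  Nat.card {v : Fin 3 → Fin 7 → F // Base v ∧ ∀ s ∈ lines, Dep v s}

theorem alt_sum (F : Type) [Field F] [Fintype F] :
    ∑ L ∈ lines.powerset, (-1 : ℤ) ^ L.card *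
      (charPoly F (deformation F (cplx L))).eval ((Fintype.card F : ℤ) ^ 3) = (fanoCount F : ℤ) := by
  classical
  have h1 : ∀ L ∈ lines.powerset, (-1 : ℤ) ^ L.card *
      (charPoly F (deformation F (cplx L))).eval ((Fintype.card F : ℤ) ^ 3) =
      ∑ v : Fin 3 → Fin 7 → F, (-1 : ℤ) ^ L.card * (if (Base v ∧ ∀ s ∈ L, ¬ Dep v s) then (1 : ℤ) else 0) := by
    intro L hL
    rw [charPoly_eval, ← Finset.mul_sum, Finset.sum_boole]
    congr 3
    ext v
    simp only [Finset.mem_filter, Finset.mem_univ, true_and]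
    exact good_cplx L (Finset.mem_powerset.mp hL) v
  rw [Finset.sum_congr rfl h1, Finset.sum_comm]
  have h2 : ∀ v : Fin 3 → Fin 7 → F,
      ∑ L ∈ lines.powerset, (-1 : ℤ) ^ L.card * (if (Base v ∧ ∀ s ∈ L, ¬ Dep v s) then (1 : ℤ) else 0) =
      if (Base v ∧ ∀ s ∈ lines, Dep v s) then 1 else 0 := by
    intro v
    by_cases hb : Base v
    · simp only [hb, true_and]
      let B := lines.filter (fun s => ¬ Dep v s)
      have hB : lines.powerset.filter (fun L => ∀ s ∈ L, ¬ Dep v s) = B.powerset := by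
        ext L
        simp only [Finset.mem_filter, Finset.mem_powerset, B]
        constructor
        · rintro ⟨h4, h5⟩ s hs
          exact Finset.mem_filter.mpr ⟨h4 hs, h5 s hs⟩
        · intro h4
          exact ⟨fun s hs => (Finset.mem_filter.mp (h4 hs)).1, fun s hs => (Finset.mem_filter.mp (h4 hs)).2⟩
      have h6 : ∑ L ∈ lines.powerset, (-1 : ℤ) ^ L.card * (if (∀ s ∈ L, ¬ Dep v s) then (1 : ℤ) else 0) =
          ∑ L ∈ B.powerset, (-1 : ℤ) ^ L.card := by
        rw [← hB, Finset.sum_filter]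
        apply Finset.sum_congr rfl
        intro I _
        split_ifs <;> simp
      have h7 : B = ∅ ↔ ∀ s ∈ lines, Dep v s := by
        constructor
        · intro h s hs
          by_contra hcon
          have : s ∈ B := Finset.mem_filter.mpr ⟨hs, hcon⟩
          rw [h] at this
          simp at this
        · intro h
          rw [Finset.eq_empty_iff_forall_notMem]
          intro s hs
          have := Finset.mem_filter.mp hs
          exact this.2 (h s this.1)
      rw [h6, Finset.sum_powerset_neg_one_pow_card]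
      exact if_congr h7 rfl rfl
    · simp [hb]
  rw [Finset.sum_congr rfl (fun v _ => h2 v), Finset.sum_boole]
  unfold fanoCount
  rw [Nat.card_eq_fintype_card, Fintype.card_subtype]

end


section
variable {F : Type} [Field F]

lemma sum3 {k : ℕ} (a : Fin 7 → F) (v : Fin k → Fin 7 → F) (j : Fin k) (x y z : Fin 7)
    (hxy : x ≠ y) (hxz : x ≠ z) (hyz : y ≠ z) :
    ∑ i ∈ ({x, y, z} : Finset (Fin 7)), a i * v j i = a x * v j x + a y * v j y + a z * v j z := by
  rw [Finset.sum_insert, Finset.sum_insert, Finset.sum_singleton, add_assoc]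
  · simpa using hyz
  · simp [hxy, hxz]

/-- The Fano plane is only representable in characteristic two. -/
theorem no_fano (h2 : (2 : F) ≠ 0) (v : Fin 3 → Fin 7 → F) (hb : Base v)
    (hl : ∀ s ∈ lines, Dep v s) : False := by
  -- independence of the columns 0, 1, 3
  have hind : ∀ x y z : F, (∀ j, x * v j 0 + y * v j 1 + z * v j 3 = 0) → x = 0 ∧ y = 0 ∧ z = 0 := by
    intro x y z h
    have key := indep v ({0, 1, 3} : Finset (Fin 7)) (by
      intro s hs hne
      apply hb s _ hne
      have hc := Finset.card_le_card hs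
      rcases Nat.lt_or_ge s.card 3 with h3 | h3
      · left; omega
      · right
        have hs3 : s = {0, 1, 3} := Finset.eq_of_subset_of_card_le hs h3
        subst hs3
        refine ⟨rfl, ?_⟩
        decide) (fun i => if i = 0 then x else if i = 1 then y else z) (by
        intro j
        rw [sum3 _ _ _ 0 1 3 (by decide) (by decide) (by decide)]
        simpa using h j)
    have e0 := key 0 (by decide)
    have e1 := key 1 (by decide)
    have e3 := key 3 (by decide)
    simp at e0 e1 e3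
    exact ⟨e0, e1, e3⟩
  obtain ⟨a, ha, ha'⟩ := hl {0,1,2} (by simp [lines])
  obtain ⟨b, hb', hb''⟩ := hl {0,3,4} (by simp [lines])
  obtain ⟨d, hd, hd'⟩ := hl {1,3,5} (by simp [lines])
  obtain ⟨e, he, he'⟩ := hl {0,5,6} (by simp [lines])
  obtain ⟨f, hf, hf'⟩ := hl {1,4,6} (by simp [lines])
  obtain ⟨g, hg, hg'⟩ := hl {2,3,6} (by simp [lines])
  obtain ⟨h, hh, hh'⟩ := hl {2,4,5} (by simp [lines])
  have a0 := ha 0 (by simp)
  have a1 := ha 1 (by simp)
  have a2 := ha 2 (by simp)
  have b0 := hb' 0 (by simp)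
  have b3 := hb' 3 (by simp)
  have b4 := hb' 4 (by simp)
  have d1 := hd 1 (by simp)
  have d3 := hd 3 (by simp)
  have d5 := hd 5 (by simp)
  have e0 := he 0 (by simp)
  have e5 := he 5 (by simp)
  have e6 := he 6 (by simp)
  have f1 := hf 1 (by simp)
  have f4 := hf 4 (by simp)
  have f6 := hf 6 (by simp)
  have g2 := hg 2 (by simp)
  have g3 := hg 3 (by simp)
  have g6 := hg 6 (by simp)
  have h2' := hh 2 (by simp)
  have h4 := hh 4 (by simp)
  have h5 := hh 5 (by simp)
  have A : ∀ j, a 0 * v j 0 + a 1 * v j 1 + a 2 * v j 2 = 0 := fun j => by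
    have := ha' j; rwa [sum3 _ _ _ 0 1 2 (by decide) (by decide) (by decide)] at this
  have B : ∀ j, b 0 * v j 0 + b 3 * v j 3 + b 4 * v j 4 = 0 := fun j => by
    have := hb'' j; rwa [sum3 _ _ _ 0 3 4 (by decide) (by decide) (by decide)] at this
  have D : ∀ j, d 1 * v j 1 + d 3 * v j 3 + d 5 * v j 5 = 0 := fun j => by
    have := hd' j; rwa [sum3 _ _ _ 1 3 5 (by decide) (by decide) (by decide)] at this
  have E : ∀ j, e 0 * v j 0 + e 5 * v j 5 + e 6 * v j 6 = 0 := fun j => by
    have := he' j; rwa [sum3 _ _ _ 0 5 6 (by decide) (by decide) (by decide)] at this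
  have F' : ∀ j, f 1 * v j 1 + f 4 * v j 4 + f 6 * v j 6 = 0 := fun j => by
    have := hf' j; rwa [sum3 _ _ _ 1 4 6 (by decide) (by decide) (by decide)] at this
  have G : ∀ j, g 2 * v j 2 + g 3 * v j 3 + g 6 * v j 6 = 0 := fun j => by
    have := hg' j; rwa [sum3 _ _ _ 2 3 6 (by decide) (by decide) (by decide)] at this
  have H : ∀ j, h 2 * v j 2 + h 4 * v j 4 + h 5 * v j 5 = 0 := fun j => by
    have := hh' j; rwa [sum3 _ _ _ 2 4 5 (by decide) (by decide) (by decide)] at this
  -- comparison of the two expressions for column 6 (E and G)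
  obtain ⟨p0, p1, p3⟩ := hind (d 5 * e 6 * g 2 * a 0 + a 2 * g 6 * d 5 * e 0)
    (d 5 * e 6 * g 2 * a 1 - a 2 * g 6 * e 5 * d 1)
    (-(d 5 * e 6 * a 2 * g 3) - a 2 * g 6 * e 5 * d 3) (fun j => by
      linear_combination (d 5 * e 6 * g 2) * A j - (d 5 * e 6 * a 2) * G j
        + (a 2 * g 6 * d 5) * E j - (a 2 * g 6 * e 5) * D j)
  obtain ⟨q0, q1, q3⟩ := hind (b 4 * f 6 * g 2 * a 0 - a 2 * g 6 * f 4 * b 0)
    (b 4 * f 6 * g 2 * a 1 + a 2 * g 6 * b 4 * f 1)
    (-(b 4 * f 6 * a 2 * g 3) - a 2 * g 6 * f 4 * b 3) (fun j => by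
      linear_combination (b 4 * f 6 * g 2) * A j - (b 4 * f 6 * a 2) * G j
        + (a 2 * g 6 * b 4) * F' j - (a 2 * g 6 * f 4) * B j)
  obtain ⟨r0, r1, r3⟩ := hind (h 2 * b 4 * d 5 * a 0 + h 4 * a 2 * d 5 * b 0)
    (h 2 * b 4 * d 5 * a 1 + h 5 * a 2 * b 4 * d 1)
    (h 4 * a 2 * d 5 * b 3 + h 5 * a 2 * b 4 * d 3) (fun j => by
      linear_combination (h 2 * b 4 * d 5) * A j + (h 4 * a 2 * d 5) * B j
        + (h 5 * a 2 * b 4) * D j - (a 2 * b 4 * d 5) * H j)
  -- consequences
  have s1 : b 4 * (f 6 * g 2 * a 0) = b 4 * 0 + a 2 * g 6 * f 4 * b 0 := by linear_combination q0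
  have s2 : d 5 * e 6 * g 2 * a 1 = a 2 * g 6 * e 5 * d 1 := by linear_combination p1
  have s3 : d 5 * e 6 * g 3 = - (g 6 * e 5 * d 3) := by
    have : a 2 * (d 5 * e 6 * g 3 + g 6 * e 5 * d 3) = 0 := by linear_combination -p3
    have := (mul_eq_zero.mp this).resolve_left a2
    linear_combination this
  have s4 : b 4 * f 6 * g 3 = - (g 6 * f 4 * b 3) := by
    have : a 2 * (b 4 * f 6 * g 3 + g 6 * f 4 * b 3) = 0 := by linear_combination -q3
    have := (mul_eq_zero.mp this).resolve_left a2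
    linear_combination this
  -- a0 * b3 * d1 = a1 * b0 * d3
  have K1 : a 0 * b 3 * d 1 = a 1 * b 0 * d 3 := by
    have hK : b 4 * f 6 * g 2 * g 6 * f 4 * a 2 * g 6 * e 5 ≠ 0 := by
      repeat' first | exact mul_ne_zero ‹_› ‹_› | apply mul_ne_zero | assumption
    apply mul_left_cancel₀ hK
    have u1 : b 4 * f 6 * g 2 * a 0 = a 2 * g 6 * f 4 * b 0 := by linear_combination s1
    have u4 : g 6 * f 4 * b 3 = -(b 4 * f 6 * g 3) := by linear_combination s4
    have u2 : a 2 * g 6 * e 5 * d 1 = d 5 * e 6 * g 2 * a 1 := by linear_combination -s2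
    have u3 : g 6 * e 5 * d 3 = -(d 5 * e 6 * g 3) := by linear_combination s3
    linear_combination (g 6 * f 4 * b 3) * (a 2 * g 6 * e 5 * d 1) * u1
      + (a 2 * g 6 * f 4 * b 0) * (a 2 * g 6 * e 5 * d 1) * u4
      + (a 2 * g 6 * f 4 * b 0) * (-(b 4 * f 6 * g 3)) * u2
      - (a 1 * b 0 * b 4 * f 6 * g 2 * f 4 * a 2 * g 6) * u3
  have t1 : h 2 * b 4 * a 0 = - (h 4 * a 2 * b 0) := by
    have : d 5 * (h 2 * b 4 * a 0 + h 4 * a 2 * b 0) = 0 := by linear_combination r0
    have := (mul_eq_zero.mp this).resolve_left d5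
    linear_combination this
  have t2 : h 2 * d 5 * a 1 = - (h 5 * a 2 * d 1) := by
    have : b 4 * (h 2 * d 5 * a 1 + h 5 * a 2 * d 1) = 0 := by linear_combination r1
    have := (mul_eq_zero.mp this).resolve_left b4
    linear_combination this
  have t3 : h 4 * d 5 * b 3 = - (h 5 * b 4 * d 3) := by
    have : a 2 * (h 4 * d 5 * b 3 + h 5 * b 4 * d 3) = 0 := by linear_combination r3
    have := (mul_eq_zero.mp this).resolve_left a2
    linear_combination this
  have K2 : a 0 * b 3 * d 1 = - (a 1 * b 0 * d 3) := by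
    have hK : h 2 * b 4 * h 4 * d 5 * h 5 * a 2 ≠ 0 := by
      repeat' first | exact mul_ne_zero ‹_› ‹_› | apply mul_ne_zero | assumption
    apply mul_left_cancel₀ hK
    have u2 : h 5 * a 2 * d 1 = -(h 2 * d 5 * a 1) := by linear_combination t2
    linear_combination (h 4 * d 5 * b 3) * (h 5 * a 2 * d 1) * t1
      + (-(h 4 * a 2 * b 0)) * (h 5 * a 2 * d 1) * t3
      + (-(h 4 * a 2 * b 0)) * (-(h 5 * b 4 * d 3)) * u2
  have : (2 : F) * (a 0 * b 3 * d 1) = 0 := by
    have h9 : (2 : F) * (a 0 * b 3 * d 1) = a 0 * b 3 * d 1 + a 0 * b 3 * d 1 := by ring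
    rw [h9]
    nth_rewrite 1 [K1]
    rw [K2]; ring
  exact (mul_ne_zero (mul_ne_zero a0 b3) d1) ((mul_eq_zero.mp this).resolve_left h2)

end


/-- the standard representation over the field with two elements -/
def vstd : Fin 3 → Fin 7 → ZMod 2 :=
  ![![1,0,1,0,1,0,1], ![0,1,1,0,0,1,1], ![0,0,0,1,1,1,1]]

lemma dep_iff_two (s : Finset (Fin 7)) (v : Fin 3 → Fin 7 → ZMod 2) :
    Dep v s ↔ ∀ j, ∑ i ∈ s, v j i = 0 := by
  constructor
  · rintro ⟨a, ha, h⟩ j
    rw [← h j]
    apply Finset.sum_congr rfl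
    intro i hi
    have h1 : a i = 1 := by
      have := ha i hi
      revert this
      generalize a i = x
      revert x
      decide
    rw [h1, one_mul]
  · intro h
    exact ⟨fun _ => 1, fun _ _ => one_ne_zero, fun j => by simpa using h j⟩

lemma base_std : Base vstd := by
  intro s hs hne
  rw [dep_iff_two]
  revert s
  unfold lines
  decide +kernel

lemma lines_std : ∀ s ∈ lines, Dep vstd s := by
  intro s hs
  rw [dep_iff_two]
  simp only [lines, Finset.mem_insert, Finset.mem_singleton] at hs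
  rcases hs with rfl | rfl | rfl | rfl | rfl | rfl | rfl <;> decide

lemma fano_two : 0 < fanoCount (ZMod 2) := by
  unfold fanoCount
  have : Nonempty {v : Fin 3 → Fin 7 → ZMod 2 // Base v ∧ ∀ s ∈ lines, Dep v s} :=
    ⟨⟨vstd, base_std, lines_std⟩⟩
  exact Nat.card_pos

lemma fano_odd (p : ℕ) [Fact p.Prime] (hp : p ≠ 2) : fanoCount (ZMod p) = 0 := by
  unfold fanoCount
  have : IsEmpty {v : Fin 3 → Fin 7 → ZMod p // Base v ∧ ∀ s ∈ lines, Dep v s} := by
    constructor
    rintro ⟨v, hv1, hv2⟩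
    refine no_fano ?_ v hv1 hv2
    intro h
    have h2 : ((2 : ℕ) : ZMod p) = 0 := by exact_mod_cast h
    rw [ZMod.natCast_eq_zero_iff] at h2
    exact hp ((Nat.prime_dvd_prime_iff_eq Fact.out Nat.prime_two).mp h2)
  exact Nat.card_of_isEmpty

/-- **Main theorem.** -/
theorem main : ∃ Δ : SimplicialComplex 7, ¬ ∃ P : MvPolynomial (Fin 2) ℂ,
    ∀ (F : Type) [Field F] [Fintype F] (t : ℂ),
      Polynomial.aeval t (charPoly F (deformation F Δ)) =
        MvPolynomial.eval ![(Fintype.card F : ℂ), t] P := by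
  by_contra hcon
  push Not at hcon
  choose P hP using fun L : Finset (Finset (Fin 7)) => hcon (cplx L)
  let R : Polynomial ℂ := ∑ L ∈ lines.powerset, (-1) ^ L.card *
    MvPolynomial.aeval ![(Polynomial.X : Polynomial ℂ), Polynomial.X ^ 3] (P L)
  have hR : ∀ (F : Type) [Field F] [Fintype F], R.eval (Fintype.card F : ℂ) = (fanoCount F : ℂ) := by
    intro F _ _
    have h1 := congrArg (fun z : ℤ => (z : ℂ)) (alt_sum F)
    simp only [Int.cast_natCast] at h1
    rw [← h1]
    simp only [R]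
    rw [Polynomial.eval_finsetSum, Int.cast_sum]
    apply Finset.sum_congr rfl
    intro L _
    rw [Polynomial.eval_mul, Int.cast_mul]
    congr 1
    · simp
    · have h2 := hP L F ((Fintype.card F : ℂ) ^ 3)
      have h3 : Polynomial.eval (Fintype.card F : ℂ)
          (MvPolynomial.aeval ![(Polynomial.X : Polynomial ℂ), Polynomial.X ^ 3] (P L)) =
          MvPolynomial.eval ![(Fintype.card F : ℂ), (Fintype.card F : ℂ) ^ 3] (P L) := by
        rw [← Polynomial.coe_evalRingHom, MvPolynomial.aeval_def, MvPolynomial.hom_eval₂]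
        rw [MvPolynomial.eval, MvPolynomial.coe_eval₂Hom]
        congr 1
        · ext x; simp
        · funext i
          fin_cases i <;> simp
      rw [h3, ← h2]
      have h4 : ((Fintype.card F : ℂ) ^ 3) = (((Fintype.card F : ℤ) ^ 3 : ℤ) : ℂ) := by push_cast; rfl
      rw [h4]
      rw [Polynomial.aeval_def, Polynomial.eval₂_eq_eval_map]
      rw [← eq_intCast (algebraMap ℤ ℂ), Polynomial.eval_map_algebraMap, Polynomial.aeval_algebraMap_apply]
      simp
  have hzero : R = 0 := by
    apply Polynomial.eq_zero_of_infinite_isRoot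
    have hinf : Set.Infinite {p : ℕ | p.Prime ∧ p ≠ 2} := by
      have h5 := Nat.infinite_setOfPred_prime
      have : {p : ℕ | p.Prime} ⊆ {p : ℕ | p.Prime ∧ p ≠ 2} ∪ {2} := by
        intro p hp
        by_cases h : p = 2
        · right; exact h
        · left; exact ⟨hp, h⟩
      by_contra h6
      rw [Set.not_infinite] at h6
      exact h5 ((h6.union (Set.finite_singleton 2)).subset this)
    have hinj : Set.InjOn (fun n : ℕ => (n : ℂ)) {p : ℕ | p.Prime ∧ p ≠ 2} :=
      fun a _ b _ h => Nat.cast_injective h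
    refine (hinf.image hinj).mono ?_
    rintro _ ⟨p, ⟨hp, hp2⟩, rfl⟩
    have : Fact p.Prime := ⟨hp⟩
    have := hR (ZMod p)
    rw [fano_odd p hp2, ZMod.card] at this
    simpa using this
  have h2 := hR (ZMod 2)
  rw [hzero, Polynomial.eval_zero] at h2
  have h3 := fano_two
  have h4 : fanoCount (ZMod 2) = 0 := by exact_mod_cast h2.symm
  omega

end Pool.Agent.X75.Fano
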