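import Mathlib
set_option autoImplicit false
open Finset
namespace Pool.Agent.X75.PGL

/-- commuting graph of a group on its noncentral elements -/
def commutingGraph (G : Type*) [Group G] : SimpleGraph {x : G // x ∉ Subgroup.center G} where
  Adj x y := x ≠ y ∧ (x : G) * y = y * x
  symm := ⟨fun _ _ h => ⟨h.1.symm, h.2.symm⟩⟩
  loopless := ⟨fun _ h => h.1 rfl⟩

section mat
variable {F : Type*} [Field F]

lemma commute_nonscalar (A C : Matrix (Fin 2) (Fin 2) F)
    (hA : ¬ ∃ t : F, A = t • (1 : Matrix (Fin 2) (Fin 2) F)) (h : A * C = C * A) :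
    ∃ x y : F, C = x • (1 : Matrix (Fin 2) (Fin 2) F) + y • A := by
  have e00 := congrFun (congrFun h 0) 0
  have e01 := congrFun (congrFun h 0) 1
  have e10 := congrFun (congrFun h 1) 0
  have e11 := congrFun (congrFun h 1) 1
  simp only [Matrix.mul_apply, Fin.sum_univ_two] at e00 e01 e10 e11
  by_cases hb : A 0 1 = 0
  · by_cases hc : A 1 0 = 0
    · -- diagonal, distinct entries
      have had : A 0 0 - A 1 1 ≠ 0 := by
        intro h0
        apply hA
        refine ⟨A 0 0, ?_⟩
        ext i j
        fin_cases i <;> fin_cases j <;> simp [hb, hc]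
        exact (sub_eq_zero.mp h0).symm
      have hC01 : C 0 1 = 0 := by
        have : (A 0 0 - A 1 1) * C 0 1 = 0 := by rw [hb] at e01; linear_combination e01
        exact (mul_eq_zero.mp this).resolve_left had
      have hC10 : C 1 0 = 0 := by
        have : (A 0 0 - A 1 1) * C 1 0 = 0 := by rw [hc] at e10; linear_combination -e10
        exact (mul_eq_zero.mp this).resolve_left had
      refine ⟨C 0 0 - (C 0 0 - C 1 1) / (A 0 0 - A 1 1) * A 0 0,
        (C 0 0 - C 1 1) / (A 0 0 - A 1 1), ?_⟩
      ext i j
      fin_cases i <;> fin_cases j <;> simp [hb, hc, hC01, hC10]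
      field_simp
      ring
    · refine ⟨C 0 0 - C 1 0 / A 1 0 * A 0 0, C 1 0 / A 1 0, ?_⟩
      ext i j
      fin_cases i <;> fin_cases j
      · simp
      · simp [hb]
        have : A 1 0 * C 0 1 = 0 := by rw [hb] at e00; linear_combination -e00
        exact (mul_eq_zero.mp this).resolve_left hc
      · simp [hc]
      · simp
        field_simp
        linear_combination -e10
  · refine ⟨C 0 0 - C 0 1 / A 0 1 * A 0 0, C 0 1 / A 0 1, ?_⟩
    ext i j
    fin_cases i <;> fin_cases j
    · simp
    · simp [hb]
    · simp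
      field_simp
      linear_combination e00
    · simp
      field_simp
      linear_combination e01

end mat


section grp
variable {p : ℕ} [hp : Fact p.Prime]

abbrev M2 (p : ℕ) := Matrix (Fin 2) (Fin 2) (ZMod p)
abbrev GLp (p : ℕ) := GL (Fin 2) (ZMod p)
abbrev H (p : ℕ) := GLp p ⧸ Subgroup.center (GLp p)

lemma mem_center (g : GLp p) : g ∈ Subgroup.center (GLp p) ↔ ∃ t : ZMod p, (g : M2 p) = t • (1 : M2 p) := by
  rw [Matrix.GeneralLinearGroup.mem_center_iff_val_mem_range_scalar]
  constructor
  · rintro ⟨t, ht⟩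
    refine ⟨t, ?_⟩
    rw [← ht, Matrix.scalar_apply, Matrix.smul_one_eq_diagonal]
  · rintro ⟨t, ht⟩
    refine ⟨t, ?_⟩
    rw [ht, Matrix.scalar_apply, Matrix.smul_one_eq_diagonal]

lemma mk_eq_iff (a b : GLp p) : ((a : H p) = (b : H p)) ↔ ∃ t : ZMod p, (b : M2 p) = t • (a : M2 p) := by
  rw [QuotientGroup.eq, mem_center]
  constructor
  · rintro ⟨t, ht⟩
    refine ⟨t, ?_⟩
    have : (b : M2 p) = (a : M2 p) * ((a⁻¹ * b : GLp p) : M2 p) := by
      rw [← Units.val_mul]; simp
    rw [this, ht]
    simp
  · rintro ⟨t, ht⟩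
    refine ⟨t, ?_⟩
    rw [Units.val_mul, ht, Matrix.mul_smul]
    congr 1
    exact Units.inv_mul a

lemma det_ne (a : GLp p) : (a : M2 p).det ≠ 0 := by
  have := a.isUnit
  rw [Matrix.isUnit_iff_isUnit_det] at this
  exact this.ne_zero

lemma comm_iff (a b : GLp p) (h : (a : H p) * (b : H p) = (b : H p) * (a : H p)) :
    (a : M2 p) * (b : M2 p) = (b : M2 p) * (a : M2 p) ∨
    (a : M2 p) * (b : M2 p) = - ((b : M2 p) * (a : M2 p)) := by
  rw [← QuotientGroup.mk_mul, ← QuotientGroup.mk_mul, mk_eq_iff] at h
  obtain ⟨t, ht⟩ := h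
  rw [Units.val_mul, Units.val_mul] at ht
  have hd := congrArg Matrix.det ht
  rw [Matrix.det_smul, Matrix.det_mul, Matrix.det_mul] at hd
  simp only [Fintype.card_fin] at hd
  have ha := det_ne a
  have hb := det_ne b
  have ht2 : t ^ 2 = 1 := by
    have : (t ^ 2 - 1) * ((a : M2 p).det * (b : M2 p).det) = 0 := by linear_combination -hd
    have := (mul_eq_zero.mp this).resolve_right (mul_ne_zero ha hb)
    linear_combination this
  have h3 : (t - 1) * (t + 1) = 0 := by linear_combination ht2
  rcases mul_eq_zero.mp h3 with h | h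
  · left
    have : t = 1 := by linear_combination h
    rw [this, one_smul] at ht
    exact ht.symm
  · right
    have : t = -1 := by linear_combination h
    rw [this] at ht
    rw [ht]
    simp

lemma mk_eq_one_iff (a : GLp p) : ((a : H p) = 1) ↔ ∃ t : ZMod p, (a : M2 p) = t • (1 : M2 p) := by
  rw [← mem_center, QuotientGroup.eq_one_iff]

lemma mk_eq_of_smul (a b : GLp p) (t : ZMod p) (h : (b : M2 p) = t • (a : M2 p)) :
    (b : H p) = (a : H p) := ((mk_eq_iff a b).mpr ⟨t, h⟩).symm

/-- chosen representative -/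
noncomputable def r (h : H p) : GLp p := Quotient.out h

lemma r_spec (h : H p) : ((r h : GLp p) : H p) = h := QuotientGroup.out_eq' h

lemma two_ne (hp2 : p ≠ 2) : (2 : ZMod p) ≠ 0 := by
  intro h
  have h2 : ((2 : ℕ) : ZMod p) = 0 := by exact_mod_cast h
  rw [ZMod.natCast_eq_zero_iff] at h2
  have := (Nat.prime_dvd_prime_iff_eq hp.out Nat.prime_two).mp h2
  exact hp2 this

lemma scalar_of_smul {t y : ZMod p} {A : M2 p} (hy : y = 0) :
    ∃ s : ZMod p, t • (1 : M2 p) + y • A = s • (1 : M2 p) := ⟨t, by rw [hy]; simp⟩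

lemma unit_mul_ne_zero (a b : GLp p) : (a : M2 p) * (b : M2 p) ≠ 0 := by
  intro h
  have := det_ne (a * b)
  rw [Units.val_mul, h] at this
  simp at this

/-- If `B` anticommutes with `A`, and `C` commutes with `A` and anticommutes with `B`
then `[C] = [A]`. -/
lemma case_pm (hp2 : p ≠ 2) (a b c : GLp p)
    (hab : (a : M2 p) * (b : M2 p) = - ((b : M2 p) * (a : M2 p)))
    (hca : (c : M2 p) * (a : M2 p) = (a : M2 p) * (c : M2 p))
    (hcb : (c : M2 p) * (b : M2 p) = - ((b : M2 p) * (c : M2 p)))
    (ha : (a : H p) ≠ 1) : (c : H p) = (a : H p) := by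
  have hA : ¬ ∃ t : ZMod p, (a : M2 p) = t • (1 : M2 p) := fun h => ha ((mk_eq_one_iff a).mpr h)
  obtain ⟨x, y, hxy⟩ := commute_nonscalar (a : M2 p) (c : M2 p) hA hca.symm
  have h1 : (2 * x) • (b : M2 p) = 0 := by
    rw [hxy] at hcb
    rw [add_mul, mul_add, smul_mul_assoc, smul_mul_assoc, mul_smul_comm, mul_smul_comm, one_mul,
      mul_one, hab] at hcb
    have : (2 * x) • (b : M2 p) = (x • (b : M2 p) + y • -((b : M2 p) * (a : M2 p))) +
        (x • (b : M2 p) + y • ((b : M2 p) * (a : M2 p))) := by
      rw [smul_neg, two_mul, add_smul]; abel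
    rw [this, hcb]; abel
  have hx : x = 0 := by
    by_contra hx
    have h2 : (2 * x) ≠ 0 := mul_ne_zero (two_ne hp2) hx
    have h3 := (smul_eq_zero.mp h1).resolve_left h2
    exact det_ne b (by rw [h3]; simp)
  apply mk_eq_of_smul a c y
  rw [hxy, hx]; simp

/-- The clique bound. -/
theorem card_le (hp2 : p ≠ 2) (S : Finset (H p)) (h1 : ∀ h ∈ S, h ≠ 1)
    (hc : ∀ g ∈ S, ∀ h ∈ S, g * h = h * g) : S.card ≤ p := by
  classical
  by_cases hanti : ∃ g ∈ S, ∃ h ∈ S, ((r g : GLp p) : M2 p) * (r h : GLp p) =
      - (((r h : GLp p) : M2 p) * (r g : GLp p))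
  · obtain ⟨g, hg, h, hh, hgh⟩ := hanti
    have hsub : S ⊆ {g, h, g * h} := by
      intro c hcS
      simp only [Finset.mem_insert, Finset.mem_singleton]
      have hc1 := h1 c hcS
      have e1 : ((r c : GLp p) : H p) * ((r g : GLp p) : H p) =
          ((r g : GLp p) : H p) * ((r c : GLp p) : H p) := by
        rw [r_spec, r_spec]; exact hc c hcS g hg
      have e2 : ((r c : GLp p) : H p) * ((r h : GLp p) : H p) =
          ((r h : GLp p) : H p) * ((r c : GLp p) : H p) := by
        rw [r_spec, r_spec]; exact hc c hcS h hh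
      have hg1 : ((r g : GLp p) : H p) ≠ 1 := by rw [r_spec]; exact h1 g hg
      have hh1 : ((r h : GLp p) : H p) ≠ 1 := by rw [r_spec]; exact h1 h hh
      have hc1' : ((r c : GLp p) : H p) ≠ 1 := by rw [r_spec]; exact hc1
      have hhg : ((r h : GLp p) : M2 p) * (r g : GLp p) =
          - (((r g : GLp p) : M2 p) * (r h : GLp p)) := by rw [hgh]; simp
      rcases comm_iff _ _ e1 with f1 | f1 <;> rcases comm_iff _ _ e2 with f2 | f2
      · -- commutes with both
        exfalso
        have hA : ¬ ∃ t : ZMod p, ((r g : GLp p) : M2 p) = t • (1 : M2 p) :=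
          fun h => hg1 ((mk_eq_one_iff _).mpr h)
        obtain ⟨x, y, hxy⟩ := commute_nonscalar _ _ hA f1.symm
        have h3 : (2 * y) • (((r g : GLp p) : M2 p) * (r h : GLp p)) = 0 := by
          rw [hxy] at f2
          rw [add_mul, mul_add, smul_mul_assoc, smul_mul_assoc, mul_smul_comm, mul_smul_comm,
            one_mul, mul_one, hhg] at f2
          have h4 := add_left_cancel f2
          have : (2 * y) • (((r g : GLp p) : M2 p) * (r h : GLp p)) =
            y • (((r g : GLp p) : M2 p) * (r h : GLp p)) +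
            y • (((r g : GLp p) : M2 p) * (r h : GLp p)) := by rw [two_mul, add_smul]
          rw [this]
          nth_rewrite 2 [h4]
          simp
        have hy : y = 0 := by
          by_contra hy
          exact unit_mul_ne_zero _ _ ((smul_eq_zero.mp h3).resolve_left (mul_ne_zero (two_ne hp2) hy))
        apply hc1'
        rw [mk_eq_one_iff]
        refine ⟨x, ?_⟩
        rw [hxy, hy]; simp
      · left
        have := case_pm hp2 (r g) (r h) (r c) hgh f1 f2 hg1
        rwa [r_spec, r_spec] at this
      · right; left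
        have := case_pm hp2 (r h) (r g) (r c) hhg f2 f1 hh1
        rwa [r_spec, r_spec] at this
      · right; right
        have hprod1 : ((r g * r h : GLp p) : H p) ≠ 1 := by
          intro h0
          rw [mk_eq_one_iff] at h0
          obtain ⟨t, ht⟩ := h0
          rw [Units.val_mul] at ht
          have h5 : ((r g : GLp p) : M2 p) * (r h : GLp p) * (r g : GLp p) =
              (r g : GLp p) * (((r g : GLp p) : M2 p) * (r h : GLp p)) := by
            rw [ht]; simp
          have h6 : ((r g : GLp p) : M2 p) * (((r g : GLp p) : M2 p) * (r h : GLp p)) = 0 := by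
            have h7 : ((r g : GLp p) : M2 p) * (r h : GLp p) * (r g : GLp p) =
                - ((r g : GLp p) * (((r g : GLp p) : M2 p) * (r h : GLp p))) := by
              rw [mul_assoc, hhg]; simp
            have h8 : (2 : ZMod p) • (((r g : GLp p) : M2 p) * (((r g : GLp p) : M2 p) * (r h : GLp p))) = 0 := by
              rw [two_smul]
              nth_rewrite 1 [← h5]
              rw [h7]; simp
            exact (smul_eq_zero.mp h8).resolve_left (two_ne hp2)
          rw [← mul_assoc] at h6
          have := det_ne (r g * r g * r h)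
          rw [Units.val_mul, Units.val_mul, h6] at this
          simp at this
        have hA : ((r g * r h : GLp p) : M2 p) * (r g : GLp p) =
            - (((r g : GLp p) : M2 p) * (r g * r h : GLp p)) := by
          rw [Units.val_mul, mul_assoc, hhg]; simp
        have hC : ((r c : GLp p) : M2 p) * (r g * r h : GLp p) =
            ((r g * r h : GLp p) : M2 p) * (r c : GLp p) := by
          rw [Units.val_mul, ← mul_assoc, f1, neg_mul, mul_assoc, f2, mul_neg, neg_neg, mul_assoc]
        have := case_pm hp2 (r g * r h) (r g) (r c) hA hC f1 hprod1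
        rw [QuotientGroup.mk_mul, r_spec, r_spec, r_spec] at this
        exact this
    refine (Finset.card_le_card hsub).trans (Finset.card_le_three.trans ?_)
    have h2 := hp.out.two_le
    omega
  · push Not at hanti
    rcases S.eq_empty_or_nonempty with h0 | ⟨g, hg⟩
    · rw [h0]; simp
    · have hg1 : ((r g : GLp p) : H p) ≠ 1 := by rw [r_spec]; exact h1 g hg
      have hA : ¬ ∃ t : ZMod p, ((r g : GLp p) : M2 p) = t • (1 : M2 p) :=
          fun h => hg1 ((mk_eq_one_iff _).mpr h)
      have key : ∀ c : H p, ∃ t : ZMod p, c ∈ S → ∃ y : ZMod p, y ≠ 0 ∧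
          ((r c : GLp p) : M2 p) = y • (t • (1 : M2 p) + ((r g : GLp p) : M2 p)) := by
        intro c
        by_cases hcS : c ∈ S
        · have e1 : ((r g : GLp p) : H p) * ((r c : GLp p) : H p) =
              ((r c : GLp p) : H p) * ((r g : GLp p) : H p) := by
            rw [r_spec, r_spec]; exact hc g hg c hcS
          rcases comm_iff _ _ e1 with f1 | f1
          · obtain ⟨x, y, hxy⟩ := commute_nonscalar _ _ hA f1
            have hy : y ≠ 0 := by
              intro hy
              have hc1 : ((r c : GLp p) : H p) ≠ 1 := by rw [r_spec]; exact h1 c hcS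
              apply hc1
              rw [mk_eq_one_iff]
              refine ⟨x, ?_⟩
              rw [hxy, hy]; simp
            refine ⟨x / y, fun _ => ⟨y, hy, ?_⟩⟩
            rw [hxy, smul_add, smul_smul]
            congr 2
            field_simp
          · exact absurd f1 (hanti g hg c hcS)
        · exact ⟨0, fun h => absurd h hcS⟩
      choose f hf using key
      have hinj : Set.InjOn f (S : Set (H p)) := by
        intro c hcS c' hcS' hcc
        obtain ⟨y, hy, h3⟩ := hf c hcS
        obtain ⟨y', hy', h4⟩ := hf c' hcS'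
        rw [← hcc] at h4
        have := mk_eq_of_smul (r c') (r c) (y / y') (by
          rw [h3, h4, smul_smul, div_mul_cancel₀ y hy'])
        rwa [r_spec, r_spec] at this
      have := Finset.card_le_card_of_injOn (t := (Finset.univ : Finset (ZMod p))) f
        (fun _ _ => Finset.mem_coe.mpr (Finset.mem_univ _)) hinj
      rwa [Finset.card_univ, ZMod.card] at this

end grp

end Pool.Agent.X75.PGL
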