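import Pool.Agent.X75.PGL
set_option autoImplicit false
open Finset
namespace Pool.Agent.X75.PGL

section grp
variable {p : ℕ} [hp : Fact p.Prime]

/-- the matrices `x + T` with `T² = ν` -/
def tor (ν x : ZMod p) : M2 p := !![x, ν; 1, x]

lemma tor_det (ν x : ZMod p) : (tor ν x).det = x * x - ν := by
  simp [tor, Matrix.det_fin_two]

lemma tor_mul (ν x y : ZMod p) : tor ν x * tor ν y = tor ν y * tor ν x := by
  ext i j
  fin_cases i <;> fin_cases j <;> simp [tor, Matrix.mul_apply, Fin.sum_univ_two] <;> ring

lemma exists_clique (hp2 : p ≠ 2) : ∃ S : Finset (H p), S.card = p ∧ (∀ h ∈ S, h ≠ 1) ∧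
    (∀ g ∈ S, ∀ h ∈ S, g * h = h * g) := by
  classical
  obtain ⟨ν, hν⟩ := FiniteField.exists_nonsquare (F := ZMod p) (by rw [ZMod.ringChar_zmod_n]; exact hp2)
  have hdet : ∀ x : ZMod p, (tor ν x).det ≠ 0 := by
    intro x h
    rw [tor_det] at h
    exact hν ⟨x, by linear_combination -h⟩
  let u : ZMod p → GLp p := fun x => Matrix.GeneralLinearGroup.mkOfDetNeZero (tor ν x) (hdet x)
  have hu : ∀ x, ((u x : GLp p) : M2 p) = tor ν x := fun x => rfl
  have hinj : Function.Injective (fun x => ((u x : GLp p) : H p)) := by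
    intro x y hxy
    simp only [mk_eq_iff, hu] at hxy
    obtain ⟨t, ht⟩ := hxy
    have h10 := congrFun (congrFun ht 1) 0
    have h00 := congrFun (congrFun ht 0) 0
    simp [tor] at h10 h00
    rw [← h10] at h00
    simpa using h00.symm
  refine ⟨Finset.univ.image (fun x => ((u x : GLp p) : H p)), ?_, ?_, ?_⟩
  · rw [Finset.card_image_of_injective _ hinj, Finset.card_univ, ZMod.card]
  · intro h hh
    rw [Finset.mem_image] at hh
    obtain ⟨x, -, rfl⟩ := hh
    intro h1
    rw [mk_eq_one_iff, hu] at h1
    obtain ⟨t, ht⟩ := h1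
    have h10 := congrFun (congrFun ht 1) 0
    simp [tor] at h10
  · intro g hg h hh
    rw [Finset.mem_image] at hg hh
    obtain ⟨x, -, rfl⟩ := hg
    obtain ⟨y, -, rfl⟩ := hh
    rw [← QuotientGroup.mk_mul, ← QuotientGroup.mk_mul]
    congr 1
    apply Units.ext
    rw [Units.val_mul, Units.val_mul, hu, hu]
    exact tor_mul ν x y

lemma centerless (hp2 : p ≠ 2) (h : H p) (hh : ∀ g : H p, h * g = g * h) : h = 1 := by
  have h2 : (2 : ZMod p) ≠ 0 := two_ne hp2
  set A : M2 p := ((r h : GLp p) : M2 p) with hA
  let e : GLp p := Matrix.GeneralLinearGroup.mkOfDetNeZero (!![1, 1; 0, 1] : M2 p)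
    (by simp [Matrix.det_fin_two])
  let f : GLp p := Matrix.GeneralLinearGroup.mkOfDetNeZero (!![1, 0; 1, 1] : M2 p)
    (by simp [Matrix.det_fin_two])
  have he : ((e : GLp p) : M2 p) = !![1, 1; 0, 1] := rfl
  have hf : ((f : GLp p) : M2 p) = !![1, 0; 1, 1] := rfl
  have e1 := comm_iff (r h) e (by rw [r_spec]; exact hh _)
  have e2 := comm_iff (r h) f (by rw [r_spec]; exact hh _)
  have hdet : A.det ≠ 0 := det_ne (r h)
  rw [Matrix.det_fin_two] at hdet
  rw [he] at e1
  rw [hf] at e2
  rw [← r_spec h, mk_eq_one_iff]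
  rw [← hA] at e1 e2 ⊢
  have mulE : A * !![1, 1; 0, 1] = !![A 0 0, A 0 0 + A 0 1; A 1 0, A 1 0 + A 1 1] := by
    ext i j
    fin_cases i <;> fin_cases j <;> simp [Matrix.mul_apply, Fin.sum_univ_two]
  have mulE' : (!![1, 1; 0, 1] : M2 p) * A = !![A 0 0 + A 1 0, A 0 1 + A 1 1; A 1 0, A 1 1] := by
    ext i j
    fin_cases i <;> fin_cases j <;> simp [Matrix.mul_apply, Fin.sum_univ_two]
  have mulF : A * !![1, 0; 1, 1] = !![A 0 0 + A 0 1, A 0 1; A 1 0 + A 1 1, A 1 1] := by
    ext i j
    fin_cases i <;> fin_cases j <;> simp [Matrix.mul_apply, Fin.sum_univ_two]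
  have mulF' : (!![1, 0; 1, 1] : M2 p) * A = !![A 0 0, A 0 1; A 0 0 + A 1 0, A 0 1 + A 1 1] := by
    ext i j
    fin_cases i <;> fin_cases j <;> simp [Matrix.mul_apply, Fin.sum_univ_two]
  rw [mulE, mulE'] at e1
  rw [mulF, mulF'] at e2
  have hE : A 1 0 = 0 ∧ A 0 0 = A 1 1 := by
    rcases e1 with h | h
    · have a := congrFun (congrFun h 0) 0
      have b := congrFun (congrFun h 0) 1
      simp at a b
      exact ⟨a, by linear_combination b⟩
    · exfalso
      have a := congrFun (congrFun h 0) 0
      have b := congrFun (congrFun h 0) 1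
      have c := congrFun (congrFun h 1) 0
      have d := congrFun (congrFun h 1) 1
      simp at a b c d
      have c' : A 1 0 = 0 := by
        have : (2 : ZMod p) * A 1 0 = 0 := by linear_combination c
        exact (mul_eq_zero.mp this).resolve_left h2
      have a' : A 0 0 = 0 := by
        have : (2 : ZMod p) * A 0 0 = 0 := by rw [c'] at a; linear_combination a
        exact (mul_eq_zero.mp this).resolve_left h2
      apply hdet
      rw [a', c']; ring
  have hF : A 0 1 = 0 := by
    rcases e2 with h | h
    · have a := congrFun (congrFun h 0) 0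
      simp at a
      exact a
    · exfalso
      have a := congrFun (congrFun h 0) 0
      have b := congrFun (congrFun h 0) 1
      have c := congrFun (congrFun h 1) 0
      have d := congrFun (congrFun h 1) 1
      simp at a b c d
      have c' : A 0 1 = 0 := by
        have : (2 : ZMod p) * A 0 1 = 0 := by linear_combination b
        exact (mul_eq_zero.mp this).resolve_left h2
      have a' : A 0 0 = 0 := by
        have : (2 : ZMod p) * A 0 0 = 0 := by rw [c'] at a; linear_combination a
        exact (mul_eq_zero.mp this).resolve_left h2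
      apply hdet
      rw [a', c']; ring
  refine ⟨A 0 0, ?_⟩
  ext i j
  fin_cases i <;> fin_cases j <;> simp [hE.1, hF, hE.2]

instance : Finite (H p) := by
  have : Finite (GLp p) := inferInstance
  exact inferInstance

end grp

/-- Blow-up by a cyclic direct factor. -/
theorem cliqueNum_prod {K : Type*} [Group K] [Finite K] (z k : ℕ) [NeZero z]
    (hcent : ∀ h : K, (∀ g : K, h * g = g * h) → h = 1)
    (hub : ∀ S : Finset K, (∀ h ∈ S, h ≠ 1) → (∀ g ∈ S, ∀ h ∈ S, g * h = h * g) → S.card ≤ k)
    (hlb : ∃ S : Finset K, S.card = k ∧ (∀ h ∈ S, h ≠ 1) ∧ (∀ g ∈ S, ∀ h ∈ S, g * h = h * g)) :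
    (commutingGraph (Multiplicative (ZMod z) × K)).cliqueNum = z * k := by
  classical
  have hnc : ∀ x : Multiplicative (ZMod z) × K, x ∉ Subgroup.center _ ↔ x.2 ≠ 1 := by
    intro x
    rw [Subgroup.mem_center_iff]
    constructor
    · intro h h1
      apply h
      intro g
      ext
      · simp [mul_comm]
      · simp [h1]
    · intro h h1
      apply h
      apply hcent
      intro g
      have := congrArg Prod.snd (h1 (1, g))
      simpa using this.symm
  apply le_antisymm
  · obtain ⟨s, hs⟩ := (commutingGraph (Multiplicative (ZMod z) × K)).exists_isNClique_cliqueNum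
    rw [← hs.card_eq]
    have hcl := hs.isClique
    -- the projection to K
    have hcomm : ∀ x ∈ s, ∀ y ∈ s, (x : Multiplicative (ZMod z) × K).2 * y.1.2 = y.1.2 * x.1.2 := by
      intro x hx y hy
      by_cases hxy : x = y
      · rw [hxy]
      · have := (hcl hx hy hxy).2
        have := congrArg Prod.snd this
        simpa using this
    let S2 : Finset K := s.image (fun x => x.1.2)
    have hS2 : S2.card ≤ k := by
      apply hub
      · intro h hh
        rw [Finset.mem_image] at hh
        obtain ⟨x, hx, rfl⟩ := hh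
        exact (hnc x.1).mp x.2
      · intro g hg h hh
        rw [Finset.mem_image] at hg hh
        obtain ⟨x, hx, rfl⟩ := hg
        obtain ⟨y, hy, rfl⟩ := hh
        exact hcomm x hx y hy
    have hle : s.card ≤ ((Finset.univ : Finset (Multiplicative (ZMod z))) ×ˢ S2).card := by
      apply Finset.card_le_card_of_injOn (fun x => (x.1.1, x.1.2))
      · intro x hx
        simp only [Finset.coe_product, Set.mem_prod]
        exact ⟨Finset.mem_coe.mpr (Finset.mem_univ _), Finset.mem_coe.mpr (Finset.mem_image_of_mem _ hx)⟩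
      · intro x _ y _ h
        simp only [Prod.mk.injEq] at h
        exact Subtype.ext (Prod.ext h.1 h.2)
    refine hle.trans ?_
    rw [Finset.card_product, Finset.card_univ, Fintype.card_multiplicative, ZMod.card]
    exact Nat.mul_le_mul_left z hS2
  · obtain ⟨S, hS1, hS2, hS3⟩ := hlb
    let t : Finset {x : Multiplicative (ZMod z) × K // x ∉ Subgroup.center _} :=
      ((Finset.univ : Finset (Multiplicative (ZMod z))) ×ˢ S).subtype (fun x => x ∉ Subgroup.center _)
    have ht : (commutingGraph (Multiplicative (ZMod z) × K)).IsClique (t : Set _) := by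
      intro x hx y hy hxy
      refine ⟨hxy, ?_⟩
      have hx' : x.1.2 ∈ S := by
        have := Finset.mem_subtype.mp (Finset.mem_coe.mp hx)
        exact (Finset.mem_product.mp this).2
      have hy' : y.1.2 ∈ S := by
        have := Finset.mem_subtype.mp (Finset.mem_coe.mp hy)
        exact (Finset.mem_product.mp this).2
      apply Prod.ext
      · simp [mul_comm]
      · exact hS3 _ hx' _ hy'
    have hcard : t.card = z * k := by
      rw [Finset.card_subtype, Finset.filter_true_of_mem]
      · rw [Finset.card_product, Finset.card_univ, Fintype.card_multiplicative, ZMod.card, hS1]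
      · intro x hx
        rw [hnc]
        exact hS2 _ (Finset.mem_product.mp hx).2
    rw [← hcard]
    exact ht.card_le_cliqueNum

end Pool.Agent.X75.PGL
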